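import Mathlib

/-!
# Axis-parallel dissections of the L-tromino (MP_b07864_co): basic definitions

`SP` is the group of the 8 signed permutation matrices of the plane, acting on `α × α` for every
additive commutative group `α`.
-/

open Finset

namespace APd

/-- Signed permutation matrices of the plane: `s = false` is `diag(a,b)`, `s = true` is the map
`(x,y) ↦ (a y, b x)`. -/
structure SP where
  s : Bool
  a : ℤˣ
  b : ℤˣ
  deriving DecidableEq

namespace SP

/-- `SP` as a product of finite types. -/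
def eqv : SP ≃ Bool × ℤˣ × ℤˣ where
  toFun g := (g.s, g.a, g.b)
  invFun g := ⟨g.1, g.2.1, g.2.2⟩
  left_inv _ := rfl
  right_inv _ := rfl

instance : Fintype SP := Fintype.ofEquiv _ eqv.symm

instance : One SP := ⟨⟨false, 1, 1⟩⟩

instance : Mul SP :=
  ⟨fun g h => ⟨xor g.s h.s, g.a * (bif g.s then h.b else h.a), g.b * (bif g.s then h.a else h.b)⟩⟩

instance : Inv SP := ⟨fun g => ⟨g.s, bif g.s then g.b else g.a, bif g.s then g.a else g.b⟩⟩

lemma one_def : (1 : SP) = ⟨false, 1, 1⟩ := rfl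

lemma mul_def (g h : SP) : g * h =
    ⟨xor g.s h.s, g.a * (bif g.s then h.b else h.a), g.b * (bif g.s then h.a else h.b)⟩ := rfl

lemma inv_def (g : SP) : g⁻¹ = ⟨g.s, bif g.s then g.b else g.a, bif g.s then g.a else g.b⟩ := rfl

lemma ext' {g h : SP} (h1 : g.s = h.s) (h2 : g.a = h.a) (h3 : g.b = h.b) : g = h := by
  cases g; cases h; simp_all

instance : Group SP where
  mul_assoc g h k := by
    obtain ⟨gs, ga, gb⟩ := g
    obtain ⟨hs, ha, hb⟩ := h
    obtain ⟨ks, ka, kb⟩ := k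
    cases gs <;> cases hs <;> cases ks <;> simp [mul_def, mul_assoc]
  one_mul g := by obtain ⟨gs, ga, gb⟩ := g; cases gs <;> simp [mul_def, one_def]
  mul_one g := by obtain ⟨gs, ga, gb⟩ := g; cases gs <;> simp [mul_def, one_def]
  inv_mul_cancel g := by
    obtain ⟨gs, ga, gb⟩ := g
    cases gs <;> simp [mul_def, one_def, inv_def, ← sq, Int.units_sq]

variable {α : Type*} [AddCommGroup α]

instance : SMul SP (α × α) :=
  ⟨fun g z => (g.a • (bif g.s then z.2 else z.1), g.b • (bif g.s then z.1 else z.2))⟩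

lemma smul_def (g : SP) (z : α × α) :
    g • z = (g.a • (bif g.s then z.2 else z.1), g.b • (bif g.s then z.1 else z.2)) := rfl

instance : DistribMulAction SP (α × α) where
  one_smul z := by simp [smul_def, one_def]
  mul_smul g h z := by
    obtain ⟨gs, ga, gb⟩ := g
    obtain ⟨hs, ha, hb⟩ := h
    cases gs <;> cases hs <;> simp [smul_def, mul_def, mul_smul]
  smul_zero g := by obtain ⟨gs, ga, gb⟩ := g; cases gs <;> simp [smul_def]
  smul_add g z w := by obtain ⟨gs, ga, gb⟩ := g; cases gs <;> simp [smul_def, smul_add]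

/-- The matrix of a signed permutation. -/
def mat (g : SP) : Matrix (Fin 2) (Fin 2) ℤ :=
  bif g.s then !![0, (g.a : ℤ); (g.b : ℤ), 0] else !![(g.a : ℤ), 0; 0, (g.b : ℤ)]

end SP

/-- The axis-parallel isometry `z ↦ g z + v`. -/
def mv (g : SP) (v z : ℝ × ℝ) : ℝ × ℝ := g • z + v

/-- The L-tromino `([0,2] × [0,1]) ∪ ([0,1] × [0,2])`. -/
def Ltr : Set (ℝ × ℝ) := Set.Icc 0 2 ×ˢ Set.Icc 0 1 ∪ Set.Icc 0 1 ×ˢ Set.Icc 0 2

open Classical in
/-- The indicator function of the L-tromino. -/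
noncomputable def Lf (z : ℝ × ℝ) : ℤ := if z ∈ Ltr then 1 else 0

open Classical in
/-- The indicator function of a set `P` of the plane. -/
noncomputable def ind (P : Set (ℝ × ℝ)) (z : ℝ × ℝ) : ℤ := if z ∈ P then 1 else 0

/-- `P` and the motions `z ↦ ρ_i z + t_i` form a dissection of the L-tromino into connected congruent
pieces. -/
structure Diss (ι : Type) [Fintype ι] (P : Set (ℝ × ℝ)) (ρ : ι → SP) (t : ι → ℝ × ℝ) : Prop where
  compact : IsCompact P
  conn : IsConnected P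
  reg : closure (interior P) = P
  disj : ∀ i j, i ≠ j →
    Disjoint (interior (mv (ρ i) (t i) '' P)) (interior (mv (ρ j) (t j) '' P))
  cover : ⋃ i, mv (ρ i) (t i) '' P = Ltr

/-- No `c ∈ C` separates a coordinate of `z` from the same coordinate of `z'`. -/
def SameCell (C : Finset ℝ) (z z' : ℝ × ℝ) : Prop :=
  ∀ c ∈ C, ((c < z.1 ↔ c < z'.1) ∧ (z.1 < c ↔ z'.1 < c)) ∧
    ((c < z.2 ↔ c < z'.2) ∧ (z.2 < c ↔ z'.2 < c))

/-- No coordinate of `z` is in `C`. -/
def OffGrid (C : Finset ℝ) (z : ℝ × ℝ) : Prop := ∀ c ∈ C, z.1 ≠ c ∧ z.2 ≠ c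

/-- `g` is constant on the intersection of `E` with each cell of the grid `C`. -/
def CellConst (C : Finset ℝ) (E : Set (ℝ × ℝ)) (g : ℝ × ℝ → ℤ) : Prop :=
  ∀ z ∈ E, ∀ z' ∈ E, SameCell C z z' → g z = g z'

/-- The inclusion of `Γ × Γ` into the plane. -/
def co (Γ : AddSubgroup ℝ) : Γ × Γ →+ ℝ × ℝ := Γ.subtype.prodMap Γ.subtype

/-- The set `Ω` of admissible coordinates: invariant under `Γ ∋ 1` and `x ↦ -x`, without
integers, with countable complement. -/
structure Adm (Γ : AddSubgroup ℝ) (Ω : Set ℝ) : Prop where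
  one_mem : (1 : ℝ) ∈ Γ
  add : ∀ x ∈ Ω, ∀ u ∈ Γ, x + u ∈ Ω
  neg : ∀ x ∈ Ω, -x ∈ Ω
  int : ∀ x ∈ Ω, ∀ k : ℤ, x ≠ k
  cnt : Ωᶜ.Countable

lemma Adm.dense {Γ : AddSubgroup ℝ} {Ω : Set ℝ} (h : Adm Γ Ω) : Dense Ω := by
  have := h.cnt.dense_compl ℝ
  rwa [compl_compl] at this

/-- The function `f` (with bounded support, constant on the cells of a finite grid) and the motions
`z ↦ ρ_i z + t_i` satisfy `∑_i f(ρ_i⁻¹(z - t_i)) = 1_L(z)` for all `z ∈ Ω²`. -/
structure Sys (ι : Type) [Fintype ι] (Γ : AddSubgroup ℝ) (Ω : Set ℝ) (f : ℝ × ℝ → ℤ)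
    (ρ : ι → SP) (t : ι → Γ × Γ) : Prop where
  fg : Γ.FG
  adm : Adm Γ Ω
  bdd : ∃ R : ℝ, ∀ z, f z ≠ 0 → |z.1| ≤ R ∧ |z.2| ≤ R
  cell : ∃ C : Finset ℝ, CellConst C (Ω ×ˢ Ω) f
  eq : ∀ z ∈ Ω ×ˢ Ω, ∑ i, f ((ρ i)⁻¹ • (z - co Γ (t i))) = Lf z

lemma co_apply (Γ : AddSubgroup ℝ) (v : Γ × Γ) : co Γ v = ((v.1 : ℝ), (v.2 : ℝ)) := rfl

lemma co_smul (Γ : AddSubgroup ℝ) (g : SP) (v : Γ × Γ) : co Γ (g • v) = g • co Γ v := by
  obtain ⟨s, a, b⟩ := g
  cases s <;> simp [co_apply, SP.smul_def, Units.smul_def]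

/-- The points `z` such that no motion `z ↦ g z + v` with `g ∈ SP`, `v ∈ Γ²` maps `z` to the
boundary of `P`. -/
def Egood (Γ : AddSubgroup ℝ) (P : Set (ℝ × ℝ)) : Set (ℝ × ℝ) :=
  {z | ∀ (g : SP) (v : Γ × Γ), g • z + co Γ v ∉ frontier P}

lemma Egood.smul {Γ : AddSubgroup ℝ} {P : Set (ℝ × ℝ)} {z : ℝ × ℝ} (hz : z ∈ Egood Γ P) (g : SP) :
    g • z ∈ Egood Γ P := by
  intro h v
  rw [← mul_smul]
  exact hz _ _

lemma Egood.add {Γ : AddSubgroup ℝ} {P : Set (ℝ × ℝ)} {z : ℝ × ℝ} (hz : z ∈ Egood Γ P)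
    (v : Γ × Γ) : z + co Γ v ∈ Egood Γ P := by
  intro h w
  have := hz h (h • v + w)
  rwa [map_add, co_smul, ← add_assoc, ← smul_add] at this

/-- The sum over the integer translates in the first coordinate. -/
noncomputable def rs (f : ℝ × ℝ → ℤ) (x y : ℝ) : ℤ := ∑ᶠ k : ℤ, f (x + k, y)

/-- The augmentation of a group ring: the sum of the coefficients. -/
noncomputable def aug (R X : Type) [CommRing R] [AddCommGroup X] : AddMonoidAlgebra R X →+* R :=
  (AddMonoidAlgebra.lift R R X 1).toRingHom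

lemma aug_single {R X : Type} [CommRing R] [AddCommGroup X] (x : X) (a : R) :
    aug R X (AddMonoidAlgebra.single x a) = a := by
  simp [aug, AddMonoidAlgebra.lift_single]

lemma aug_apply {R X : Type} [CommRing R] [AddCommGroup X] (D : AddMonoidAlgebra R X) :
    aug R X D = D.coeff.sum fun _ a => a := by
  simp [aug, AddMonoidAlgebra.lift_apply]

section Act

variable {A X Y N : Type} [CommRing A] [AddCommGroup X] [AddCommGroup Y] [AddCommGroup N]
  [Module A N] (θ : X →+ Y)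

/-- Translation of functions on `Y` by `θ v`. -/
def trl (v : X) : Module.End A (Y → N) where
  toFun F z := F (z - θ v)
  map_add' _ _ := rfl
  map_smul' _ _ := rfl

/-- The group ring `A[X]` acts on the functions `Y → N` by translations. -/
noncomputable def act : AddMonoidAlgebra A X →ₐ[A] Module.End A (Y → N) :=
  AddMonoidAlgebra.lift A (Module.End A (Y → N)) X
    { toFun := fun v => trl θ v.toAdd
      map_one' := by ext F z; simp [trl]
      map_mul' := fun v w => by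
        ext F z
        simp only [trl, toAdd_mul, map_add, LinearMap.coe_mk, AddHom.coe_mk, Module.End.mul_apply]
        congr 1
        abel }

lemma act_single (v : X) (a : A) (F : Y → N) (z : Y) :
    act θ (AddMonoidAlgebra.single v a) F z = a • F (z - θ v) := by
  simp [act, AddMonoidAlgebra.lift_single, trl]

lemma act_apply (D : AddMonoidAlgebra A X) (F : Y → N) (z : Y) :
    act θ D F z = D.coeff.sum fun v a => a • F (z - θ v) := by
  simp only [act, AddMonoidAlgebra.lift_apply, Finsupp.sum, LinearMap.sum_apply, Finset.sum_apply]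
  rfl

end Act

/-- `s ∈ ℤ[Γ]` maps every periodised row of `f` to a constant function on `Ω`. -/
def KillsRows {Γ : AddSubgroup ℝ} (Ω : Set ℝ) (s : AddMonoidAlgebra ℤ Γ) (f : ℝ × ℝ → ℤ) : Prop :=
  ∀ y ∈ Ω, ∃ c : ℤ, ∀ x ∈ Ω, (s.coeff.sum fun u a => a * rs f (x - u) y) = c

/-- The counting matrix of a family `r` in a finite group `K`. -/
def M0 {ι K : Type} [Fintype ι] [Group K] [DecidableEq K] (r : ι → K) : Matrix K K ℤ :=
  Matrix.of fun δ ε => ∑ i, if δ * r i = ε then 1 else 0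

/-- The matrix over `ℤ[Γ][Γ]` of the system of equations of the rows. -/
noncomputable def MM {ι K : Type} [Fintype ι] [Group K] [DecidableEq K] {Γ : AddSubgroup ℝ}
    (j : K →* SP) (r : ι → K) (t : ι → Γ × Γ) :
    Matrix K K (AddMonoidAlgebra (AddMonoidAlgebra ℤ Γ) Γ) :=
  Matrix.of fun δ ε => ∑ i, if δ * r i = ε then
    AddMonoidAlgebra.single (j δ • t i).2 (AddMonoidAlgebra.single (j δ • t i).1 1) else 0

end APd
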