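import Pool.Agent.Lib.MP_b07864_co.AP.Base

section

/-!
# AP D1a: the parity lemma

`Asum`: the element `∑_{b i = β} σ_i [y_i]` of `(ZMod p)[Γ]`.

PROOF. `Γ` is finitely generated and torsion-free, hence free over `ℤ` of finite rank. Let `I = {i | b i = 1}`,
`J = {i | b i = -1}`.
(a) For every homomorphism `χ : Γ → ℤˣ` (`χ : Multiplicative Γ →* ℤˣ`) let `A(χ) := ∑_{i ∈ I} σ i * χ(y i)`,
`B(χ) := ∑_{i ∈ J} σ i * χ(y i)` (integers). The ring homomorphism `(ZMod p)[Γ] → ZMod p`, `single v x ↦ x * χ v`,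
applied to `h` gives `A(χ)^2 ≡ B(χ)^2 mod p` (`χ(-v) = χ(v)`). `|A(χ)| ≤ |I|`, `|B(χ)| ≤ |J|`, `|I| + |J| = p`,
`A(χ) ≡ |I|`, `B(χ) ≡ |J| mod 2`. So `A ± B` are odd, in particular nonzero, and `|A ± B| ≤ p`;
`p ∣ (A - B)(A + B)` gives `|A - B| = p` or `|A + B| = p`, so `|A| + |B| = p`, `|A(χ)| = |I|`, `|B(χ)| = |J|`: the
signs `σ i * χ(y i)` are all equal for `i ∈ I`, and all equal for `i ∈ J`.
(b) With `χ = 1`: `σ` is constant on `I` and on `J`. So for every `χ`: `χ(y i - y i') = 1` for `i, i'` in the same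
class. If `v ∈ Γ` is not in `2 Γ`, then some coordinate of `v` in a `ℤ`-basis of `Γ` is odd and
`χ(w) := (-1)^(that coordinate of w)` has `χ v = -1`. Hence `y i - y i' ∈ 2 Γ`.
-/

open Set Topology Finset

namespace APd

/-- The element `∑_{b i = β} σ_i [y_i]` of `(ZMod p)[Γ]`. -/
noncomputable def Asum {ι : Type} [Fintype ι] {Γ : AddSubgroup ℝ} (p : ℕ) (σ b : ι → ℤˣ) (β : ℤˣ)
    (y : ι → Γ) : AddMonoidAlgebra (ZMod p) Γ :=
  ∑ i, if b i = β then AddMonoidAlgebra.single (y i) (((σ i : ℤˣ) : ℤ) : ZMod p) else 0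

private lemma d1a_signs {ι : Type} [Fintype ι] {p : ℕ} (hp : p.Prime) (hp2 : p ≠ 2)
    (hcard : Fintype.card ι = p) (e : ι → ℤˣ) (h : (p : ℤ) ∣ ∑ i, ((e i : ℤˣ) : ℤ)) (i i' : ι) : e i = e i' := by
  classical
  have hodd : Odd (p : ℤ) := by exact_mod_cast hp.odd_of_ne_two hp2
  have hval : ∀ i, ((e i : ℤˣ) : ℤ) = 1 ∨ ((e i : ℤˣ) : ℤ) = -1 := by
    intro i
    rcases Int.units_eq_one_or (e i) with h | h <;> simp [h]
  have hpar : Odd (∑ i, ((e i : ℤˣ) : ℤ)) := by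
    have h1 : Even (∑ i, (((e i : ℤˣ) : ℤ) - 1)) := by
      refine Finset.even_sum _ fun i _ => ?_
      rcases hval i with h | h <;> rw [h]
      · exact ⟨0, by norm_num⟩
      · exact ⟨-1, by norm_num⟩
    rw [Finset.sum_sub_distrib] at h1
    simp only [Finset.sum_const, Finset.card_univ, hcard, nsmul_eq_mul, mul_one] at h1
    have h2 := h1.add_odd hodd
    rwa [sub_add_cancel] at h2
  have hne : ∑ i, ((e i : ℤˣ) : ℤ) ≠ 0 := by
    intro h0
    rw [h0] at hpar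
    exact absurd hpar (by decide)
  have hcast : (p : ℤ) = ∑ _i : ι, (1 : ℤ) := by
    rw [Finset.sum_const, Finset.card_univ, hcard]; simp
  have hle : ∑ i, ((e i : ℤˣ) : ℤ) ≤ p := by
    rw [hcast]
    refine Finset.sum_le_sum fun i _ => ?_
    rcases hval i with h | h <;> omega
  have hge : -(p : ℤ) ≤ ∑ i, ((e i : ℤˣ) : ℤ) := by
    rw [hcast, ← Finset.sum_neg_distrib]
    refine Finset.sum_le_sum fun i _ => ?_
    rcases hval i with h | h <;> omega
  have hp0 : 0 < (p : ℤ) := by exact_mod_cast hp.pos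
  obtain ⟨c, hc⟩ := h
  have hc0 : c ≠ 0 := by
    rintro rfl
    exact hne (by rw [hc, mul_zero])
  have hc1 : c ≤ 1 := by
    by_contra hcon
    have : 2 ≤ c := by omega
    nlinarith
  have hc2 : -1 ≤ c := by
    by_contra hcon
    have : c ≤ -2 := by omega
    nlinarith
  have hcc : c = 1 ∨ c = -1 := by omega
  have hall : ∀ i, ((e i : ℤˣ) : ℤ) = c := by
    intro i
    rcases hcc with rfl | rfl
    · have h1 : ∑ i, (1 - ((e i : ℤˣ) : ℤ)) = 0 := by
        rw [Finset.sum_sub_distrib, ← hcast, hc]; ring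
      have h2 := (Finset.sum_eq_zero_iff_of_nonneg (fun i _ => by rcases hval i with h | h <;> omega)).mp h1 i
        (Finset.mem_univ i)
      omega
    · have h1 : ∑ i, (1 + ((e i : ℤˣ) : ℤ)) = 0 := by
        rw [Finset.sum_add_distrib, ← hcast, hc]; ring
      have h2 := (Finset.sum_eq_zero_iff_of_nonneg (fun i _ => by rcases hval i with h | h <;> omega)).mp h1 i
        (Finset.mem_univ i)
      omega
  refine Units.ext ?_
  rw [hall i, hall i']

/-- The character with values in `ZMod p` defined by the parity of `g`. -/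
private noncomputable def d1a_chi {Γ : AddSubgroup ℝ} (p : ℕ) (g : Γ →+ ℤ) : Multiplicative Γ →* ZMod p where
  toFun v := ((((-1 : ℤˣ) ^ (g v.toAdd) : ℤˣ) : ℤ) : ZMod p)
  map_one' := by simp
  map_mul' v w := by
    rw [toAdd_mul, map_add, zpow_add]
    push_cast
    ring

private lemma d1a_key {ι : Type} [Fintype ι] {Γ : AddSubgroup ℝ} {p : ℕ} (hp : p.Prime)
    (hp2 : p ≠ 2) (hcard : Fintype.card ι = p) (σ b : ι → ℤˣ) (y : ι → Γ)
    (h : Asum p σ b 1 y * Asum p σ b 1 (fun i => -y i) =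
      Asum p σ b (-1) y * Asum p σ b (-1) fun i => -y i) (g : Γ →+ ℤ) (i i' : ι) (hb : b i = b i') :
    σ i * (-1 : ℤˣ) ^ (g (y i)) = σ i' * (-1 : ℤˣ) ^ (g (y i')) := by
  classical
  have := Fact.mk hp
  set F : AddMonoidAlgebra (ZMod p) Γ →+* ZMod p :=
    (AddMonoidAlgebra.lift (ZMod p) (ZMod p) Γ (d1a_chi p g)).toRingHom with hF
  have hFs : ∀ (v : Γ) (x : ZMod p), F (AddMonoidAlgebra.single v x) =
      x * ((((-1 : ℤˣ) ^ (g v) : ℤˣ) : ℤ) : ZMod p) := by
    intro v x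
    show AddMonoidAlgebra.lift (ZMod p) (ZMod p) Γ (d1a_chi p g) (AddMonoidAlgebra.single v x) = _
    rw [AddMonoidAlgebra.lift_single, smul_eq_mul]
    rfl
  have hA : ∀ (β : ℤˣ) (z : ι → Γ), F (Asum p σ b β z) =
      ((∑ i, if b i = β then ((σ i * (-1 : ℤˣ) ^ (g (z i)) : ℤˣ) : ℤ) else 0 : ℤ) : ZMod p) := by
    intro β z
    unfold Asum
    rw [map_sum, Int.cast_sum]
    refine Finset.sum_congr rfl fun i _ => ?_
    split_ifs
    · rw [hFs]
      push_cast
      rfl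
    · rw [map_zero, Int.cast_zero]
  have hneg : ∀ v : Γ, (-1 : ℤˣ) ^ (g (-v)) = (-1 : ℤˣ) ^ (g v) := by
    intro v
    rw [map_neg, zpow_neg]
    exact inv_eq_of_mul_eq_one_left (Int.units_mul_self _)
  have hA' : ∀ β : ℤˣ, F (Asum p σ b β fun i => -y i) = F (Asum p σ b β y) := by
    intro β
    rw [hA, hA]
    simp only [hneg]
  have h1 := congrArg F h
  rw [map_mul, map_mul, hA', hA'] at h1
  set A : ℤ := ∑ i, if b i = 1 then ((σ i * (-1 : ℤˣ) ^ (g (y i)) : ℤˣ) : ℤ) else 0 with hAdef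
  set B : ℤ := ∑ i, if b i = -1 then ((σ i * (-1 : ℤˣ) ^ (g (y i)) : ℤˣ) : ℤ) else 0 with hBdef
  rw [hA, hA] at h1
  have h2 : (((A + B) * (A - B) : ℤ) : ZMod p) = 0 := by
    have : (A : ZMod p) * A = B * B := h1
    push_cast
    linear_combination this
  have h3 : (p : ℤ) ∣ (A + B) * (A - B) := (ZMod.intCast_zmod_eq_zero_iff_dvd _ _).mp h2
  have hb1 : ∀ i, b i = 1 ∨ b i = -1 := fun i => Int.units_eq_one_or (b i)
  have hne : (1 : ℤˣ) ≠ -1 := by decide
  have e1 : A + B = ∑ i, ((σ i * (-1 : ℤˣ) ^ (g (y i)) : ℤˣ) : ℤ) := by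
    rw [hAdef, hBdef, ← Finset.sum_add_distrib]
    refine Finset.sum_congr rfl fun i _ => ?_
    rcases hb1 i with hi | hi
    · rw [if_pos hi, if_neg (by rw [hi]; exact hne), add_zero]
    · rw [if_neg (by rw [hi]; exact hne.symm), if_pos hi, zero_add]
  have e2 : A - B = ∑ i, ((b i * (σ i * (-1 : ℤˣ) ^ (g (y i))) : ℤˣ) : ℤ) := by
    rw [hAdef, hBdef, ← Finset.sum_sub_distrib]
    refine Finset.sum_congr rfl fun i _ => ?_
    rcases hb1 i with hi | hi
    · rw [if_pos hi, if_neg (by rw [hi]; exact hne), sub_zero, hi, one_mul]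
    · rw [if_neg (by rw [hi]; exact hne.symm), if_pos hi, zero_sub, hi]
      push_cast
      ring
  rcases (Nat.prime_iff_prime_int.mp hp).dvd_or_dvd h3 with h4 | h4
  · rw [e1] at h4
    exact d1a_signs hp hp2 hcard _ h4 i i'
  · rw [e2] at h4
    have h5 := d1a_signs hp hp2 hcard (fun i => b i * (σ i * (-1 : ℤˣ) ^ (g (y i)))) h4 i i'
    simp only [hb] at h5
    exact mul_left_cancel h5

theorem D1a {ι : Type} [Fintype ι] {Γ : AddSubgroup ℝ} (hΓ : Γ.FG) {p : ℕ} (hp : p.Prime)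
    (hp2 : p ≠ 2) (hcard : Fintype.card ι = p) (σ b : ι → ℤˣ) (y : ι → Γ)
    (h : Asum p σ b 1 y * Asum p σ b 1 (fun i => -y i) =
      Asum p σ b (-1) y * Asum p σ b (-1) fun i => -y i) :
    ∀ i i', b i = b i' → ∃ w : Γ, y i - y i' = 2 • w := by
  classical
  intro i i' hb
  have : Module.Finite ℤ Γ := by
    have : AddGroup.FG Γ := (AddGroup.fg_iff_addSubgroup_fg Γ).mpr hΓ
    exact Module.Finite.iff_addGroup_fg.mpr inferInstance
  have : Module.Free ℤ Γ := inferInstance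
  let B := Module.Free.chooseBasis ℤ Γ
  have h0 := d1a_key hp hp2 hcard σ b y h 0 i i' hb
  simp only [AddMonoidHom.zero_apply, zpow_zero, mul_one] at h0
  have hev : ∀ c, Even (B.repr (y i - y i') c) := by
    intro c
    set g : Γ →+ ℤ := (B.coord c).toAddMonoidHom with hg
    have h1 := d1a_key hp hp2 hcard σ b y h g i i' hb
    rw [h0] at h1
    have h2 := mul_left_cancel h1
    have h3 : (-1 : ℤˣ) ^ (g (y i - y i')) = 1 := by
      rw [map_sub, zpow_sub, h2, mul_inv_cancel]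
    have h4 : g (y i - y i') = B.repr (y i - y i') c := rfl
    rw [h4] at h3
    by_contra hodd
    rw [Int.not_even_iff_odd] at hodd
    rw [hodd.neg_one_zpow] at h3
    exact absurd h3 (by decide)
  refine ⟨B.equivFun.symm fun c => B.repr (y i - y i') c / 2, ?_⟩
  apply B.equivFun.injective
  rw [map_nsmul, LinearEquiv.apply_symm_apply]
  funext c
  show B.repr (y i - y i') c = (2 : ℕ) • (B.repr (y i - y i') c / 2)
  obtain ⟨m, hm⟩ := hev c
  rw [hm, nsmul_eq_mul]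
  push_cast
  omega

end APd
end

section

/-!
# AP G3a: lengths of the rows

`row i y = {x | (ρ i)⁻¹ • ((x, y) - co Γ (t i)) ∈ P}` is the row at height `y` of the `i`-th piece.

PROOF. `(ρ i)⁻¹ • ((x, y) - co (t i)) = (a_i • (x - x_i), b_i • (y - y_i))`. `P` is compact, so all rows are
compact (closed and bounded), hence measurable of finite volume.
(1) For every `y ∈ Ω`: `∑ i, volume.real (row i y) = volume.real {x | (x, y) ∈ Ltr}`: by `S.eq` the sum of the indicators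
of the `row i y` is the indicator of `{x | (x,y) ∈ Ltr}` at every `x ∈ Ω`, and `Ωᶜ` is countable, hence null; integrate.
For `y = y0` the set is `Icc 0 2` (volume 2), for `y = y1` it is `Icc 0 1` (volume 1).
(2) For `i` with `b_i = 1`: `row i y` is the image of `{u | (u, y - y_i) ∈ P}` under `u ↦ a_i u + x_i`, so its volume is
`m (y - y_i)`, where `m c := volume.real {u | (u, c) ∈ P}`; for `b_i = -1` it is `m (y_i - y)`. `y_i = yI` for all `i` with `b_i = 1`,
`y_i = yJ` for all `i` with `b_i = -1` (`hy`).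
(3) If some `i ∈ I` exists: `μ0 := m (y0 - yI)`, `μ1 := m (y1 - yI)`. For `i' ∈ J`: `yJ = 2 - yI`, so
`volume.real (row i' y0) = m (2 - y0 - yI)`, and `2 - y0 ∈ Ω ∩ (1,2)`. By `hrow` for the index `i ∈ I` (with heights
`2 - y0` and `y1`): for all `x ∈ Ω` membership in `row i (2 - y0)` and in `row i y1` agree; `Ωᶜ` is null, so the
volumes agree: `m (2 - y0 - yI) = m (y1 - yI) = μ1`. In the same way `volume.real (row i' y1) = m (2 - y1 - yI) = μ0`
(`2 - y1 ∈ Ω ∩ (0,1)`). If no `i ∈ I` exists: all indices are in `J`; put `μ1 := m (yJ - y0)`, `μ0 := m (yJ - y1)`.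
(4) The two equations are (1) for `y0`, `y1`.
-/

open Set Topology Finset MeasureTheory

namespace APd

/-- The row at height `y` of the piece number `i`. -/
def row {ι : Type} {Γ : AddSubgroup ℝ} (P : Set (ℝ × ℝ)) (ρ : ι → SP) (t : ι → Γ × Γ) (i : ι)
    (y : ℝ) : Set ℝ :=
  {x | (ρ i)⁻¹ • ((x, y) - co Γ (t i)) ∈ P}

private lemma mem_row_iff {ι : Type} {Γ : AddSubgroup ℝ} (P : Set (ℝ × ℝ)) (ρ : ι → SP)
    (t : ι → Γ × Γ) (hs : ∀ i, (ρ i).s = false) (i : ι) (x y : ℝ) :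
    x ∈ row P ρ t i y ↔ ((ρ i).a • (x - ((t i).1 : ℝ)), (ρ i).b • (y - ((t i).2 : ℝ))) ∈ P := by
  have h : (ρ i)⁻¹ • ((x, y) - co Γ (t i)) =
      ((ρ i).a • (x - ((t i).1 : ℝ)), (ρ i).b • (y - ((t i).2 : ℝ))) := by
    rw [SP.inv_def, SP.smul_def, hs i]
    simp [co_apply]
  unfold row
  rw [Set.mem_ofPred_eq, h]

private lemma units_smul_cases (a : ℤˣ) (x : ℝ) : (a = 1 ∧ a • x = x) ∨ (a = -1 ∧ a • x = -x) := by
  rcases Int.units_eq_one_or a with h | h
  · left; subst h; simp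
  · right; subst h; simp [Units.smul_def]

private lemma row_isClosed {ι : Type} {Γ : AddSubgroup ℝ} {P : Set (ℝ × ℝ)} {ρ : ι → SP}
    {t : ι → Γ × Γ} (hP : IsCompact P) (hs : ∀ i, (ρ i).s = false) (i : ι) (y : ℝ) :
    IsClosed (row P ρ t i y) := by
  have h : row P ρ t i y =
      (fun x : ℝ => ((ρ i).a • (x - ((t i).1 : ℝ)), (ρ i).b • (y - ((t i).2 : ℝ)))) ⁻¹' P := by
    ext x
    exact mem_row_iff P ρ t hs i x y
  rw [h]
  refine hP.isClosed.preimage ?_
  refine Continuous.prodMk ?_ continuous_const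
  rcases Int.units_eq_one_or (ρ i).a with h | h <;> rw [h]
  · simp only [one_smul]; fun_prop
  · simp only [Units.smul_def, Units.val_neg, Units.val_one, neg_smul, one_smul]; fun_prop

private lemma volume_row {ι : Type} {Γ : AddSubgroup ℝ} {P : Set (ℝ × ℝ)} {ρ : ι → SP}
    {t : ι → Γ × Γ} (hs : ∀ i, (ρ i).s = false) (i : ι) (y : ℝ) :
    volume.real (row P ρ t i y) = volume.real {u : ℝ | (u, (ρ i).b • (y - ((t i).2 : ℝ))) ∈ P} := by
  set Q : Set ℝ := {u : ℝ | (u, (ρ i).b • (y - ((t i).2 : ℝ))) ∈ P} with hQ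
  rcases Int.units_eq_one_or (ρ i).a with h | h
  · have h1 : row P ρ t i y = (fun x => x + -((t i).1 : ℝ)) ⁻¹' Q := by
      ext x
      rw [mem_row_iff P ρ t hs i x y, h, one_smul]
      rfl
    rw [h1]
    unfold Measure.real
    rw [measure_preimage_add_right]
  · have h1 : row P ρ t i y = (fun x => ((t i).1 : ℝ) - x) ⁻¹' Q := by
      ext x
      rw [mem_row_iff P ρ t hs i x y, h]
      have h2 : ((-1 : ℤˣ) • (x - ((t i).1 : ℝ))) = ((t i).1 : ℝ) - x := by
        simp [Units.smul_def]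
      rw [h2]
      rfl
    rw [h1]
    unfold Measure.real
    rw [show (fun x => ((t i).1 : ℝ) - x) = (fun x => -x) ∘ (fun x => x + -((t i).1 : ℝ)) from by
      ext x; simp [sub_eq_add_neg], Set.preimage_comp, measure_preimage_add_right,
      Measure.measure_preimage_neg]

private lemma row_finite {ι : Type} {Γ : AddSubgroup ℝ} {P : Set (ℝ × ℝ)} {ρ : ι → SP}
    {t : ι → Γ × Γ} (hP : IsCompact P) (hs : ∀ i, (ρ i).s = false) (i : ι) (y : ℝ) :
    volume (row P ρ t i y) < ⊤ := by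
  obtain ⟨R, hR⟩ := hP.isBounded.subset_closedBall (0 : ℝ × ℝ)
  have hsub : row P ρ t i y ⊆ Metric.closedBall ((t i).1 : ℝ) R := by
    intro x hx
    rw [mem_row_iff P ρ t hs i x y] at hx
    have h1 := hR hx
    rw [mem_closedBall_zero_iff] at h1
    have h2 := (norm_fst_le _).trans h1
    rw [Metric.mem_closedBall, Real.dist_eq]
    rcases units_smul_cases (ρ i).a (x - ((t i).1 : ℝ)) with ⟨_, h⟩ | ⟨_, h⟩
    · simp only [h] at h2
      exact h2
    · simp only [h, norm_neg] at h2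
      exact h2
  exact (measure_mono hsub).trans_lt (isCompact_closedBall _ _).measure_lt_top

private lemma null_compl {Γ : AddSubgroup ℝ} {Ω : Set ℝ} (h : Adm Γ Ω) : ∀ᵐ x : ℝ, x ∈ Ω := by
  have := h.cnt.measure_zero volume
  exact this

private lemma sum_rows {ι : Type} [Fintype ι] {Γ : AddSubgroup ℝ} {Ω : Set ℝ} {P : Set (ℝ × ℝ)}
    {ρ : ι → SP} {t : ι → Γ × Γ} (hP : IsCompact P) (S : Sys ι Γ Ω (ind P) ρ t)
    (hs : ∀ i, (ρ i).s = false) {y : ℝ} (hy : y ∈ Ω) {c : ℝ} (hc : 0 ≤ c)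
    (hL : ∀ x : ℝ, (x, y) ∈ Ltr ↔ x ∈ Set.Icc (0 : ℝ) c) :
    ∑ i, volume.real (row P ρ t i y) = c := by
  have h1 : ∀ i, volume.real (row P ρ t i y) =
      ∫ x, (row P ρ t i y).indicator (1 : ℝ → ℝ) x := fun i =>
    (integral_indicator_one (row_isClosed hP hs i y).measurableSet).symm
  have h2 : c = ∫ x, (Set.Icc (0 : ℝ) c).indicator (1 : ℝ → ℝ) x := by
    rw [integral_indicator_one measurableSet_Icc]
    simp [Measure.real, Real.volume_Icc, hc]
  rw [Finset.sum_congr rfl fun i _ => h1 i, ← integral_finsetSum]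
  · conv_rhs => rw [h2]
    refine integral_congr_ae ?_
    filter_upwards [null_compl S.adm] with x hx
    have h3 := S.eq (x, y) ⟨hx, hy⟩
    have h4 : ((∑ i, ind P ((ρ i)⁻¹ • ((x, y) - co Γ (t i))) : ℤ) : ℝ) = ((Lf (x, y) : ℤ) : ℝ) := by
      rw [h3]
    rw [Int.cast_sum] at h4
    have h5 : ((Lf (x, y) : ℤ) : ℝ) = (Set.Icc (0 : ℝ) c).indicator (1 : ℝ → ℝ) x := by
      unfold Lf
      by_cases hx1 : (x, y) ∈ Ltr
      · rw [if_pos hx1, Set.indicator_of_mem ((hL x).1 hx1)]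
        simp
      · rw [if_neg hx1, Set.indicator_of_notMem (fun h => hx1 ((hL x).2 h))]
        simp
    rw [← h5, ← h4]
    refine Finset.sum_congr rfl fun i _ => ?_
    unfold ind
    by_cases hx1 : (ρ i)⁻¹ • ((x, y) - co Γ (t i)) ∈ P
    · rw [if_pos hx1, Set.indicator_of_mem (show x ∈ row P ρ t i y from hx1)]
      simp
    · rw [if_neg hx1, Set.indicator_of_notMem (show x ∉ row P ρ t i y from hx1)]
      simp
  · intro i _
    rw [integrable_indicator_iff (row_isClosed hP hs i y).measurableSet]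
    exact integrableOn_const (row_finite hP hs i y).ne

private lemma row_congr {ι : Type} {Γ : AddSubgroup ℝ} {Ω : Set ℝ} {P : Set (ℝ × ℝ)} {ρ : ι → SP}
    {t : ι → Γ × Γ} (hA : Adm Γ Ω) (i : ι) {y y' : ℝ}
    (h : ∀ x ∈ Ω, ind P ((ρ i)⁻¹ • ((x, y) - co Γ (t i))) =
      ind P ((ρ i)⁻¹ • ((x, y') - co Γ (t i)))) :
    volume.real (row P ρ t i y) = volume.real (row P ρ t i y') := by
  unfold Measure.real
  congr 1
  refine measure_congr ?_
  filter_upwards [null_compl hA] with x hx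
  have h1 := h x hx
  unfold ind at h1
  change (x ∈ row P ρ t i y) = (x ∈ row P ρ t i y')
  unfold row
  rw [Set.mem_ofPred_eq, Set.mem_ofPred_eq]
  by_cases h2 : (ρ i)⁻¹ • ((x, y) - co Γ (t i)) ∈ P <;>
    by_cases h3 : (ρ i)⁻¹ • ((x, y') - co Γ (t i)) ∈ P
  · simp [h2, h3]
  · rw [if_pos h2, if_neg h3] at h1; norm_num at h1
  · rw [if_neg h2, if_pos h3] at h1; norm_num at h1
  · simp [h2, h3]

private lemma sum_split {ι : Type} [Fintype ι] (b : ι → ℤˣ) (f : ι → ℝ) (u v : ℝ)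
    (h1 : ∀ i, b i = 1 → f i = u) (h2 : ∀ i, b i = -1 → f i = v) :
    ∑ i, f i = ((univ.filter fun i => b i = 1).card : ℝ) * u +
      ((univ.filter fun i => b i = -1).card : ℝ) * v := by
  have h3 : (univ.filter fun i => ¬ b i = 1) = (univ.filter fun i => b i = -1) := by
    ext i
    simp only [Finset.mem_filter, Finset.mem_univ, true_and]
    rcases Int.units_eq_one_or (b i) with h | h
    · rw [h]; simp
    · rw [h]; simp
  rw [← Finset.sum_filter_add_sum_filter_not univ (fun i => b i = 1) f, h3,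
    Finset.sum_congr rfl (fun i hi => h1 i (Finset.mem_filter.1 hi).2),
    Finset.sum_congr rfl (fun i hi => h2 i (Finset.mem_filter.1 hi).2)]
  simp

theorem G3a {ι : Type} [Fintype ι] {Γ : AddSubgroup ℝ} {Ω : Set ℝ} {P : Set (ℝ × ℝ)} {ρ : ι → SP}
    {t : ι → Γ × Γ} (hP : IsCompact P) (S : Sys ι Γ Ω (ind P) ρ t) (hs : ∀ i, (ρ i).s = false)
    (hy : ∀ i i', (ρ i).b = (ρ i').b → (t i).2 = (t i').2)
    (hrow : ∀ i, ∀ x ∈ Ω, ∀ y ∈ Ω, ∀ y' ∈ Ω,
      ((0 < y ∧ y < 1 ∧ 0 < y' ∧ y' < 1) ∨ (1 < y ∧ y < 2 ∧ 1 < y' ∧ y' < 2)) →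
      ind P ((ρ i)⁻¹ • ((x, y) - co Γ (t i))) = ind P ((ρ i)⁻¹ • ((x, y') - co Γ (t i))))
    (h2 : ∀ i i', (ρ i).b = 1 → (ρ i').b = -1 → ((t i).2 : ℝ) + (t i').2 = 2)
    {y0 y1 : ℝ} (hy0 : y0 ∈ Ω) (h01 : 0 < y0) (h02 : y0 < 1) (hy1 : y1 ∈ Ω) (h11 : 1 < y1)
    (h12 : y1 < 2) :
    ∃ μ0 μ1 : ℝ, 0 ≤ μ0 ∧ 0 ≤ μ1 ∧
      ((univ.filter fun i => (ρ i).b = 1).card : ℝ) * μ0 +
        ((univ.filter fun i => (ρ i).b = -1).card : ℝ) * μ1 = 2 ∧
      ((univ.filter fun i => (ρ i).b = 1).card : ℝ) * μ1 +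
        ((univ.filter fun i => (ρ i).b = -1).card : ℝ) * μ0 = 1 ∧
      (∀ i, (ρ i).b = 1 → volume.real (row P ρ t i y0) = μ0 ∧ volume.real (row P ρ t i y1) = μ1) ∧
      ∀ i, (ρ i).b = -1 → volume.real (row P ρ t i y0) = μ1 ∧ volume.real (row P ρ t i y1) = μ0 := by
  have hΩ2 : ∀ y ∈ Ω, 2 - y ∈ Ω := by
    intro y hy
    have h1 := S.adm.add (-y) (S.adm.neg y hy) 2 (by
      have := Γ.add_mem S.adm.one_mem S.adm.one_mem
      norm_num at this
      exact this)
    rwa [neg_add_eq_sub] at h1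
  have hS0 : ∑ i, volume.real (row P ρ t i y0) = 2 := by
    refine sum_rows hP S hs hy0 (by norm_num) fun x => ?_
    unfold Ltr
    simp only [Set.mem_union, Set.mem_prod, Set.mem_Icc]
    constructor
    · rintro (h | h)
      · exact h.1
      · exact ⟨h.1.1, by linarith [h.1.2]⟩
    · intro h
      exact Or.inl ⟨h, h01.le, h02.le⟩
  have hS1 : ∑ i, volume.real (row P ρ t i y1) = 1 := by
    refine sum_rows hP S hs hy1 (by norm_num) fun x => ?_
    unfold Ltr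
    simp only [Set.mem_union, Set.mem_prod, Set.mem_Icc]
    constructor
    · rintro (h | h)
      · exact absurd h.2.2 (by linarith)
      · exact h.1
    · intro h
      exact Or.inr ⟨h, by linarith, h12.le⟩
  -- the two values
  have key : ∃ μ0 μ1 : ℝ, 0 ≤ μ0 ∧ 0 ≤ μ1 ∧
      (∀ i, (ρ i).b = 1 → volume.real (row P ρ t i y0) = μ0 ∧ volume.real (row P ρ t i y1) = μ1) ∧
      ∀ i, (ρ i).b = -1 → volume.real (row P ρ t i y0) = μ1 ∧
        volume.real (row P ρ t i y1) = μ0 := by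
    by_cases hI : ∃ i, (ρ i).b = 1
    · obtain ⟨i, hi⟩ := hI
      refine ⟨volume.real (row P ρ t i y0), volume.real (row P ρ t i y1), measureReal_nonneg,
        measureReal_nonneg, ?_, ?_⟩
      · intro i' hi'
        have h1 : (t i').2 = (t i).2 := hy i' i (by rw [hi, hi'])
        rw [volume_row hs i', volume_row hs i', volume_row hs i, volume_row hs i, hi, hi', h1]
        exact ⟨rfl, rfl⟩
      · intro i' hi'
        have h1 := h2 i i' hi hi'
        have e1 : volume.real (row P ρ t i' y0) = volume.real (row P ρ t i (2 - y0)) := by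
          rw [volume_row hs i', volume_row hs i, hi, hi']
          have : ((-1 : ℤˣ) • (y0 - ((t i').2 : ℝ))) = (1 : ℤˣ) • (2 - y0 - ((t i).2 : ℝ)) := by
            simp only [Units.smul_def, Units.val_neg, Units.val_one, neg_smul, one_smul]
            linarith
          rw [this]
        have e2 : volume.real (row P ρ t i' y1) = volume.real (row P ρ t i (2 - y1)) := by
          rw [volume_row hs i', volume_row hs i, hi, hi']
          have : ((-1 : ℤˣ) • (y1 - ((t i').2 : ℝ))) = (1 : ℤˣ) • (2 - y1 - ((t i).2 : ℝ)) := by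
            simp only [Units.smul_def, Units.val_neg, Units.val_one, neg_smul, one_smul]
            linarith
          rw [this]
        rw [e1, e2]
        constructor
        · refine row_congr S.adm i fun x hx => ?_
          exact hrow i x hx (2 - y0) (hΩ2 y0 hy0) y1 hy1
            (Or.inr ⟨by linarith, by linarith, h11, h12⟩)
        · refine row_congr S.adm i fun x hx => ?_
          exact hrow i x hx (2 - y1) (hΩ2 y1 hy1) y0 hy0
            (Or.inl ⟨by linarith, by linarith, h01, h02⟩)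
    · push Not at hI
      by_cases hJ : ∃ i, (ρ i).b = -1
      · obtain ⟨i, hi⟩ := hJ
        refine ⟨volume.real (row P ρ t i y1), volume.real (row P ρ t i y0), measureReal_nonneg,
          measureReal_nonneg, fun i' hi' => absurd hi' (hI i'), ?_⟩
        intro i' hi'
        have h1 : (t i').2 = (t i).2 := hy i' i (by rw [hi, hi'])
        rw [volume_row hs i', volume_row hs i', volume_row hs i, volume_row hs i, hi, hi', h1]
        exact ⟨rfl, rfl⟩
      · push Not at hJ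
        exact ⟨0, 0, le_rfl, le_rfl, fun i' hi' => absurd hi' (hI i'),
          fun i' hi' => absurd hi' (hJ i')⟩
  obtain ⟨μ0, μ1, hμ0, hμ1, hI, hJ⟩ := key
  refine ⟨μ0, μ1, hμ0, hμ1, ?_, ?_, hI, hJ⟩
  · rw [← hS0]
    exact (sum_split (fun i => (ρ i).b) _ μ0 μ1 (fun i hi => (hI i hi).1)
      (fun i hi => (hJ i hi).1)).symm
  · rw [← hS1]
    exact (sum_split (fun i => (ρ i).b) _ μ1 μ0 (fun i hi => (hI i hi).2)
      (fun i hi => (hJ i hi).2)).symm

end APd
end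

section

/-!
# AP G3b: the piece at the end of the arm

PROOF. `Q` is closed (`hreg`) and contained in `Ltr`.
(A) Let `(x, y) ∈ Q`, `y < 1`, and `y' ∈ Icc 0 1`. Then `(x, y') ∈ Q`. Indeed `Ω ×ˢ Ω` is dense, so `interior Q ∩ Ω ×ˢ Ω`
is dense in `interior Q` and `Q = closure (interior Q ∩ Ω ×ˢ Ω)`. So for every `ε > 0` there is
`(x₁, y₁) ∈ Q`, `x₁, y₁ ∈ Ω`, within `ε` of `(x, y)`, with `y₁ < 1`; `y₁ ≥ 0` as `Q ⊆ Ltr`, `y₁ ≠ 0` (`hint`). For every
`y'' ∈ Ω ∩ (0,1)` the point `(x₁, y'')` is in `Q` (`hrow`), so `(x, y'') ∈ Q` (`Q` closed). `Ω ∩ (0,1)` is dense in `[0,1]`, so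
`(x, y') ∈ Q`.
(B) Suppose that not all `x ∈ Icc 1 2` have `(x, y0) ∈ Q`. By (A) `(2, y0) ∈ Q`. So there is `c ∈ [1,2)` with
`(c, y0) ∉ Q`, and, `Q` being closed, there is such a `c` in `(1,2)`. No point `(c, y)` is in `Q`: since
`Q ⊆ Ltr` and `c > 1` we have `0 ≤ y ≤ 1`. If `y < 1` then (A) gives `(c, y0) ∈ Q`. If `y = 1`: there are points
`(x₁, y₁) ∈ Q` with `x₁, y₁ ∈ Ω` arbitrarily close to `(c, 1)`, `x₁ > 1`, so `y₁ ≤ 1`, `y₁ ≠ 1`, and `(x₁, y0) ∈ Q` by (A); let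
the point tend to `(c, 1)`: `(c, y0) ∈ Q`, contradiction.
(C) So `Q` is contained in the union of the disjoint open sets `{z.1 < c}` and `{c < z.1}`, and meets the second
one (`(2, 1/2)`). `Q` is preconnected, so `Q ⊆ {c < z.1}`
(`IsPreconnected.subset_right_of_subset_union` or the definition).
-/

open Set Topology Finset

namespace APd

theorem G3b (Q : Set (ℝ × ℝ)) (hconn : IsPreconnected Q) (hreg : closure (interior Q) = Q)
    (hsub : Q ⊆ Ltr) (h2 : ((2 : ℝ), (1 / 2 : ℝ)) ∈ Q) (Ω : Set ℝ) (hΩ : Ωᶜ.Countable)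
    (hint : ∀ x ∈ Ω, ∀ k : ℤ, x ≠ k)
    (hrow : ∀ x ∈ Ω, ∀ y ∈ Ω, ∀ y' ∈ Ω, 0 < y → y < 1 → 0 < y' → y' < 1 →
      ((x, y) ∈ Q ↔ (x, y') ∈ Q))
    {y0 : ℝ} (hy0 : y0 ∈ Ω) (h01 : 0 < y0) (h02 : y0 < 1) :
    (∀ x ∈ Icc (1 : ℝ) 2, (x, y0) ∈ Q) ∨ ∀ z ∈ Q, 1 < z.1 := by
  have hcl : IsClosed Q := by rw [← hreg]; exact isClosed_closure
  have hdense : Dense Ω := by
    have := hΩ.dense_compl ℝ
    rwa [compl_compl] at this
  have happ : ∀ z ∈ Q, ∀ ε > 0, ∃ w ∈ Q, w.1 ∈ Ω ∧ w.2 ∈ Ω ∧ |w.1 - z.1| < ε ∧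
      |w.2 - z.2| < ε := by
    intro z hz ε hε
    have hz' : z ∈ closure (interior Q) := by rw [hreg]; exact hz
    have hdd : Dense (Ω ×ˢ Ω : Set (ℝ × ℝ)) := hdense.prod hdense
    have hO : IsOpen (Metric.ball z ε ∩ interior Q) := Metric.isOpen_ball.inter isOpen_interior
    have hne : (Metric.ball z ε ∩ interior Q).Nonempty :=
      mem_closure_iff.1 hz' _ Metric.isOpen_ball (Metric.mem_ball_self hε)
    obtain ⟨w, hw1, hw2⟩ := hdd.inter_open_nonempty _ hO hne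
    have hd : dist w z < ε := hw1.1
    rw [Prod.dist_eq, max_lt_iff, Real.dist_eq, Real.dist_eq] at hd
    exact ⟨w, interior_subset hw1.2, hw2.1, hw2.2, hd.1, hd.2⟩
  have hlim : ∀ z : ℝ × ℝ, (∀ ε > 0, ∃ w ∈ Q, |w.1 - z.1| < ε ∧ |w.2 - z.2| < ε) → z ∈ Q := by
    intro z hz
    rw [← hcl.closure_eq, Metric.mem_closure_iff]
    intro ε hε
    obtain ⟨w, hw, h1, h2⟩ := hz ε hε
    refine ⟨w, hw, ?_⟩
    rw [dist_comm, Prod.dist_eq, max_lt_iff, Real.dist_eq, Real.dist_eq]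
    exact ⟨h1, h2⟩
  have hLy : ∀ z ∈ Q, 0 ≤ z.2 := by
    intro z hz
    rcases hsub hz with h | h
    · exact h.2.1
    · exact h.2.1
  have hA : ∀ x y : ℝ, (x, y) ∈ Q → y < 1 → ∀ y' ∈ Icc (0 : ℝ) 1, (x, y') ∈ Q := by
    intro x y hxy hy y' hy'
    have hA1 : ∀ t ∈ Ω, 0 < t → t < 1 → (x, t) ∈ Q := by
      intro t ht ht0 ht1
      apply hlim
      intro ε hε
      obtain ⟨w, hw, hw1, hw2, hd1, hd2⟩ := happ (x, y) hxy (min ε (1 - y))
        (lt_min hε (by linarith))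
      have hw2' : w.2 < 1 := by
        have := (abs_lt.1 (lt_of_lt_of_le hd2 (min_le_right _ _))).2
        simp only at this
        linarith
      have hw20 : 0 < w.2 := by
        refine lt_of_le_of_ne (hLy w hw) ?_
        intro h
        exact hint w.2 hw2 0 (by rw [← h]; simp)
      refine ⟨(w.1, t), (hrow w.1 hw1 w.2 hw2 t ht hw20 hw2' ht0 ht1).1 hw, ?_, ?_⟩
      · exact lt_of_lt_of_le hd1 (min_le_left _ _)
      · simpa using hε
    apply hlim
    intro ε hε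
    obtain ⟨t, ht, ht1, ht2⟩ : ∃ t ∈ Ω, max 0 (y' - ε) < t ∧ t < min 1 (y' + ε) := by
      have hlt : max 0 (y' - ε) < min 1 (y' + ε) := by
        rw [max_lt_iff, lt_min_iff, lt_min_iff]
        exact ⟨⟨by norm_num, by linarith [hy'.1]⟩, ⟨by linarith [hy'.2], by linarith⟩⟩
      obtain ⟨t, ht, h1⟩ := hdense.exists_between hlt
      exact ⟨t, ht, h1.1, h1.2⟩
    rw [max_lt_iff] at ht1
    rw [lt_min_iff] at ht2
    refine ⟨(x, t), hA1 t ht ht1.1 ht2.1, by simpa using hε, ?_⟩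
    simp only
    rw [abs_lt]
    constructor <;> linarith [ht1.2, ht2.2]
  by_cases hall : ∀ x ∈ Icc (1 : ℝ) 2, (x, y0) ∈ Q
  · exact Or.inl hall
  right
  push Not at hall
  obtain ⟨c0, hc0, hc0Q⟩ := hall
  have h2Q : ((2 : ℝ), y0) ∈ Q := hA 2 (1 / 2) h2 (by norm_num) y0 ⟨h01.le, h02.le⟩
  have hc02 : c0 < 2 := by
    refine lt_of_le_of_ne hc0.2 ?_
    intro h
    rw [h] at hc0Q
    exact hc0Q h2Q
  obtain ⟨c, hc1, hc2, hcQ⟩ : ∃ c : ℝ, 1 < c ∧ c < 2 ∧ (c, y0) ∉ Q := by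
    have hcont : Continuous fun x : ℝ => (x, y0) := by fun_prop
    have hop : IsOpen ((fun x : ℝ => (x, y0)) ⁻¹' Qᶜ) := hcl.isOpen_compl.preimage hcont
    obtain ⟨δ, hδ, hball⟩ := Metric.isOpen_iff.1 hop c0 hc0Q
    refine ⟨c0 + min (δ / 2) ((2 - c0) / 2), ?_, ?_, ?_⟩
    · have : 0 < min (δ / 2) ((2 - c0) / 2) := lt_min (by linarith) (by linarith)
      linarith [hc0.1]
    · have := min_le_right (δ / 2) ((2 - c0) / 2)
      linarith
    · have : c0 + min (δ / 2) ((2 - c0) / 2) ∈ Metric.ball c0 δ := by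
        rw [Metric.mem_ball, Real.dist_eq, add_sub_cancel_left]
        have h0 : 0 < min (δ / 2) ((2 - c0) / 2) := lt_min (by linarith) (by linarith)
        rw [abs_of_pos h0]
        have := min_le_left (δ / 2) ((2 - c0) / 2)
        linarith
      exact hball this
  have hcno : ∀ y : ℝ, (c, y) ∉ Q := by
    intro y hy
    apply hcQ
    have hyL : y ≤ 1 := by
      rcases hsub hy with h | h
      · exact h.2.2
      · exact absurd h.1.2 (by simp only [not_le]; exact hc1)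
    rcases lt_or_eq_of_le hyL with hlt | heq
    · exact hA c y hy hlt y0 ⟨h01.le, h02.le⟩
    · apply hlim
      intro ε hε
      obtain ⟨w, hw, hw1, hw2, hd1, hd2⟩ := happ (c, y) hy (min ε (c - 1))
        (lt_min hε (by linarith))
      have hwc : 1 < w.1 := by
        have := (abs_lt.1 (lt_of_lt_of_le hd1 (min_le_right _ _))).1
        simp only at this
        linarith
      have hwy : w.2 ≤ 1 := by
        rcases hsub hw with h | h
        · exact h.2.2
        · exact absurd h.1.2 (by simp only [not_le]; exact hwc)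
      have hwy1 : w.2 < 1 := by
        refine lt_of_le_of_ne hwy ?_
        intro h
        exact hint w.2 hw2 1 (by rw [h]; simp)
      refine ⟨(w.1, y0), hA w.1 w.2 hw hwy1 y0 ⟨h01.le, h02.le⟩, ?_, by simpa using hε⟩
      exact lt_of_lt_of_le hd1 (min_le_left _ _)
  have hsplit : Q ⊆ {z : ℝ × ℝ | z.1 < c} ∪ {z : ℝ × ℝ | c < z.1} := by
    intro z hz
    rcases lt_trichotomy z.1 c with h | h | h
    · exact Or.inl h
    · exact absurd hz (by
        have := hcno z.2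
        rwa [← h] at this)
    · exact Or.inr h
  have hO1 : IsOpen {z : ℝ × ℝ | z.1 < c} := isOpen_lt continuous_fst continuous_const
  have hO2 : IsOpen {z : ℝ × ℝ | c < z.1} := isOpen_lt continuous_const continuous_fst
  have hdisj : Disjoint {z : ℝ × ℝ | z.1 < c} {z : ℝ × ℝ | c < z.1} := by
    rw [Set.disjoint_left]
    intro z h1 h2
    exact absurd (lt_trans (show z.1 < c from h1) (show c < z.1 from h2)) (lt_irrefl _)
  have hsubset : Q ⊆ {z : ℝ × ℝ | c < z.1} := by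
    refine hconn.subset_right_of_subset_union hO1 hO2 hdisj hsplit ⟨((2 : ℝ), (1 / 2 : ℝ)), h2, ?_⟩
    exact hc2
  intro z hz
  exact lt_trans hc1 (hsubset hz)

end APd
end

section

/-!
# AP D1: descent

PROOF. (c) Descent step. Let `y` satisfy `h`. By `D1a` there are `c : ℤˣ → Γ` (`c β` = the value `y i` at a chosen `i` with
`b i = β`, or `0`) and `y' : ι → Γ` with `y i = c (b i) + 2 • y' i` for all `i`. Then
`Asum p σ b β y = single (c β) 1 * ψ (Asum p σ b β y')`, where `ψ` is the ring homomorphism of `(ZMod p)[Γ]` induced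
by `v ↦ 2 • v`, and `Asum p σ b β (-y) = single (-c β) 1 * ψ (Asum p σ b β (-y'))`. So `h` for `y` gives
`ψ (Asum .. 1 y' * Asum .. 1 (-y')) = ψ (Asum .. (-1) y' * Asum .. (-1) (-y'))`, and
`ψ` is injective (`AddMonoidAlgebra.mapDomain_injective`, `v ↦ 2 • v` is injective on `Γ ⊆ ℝ`): `h` holds for `y'`.
(d) By induction on `n`: for all `y` satisfying `h`, and `i, i'` with `b i = b i'`, `∃ w : Γ, y i - y i' = 2 ^ n • w`. (Step:
(c) and the induction hypothesis for `y'`: `y i - y i' = 2 • (y' i - y' i')`.)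
(e) `Γ` is free of finite rank over `ℤ` (finitely generated, torsion-free), the coordinates of `y i - y i'` in
a basis are divisible by all powers of `2`, hence `0`. So `y i = y i'`.
-/

open Set Topology Finset

namespace APd

/-- The ring homomorphism induced by doubling. -/
private noncomputable def d1psi (Γ : AddSubgroup ℝ) (p : ℕ) :
    AddMonoidAlgebra (ZMod p) Γ →+* AddMonoidAlgebra (ZMod p) Γ :=
  AddMonoidAlgebra.mapDomainRingHom (ZMod p) (nsmulAddMonoidHom (α := Γ) 2)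

private lemma d1psi_single (Γ : AddSubgroup ℝ) (p : ℕ) (v : Γ) (x : ZMod p) :
    d1psi Γ p (AddMonoidAlgebra.single v x) = AddMonoidAlgebra.single (2 • v) x := by
  simp [d1psi]

private lemma d1psi_inj (Γ : AddSubgroup ℝ) (p : ℕ) : Function.Injective (d1psi Γ p) := by
  have : Function.Injective (nsmulAddMonoidHom (α := Γ) 2) := by
    intro v w hvw
    have h : (2 : ℕ) • v = (2 : ℕ) • w := hvw
    have h' : (2 : ℝ) * (v : ℝ) = 2 * (w : ℝ) := by
      have := congrArg (fun z : Γ => (z : ℝ)) h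
      simpa using this
    exact Subtype.ext (by linarith)
  exact AddMonoidAlgebra.mapDomain_injective this

private lemma d1_asum {ι : Type} [Fintype ι] {Γ : AddSubgroup ℝ} (p : ℕ) (σ b : ι → ℤˣ) (β : ℤˣ)
    (c : ℤˣ → Γ) (y y' : ι → Γ) (hy : ∀ i, y i = c (b i) + 2 • y' i) :
    Asum p σ b β y = AddMonoidAlgebra.single (c β) 1 * d1psi Γ p (Asum p σ b β y') := by
  unfold Asum
  rw [map_sum, Finset.mul_sum]
  refine Finset.sum_congr rfl fun i _ => ?_
  split_ifs with hi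
  · rw [d1psi_single, AddMonoidAlgebra.single_mul_single, one_mul, hy i, hi]
  · rw [map_zero, mul_zero]

private lemma d1_step {ι : Type} [Fintype ι] {Γ : AddSubgroup ℝ} (hΓ : Γ.FG) {p : ℕ} (hp : p.Prime)
    (hp2 : p ≠ 2) (hcard : Fintype.card ι = p) (σ b : ι → ℤˣ) (y : ι → Γ)
    (h : Asum p σ b 1 y * Asum p σ b 1 (fun i => -y i) =
      Asum p σ b (-1) y * Asum p σ b (-1) fun i => -y i) :
    ∃ (c : ℤˣ → Γ) (y' : ι → Γ), (∀ i, y i = c (b i) + 2 • y' i) ∧
      Asum p σ b 1 y' * Asum p σ b 1 (fun i => -y' i) =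
      Asum p σ b (-1) y' * Asum p σ b (-1) fun i => -y' i := by
  classical
  have hD := D1a hΓ hp hp2 hcard σ b y h
  let c : ℤˣ → Γ := fun β => if hb : ∃ i, b i = β then y hb.choose else 0
  have hc : ∀ i, ∃ w : Γ, y i - c (b i) = 2 • w := by
    intro i
    have hex : ∃ j, b j = b i := ⟨i, rfl⟩
    have : c (b i) = y hex.choose := by
      show (if hb : ∃ j, b j = b i then y hb.choose else 0) = _
      rw [dif_pos hex]
    rw [this]
    exact hD i hex.choose hex.choose_spec.symm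
  choose y' hy' using hc
  have e1 : ∀ i, y i = c (b i) + 2 • y' i := fun i => by rw [← hy' i]; abel
  have e2 : ∀ i, -y i = (fun β => -c β) (b i) + 2 • (-y' i) := fun i => by
    rw [e1 i]
    simp only [smul_neg]
    abel
  refine ⟨c, y', e1, ?_⟩
  apply d1psi_inj Γ p
  have e3 : ∀ β : ℤˣ, Asum p σ b β y * Asum p σ b β (fun i => -y i) =
      d1psi Γ p (Asum p σ b β y' * Asum p σ b β fun i => -y' i) := by
    intro β
    rw [d1_asum p σ b β c y y' e1, d1_asum p σ b β (fun β => -c β) (fun i => -y i) (fun i => -y' i) e2,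
      map_mul]
    have : (AddMonoidAlgebra.single (c β) 1 : AddMonoidAlgebra (ZMod p) Γ) *
        AddMonoidAlgebra.single (-c β) 1 = 1 := by
      rw [AddMonoidAlgebra.single_mul_single, add_neg_cancel, one_mul]
      rfl
    calc _ = ((AddMonoidAlgebra.single (c β) 1 : AddMonoidAlgebra (ZMod p) Γ) *
        AddMonoidAlgebra.single (-c β) 1) * (d1psi Γ p (Asum p σ b β y') *
          d1psi Γ p (Asum p σ b β fun i => -y' i)) := by ring
      _ = _ := by rw [this, one_mul]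
  rw [← e3, ← e3]
  exact h

private lemma d1_pow {ι : Type} [Fintype ι] {Γ : AddSubgroup ℝ} (hΓ : Γ.FG) {p : ℕ} (hp : p.Prime)
    (hp2 : p ≠ 2) (hcard : Fintype.card ι = p) (σ b : ι → ℤˣ) (n : ℕ) : ∀ (y : ι → Γ)
    (_h : Asum p σ b 1 y * Asum p σ b 1 (fun i => -y i) =
      Asum p σ b (-1) y * Asum p σ b (-1) fun i => -y i) (i i' : ι) (_hb : b i = b i'),
      ∃ w : Γ, y i - y i' = 2 ^ n • w := by
  induction n with
  | zero =>
    intro y _ i i' _
    exact ⟨y i - y i', by simp⟩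
  | succ n ih =>
    intro y h i i' hb
    obtain ⟨c, y', hy, h'⟩ := d1_step hΓ hp hp2 hcard σ b y h
    obtain ⟨w, hw⟩ := ih y' h' i i' hb
    refine ⟨w, ?_⟩
    rw [hy i, hy i', hb, add_sub_add_left_eq_sub, ← smul_sub, hw, smul_smul, pow_succ']

theorem D1 {ι : Type} [Fintype ι] {Γ : AddSubgroup ℝ} (hΓ : Γ.FG) {p : ℕ} (hp : p.Prime)
    (hp2 : p ≠ 2) (hcard : Fintype.card ι = p) (σ b : ι → ℤˣ) (y : ι → Γ)
    (h : Asum p σ b 1 y * Asum p σ b 1 (fun i => -y i) =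
      Asum p σ b (-1) y * Asum p σ b (-1) fun i => -y i) :
    ∀ i i', b i = b i' → y i = y i' := by
  intro i i' hb
  have : Module.Finite ℤ Γ := by
    have : AddGroup.FG Γ := (AddGroup.fg_iff_addSubgroup_fg Γ).mpr hΓ
    exact Module.Finite.iff_addGroup_fg.mpr inferInstance
  have : Module.Free ℤ Γ := inferInstance
  let B := Module.Free.chooseBasis ℤ Γ
  rw [← sub_eq_zero]
  apply B.repr.injective
  ext c
  rw [map_zero]
  show B.repr (y i - y i') c = 0
  by_contra hne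
  set m := B.repr (y i - y i') c with hm
  obtain ⟨w, hw⟩ := d1_pow hΓ hp hp2 hcard σ b m.natAbs y h i i' hb
  have h1 : m = 2 ^ m.natAbs * B.repr w c := by
    conv_lhs => rw [hm, hw, map_nsmul]
    simp
  have h2 : (2 : ℤ) ^ m.natAbs ∣ m := ⟨_, h1⟩
  have h3 := Int.natAbs_dvd_natAbs.mpr h2
  rw [Int.natAbs_pow] at h3
  have h4 := Nat.le_of_dvd (Int.natAbs_pos.mpr hne) h3
  have h5 : m.natAbs < 2 ^ m.natAbs := Nat.lt_two_pow_self
  have : (2 : ℤ).natAbs = 2 := rfl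
  rw [this] at h4
  omega

end APd
end

section

/-!
# AP G3: no dissection with diagonal linear parts and equal heights

PROOF. `Ω` is dense: take `y0 ∈ Ω ∩ (0,1)`, `y1 ∈ Ω ∩ (1,2)` and `μ0, μ1` from `G3a`. Let `nI, nJ` be the numbers of
indices with `b = 1`, `b = -1`; `nI + nJ = p`.
The point `(2, 1/2)` is in `Ltr`, so in some piece `Q := mv (ρ i) (co (t i)) '' P` (`h.cover`). `mv g v` is a
homeomorphism with inverse `z ↦ g⁻¹ • (z - v)`, so `Q` is connected, `closure (interior Q) = Q`, and `z ∈ Q` iff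
`(ρ i)⁻¹ • (z - co (t i)) ∈ P`; `Q ⊆ Ltr`. `hrow` of `G3b` is the present `hrow` for `i` (`ind P w = ind P w'` means
`w ∈ P ↔ w' ∈ P`). `row P ρ t i y = {x | (x, y) ∈ Q}`.
`G3b`: Case 1, `Icc 1 2 ⊆ row i y0`: `1 ≤ volume.real (row i y0)` (the row is bounded, so has finite volume).
Case 2, `Q ⊆ {1 < z.1}`: if `(x, y1) ∈ Q ⊆ Ltr`, `y1 > 1`, then `x ≤ 1`, contradiction: `row i y1 = ∅`, volume `0`.
If `(ρ i).b = 1`: case 1: `μ0 ≥ 1`, so `nI ≤ nI μ0 ≤ 2` and `nJ ≤ nJ μ0 ≤ 1`, `p ≤ 3`. Case 2: `μ1 = 0`,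
`nI μ0 = 2`, `nJ μ0 = 1`, so `nI = 2 nJ` and `p = 3 nJ`, impossible for a prime `p > 3`.
If `(ρ i).b = -1`: case 1: `μ1 ≥ 1`, so `nJ ≤ 2`, `nI ≤ 1`. Case 2: `μ0 = 0`, `nJ μ1 = 2`, `nI μ1 = 1`, `p = 3 nI`.
(`Int.units_eq_one_or` for `(ρ i).b`.)
-/

open Set Topology Finset MeasureTheory

namespace APd

private lemma cont_smul (g : SP) : Continuous fun z : ℝ × ℝ => g • z := by
  obtain ⟨s, a, b⟩ := g
  rcases Int.units_eq_one_or a with rfl | rfl <;> rcases Int.units_eq_one_or b with rfl | rfl <;>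
    cases s <;> simp only [SP.smul_def, Units.smul_def, Units.val_one, Units.val_neg, one_smul,
      neg_smul, cond_true, cond_false] <;> fun_prop

/-- The motion as a homeomorphism. -/
private noncomputable def mvH (g : SP) (v : ℝ × ℝ) : (ℝ × ℝ) ≃ₜ (ℝ × ℝ) where
  toFun := mv g v
  invFun z := g⁻¹ • (z - v)
  left_inv z := by simp [mv]
  right_inv z := by simp [mv]
  continuous_toFun := (cont_smul g).add continuous_const
  continuous_invFun := (cont_smul g⁻¹).comp (continuous_id.sub continuous_const)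

private lemma mem_img (g : SP) (v : ℝ × ℝ) (P : Set (ℝ × ℝ)) (z : ℝ × ℝ) :
    z ∈ mv g v '' P ↔ g⁻¹ • (z - v) ∈ P := by
  constructor
  · rintro ⟨w, hw, rfl⟩
    simpa [mv] using hw
  · intro h
    exact ⟨_, h, by simp [mv]⟩

private lemma ind_iff {P : Set (ℝ × ℝ)} {w w' : ℝ × ℝ} (h : ind P w = ind P w') :
    w ∈ P ↔ w' ∈ P := by
  unfold ind at h
  by_cases h1 : w ∈ P <;> by_cases h2 : w' ∈ P <;> simp_all

private lemma no_case1 {p nI nJ : ℕ} (hp3 : 3 < p) (hn : nI + nJ = p) {a b : ℝ} (ha : 1 ≤ a)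
    (hb : 0 ≤ b) (h1 : (nI : ℝ) * a + nJ * b = 2) (h2 : (nI : ℝ) * b + nJ * a = 1) : False := by
  have hI : (nI : ℝ) ≤ 2 := by
    have := mul_nonneg (Nat.cast_nonneg (α := ℝ) nJ) hb
    nlinarith [Nat.cast_nonneg (α := ℝ) nI]
  have hJ : (nJ : ℝ) ≤ 1 := by
    have := mul_nonneg (Nat.cast_nonneg (α := ℝ) nI) hb
    nlinarith [Nat.cast_nonneg (α := ℝ) nJ]
  have hI' : nI ≤ 2 := by exact_mod_cast hI
  have hJ' : nJ ≤ 1 := by exact_mod_cast hJ
  omega

private lemma no_case2 {p nI nJ : ℕ} (hp : p.Prime) (hp3 : 3 < p) (hn : nI + nJ = p) {a b : ℝ}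
    (hb : b = 0) (h1 : (nI : ℝ) * a + nJ * b = 2) (h2 : (nI : ℝ) * b + nJ * a = 1) : False := by
  subst hb
  have h1' : (nI : ℝ) * a = 2 := by linarith
  have h2' : (nJ : ℝ) * a = 1 := by linarith
  have ha : a ≠ 0 := by
    rintro rfl
    simp at h2'
  have h3 : (nI : ℝ) = 2 * nJ := by
    apply mul_right_cancel₀ ha
    linarith
  have h4 : nI = 2 * nJ := by exact_mod_cast h3
  have h5 : 3 ∣ p := ⟨nJ, by omega⟩
  have := (Nat.prime_dvd_prime_iff_eq Nat.prime_three hp).1 h5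
  omega

theorem G3 {ι : Type} [Fintype ι] {p : ℕ} (hp : p.Prime) (hp3 : 3 < p)
    (hcard : Fintype.card ι = p) {Γ : AddSubgroup ℝ} {Ω : Set ℝ} {P : Set (ℝ × ℝ)} {ρ : ι → SP}
    {t : ι → Γ × Γ} (h : Diss ι P ρ fun i => co Γ (t i)) (S : Sys ι Γ Ω (ind P) ρ t)
    (hs : ∀ i, (ρ i).s = false) (hy : ∀ i i', (ρ i).b = (ρ i').b → (t i).2 = (t i').2)
    (hrow : ∀ i, ∀ x ∈ Ω, ∀ y ∈ Ω, ∀ y' ∈ Ω,
      ((0 < y ∧ y < 1 ∧ 0 < y' ∧ y' < 1) ∨ (1 < y ∧ y < 2 ∧ 1 < y' ∧ y' < 2)) →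
      ind P ((ρ i)⁻¹ • ((x, y) - co Γ (t i))) = ind P ((ρ i)⁻¹ • ((x, y') - co Γ (t i))))
    (h2 : ∀ i i', (ρ i).b = 1 → (ρ i').b = -1 → ((t i).2 : ℝ) + (t i').2 = 2) : False := by
  obtain ⟨y0, hy0, h01, h02⟩ := S.adm.dense.exists_between (show (0 : ℝ) < 1 by norm_num)
  obtain ⟨y1, hy1, h11, h12⟩ := S.adm.dense.exists_between (show (1 : ℝ) < 2 by norm_num)
  obtain ⟨μ0, μ1, hμ0, hμ1, e0, e1, hI, hJ⟩ := G3a h.compact S hs hy hrow h2 hy0 h01 h02 hy1 h11 h12
  have hn : (univ.filter fun i => (ρ i).b = 1).card + (univ.filter fun i => (ρ i).b = -1).card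
      = p := by
    rw [← hcard, ← Finset.card_univ, ← Finset.card_filter_add_card_filter_not (s := univ)
      (fun i => (ρ i).b = 1)]
    congr 2
    ext i
    simp only [Finset.mem_filter, Finset.mem_univ, true_and]
    rcases Int.units_eq_one_or (ρ i).b with h' | h' <;> rw [h'] <;> decide
  set nI := (univ.filter fun i => (ρ i).b = 1).card
  set nJ := (univ.filter fun i => (ρ i).b = -1).card
  have hL : ((2 : ℝ), (1 / 2 : ℝ)) ∈ Ltr := by
    left
    simp only [Set.mem_prod, Set.mem_Icc]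
    norm_num
  have hL' := hL
  rw [← h.cover] at hL'
  obtain ⟨i, hi⟩ := Set.mem_iUnion.1 hL'
  set Q : Set (ℝ × ℝ) := mv (ρ i) (co Γ (t i)) '' P with hQ
  have hmem : ∀ z, z ∈ Q ↔ (ρ i)⁻¹ • (z - co Γ (t i)) ∈ P := mem_img _ _ _
  have hQL : Q ⊆ Ltr := by
    rw [← h.cover]
    exact Set.subset_iUnion (fun i => mv (ρ i) (co Γ (t i)) '' P) i
  have hconn : IsPreconnected Q :=
    h.conn.isPreconnected.image _ (mvH (ρ i) (co Γ (t i))).continuous.continuousOn
  have hreg : closure (interior Q) = Q := by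
    have e : Q = mvH (ρ i) (co Γ (t i)) '' P := rfl
    rw [e, ← Homeomorph.image_interior, ← Homeomorph.image_closure, h.reg]
  have hrow' : ∀ x ∈ Ω, ∀ y ∈ Ω, ∀ y' ∈ Ω, 0 < y → y < 1 → 0 < y' → y' < 1 →
      ((x, y) ∈ Q ↔ (x, y') ∈ Q) := by
    intro x hx y hy y' hy' a b c d
    rw [hmem, hmem]
    exact ind_iff (hrow i x hx y hy y' hy' (Or.inl ⟨a, b, c, d⟩))
  have key : 1 ≤ volume.real (row P ρ t i y0) ∨ volume.real (row P ρ t i y1) = 0 := by
    rcases G3b Q hconn hreg hQL hi Ω S.adm.cnt S.adm.int hrow' hy0 h01 h02 with hc | hc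
    · left
      have hsub : Set.Icc (1 : ℝ) 2 ⊆ row P ρ t i y0 := fun x hx => (hmem _).1 (hc x hx)
      have hfin : row P ρ t i y0 ⊆ Set.Icc (0 : ℝ) 2 := by
        intro x hx
        have : (x, y0) ∈ Ltr := hQL ((hmem _).2 hx)
        rcases this with h' | h'
        · exact h'.1
        · exact ⟨h'.1.1, h'.1.2.trans (by norm_num)⟩
      have hne : volume (row P ρ t i y0) ≠ ⊤ :=
        ne_top_of_le_ne_top (by simp [Real.volume_Icc]) (measure_mono hfin)
      have := measureReal_mono (μ := volume) hsub hne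
      rw [Real.volume_real_Icc_of_le (by norm_num)] at this
      linarith
    · right
      have : row P ρ t i y1 = ∅ := by
        ext x
        simp only [Set.mem_empty_iff_false, iff_false]
        intro hx
        have hxQ : (x, y1) ∈ Q := (hmem _).2 hx
        have h1 := hc _ hxQ
        rcases hQL hxQ with h' | h'
        · have := h'.2.2
          simp only at this
          linarith
        · have := h'.1.2
          simp only at this h1
          linarith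
      rw [this]
      simp
  rcases Int.units_eq_one_or (ρ i).b with hb | hb
  · obtain ⟨v0, v1⟩ := hI i hb
    rw [v0, v1] at key
    rcases key with k | k
    · exact no_case1 hp3 hn k hμ1 e0 e1
    · exact no_case2 hp hp3 hn k e0 e1
  · obtain ⟨v0, v1⟩ := hJ i hb
    rw [v0, v1] at key
    rcases key with k | k
    · exact no_case1 (nI := nJ) (nJ := nI) (a := μ1) hp3 (by omega) k hμ0 (by linarith) (by linarith)
    · exact no_case2 (nI := nJ) (nJ := nI) (a := μ1) hp hp3 (by omega) k (by linarith) (by linarith)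

end APd
end

section

/-!
# AP D2: the determinant of the system for diagonal linear parts

PROOF. The group is `K = ℤˣ × ℤˣ`, `j2 (a, b) = diag(a, b)`. `j2 δ • t i = (δ.1 • (t i).1, δ.2 • (t i).2)`. Apply to
the entries of `MM j2 r t` the ring homomorphism `e : ℤ[Γ][Γ] → (ZMod p)[Γ]` which is
`aug` followed by the cast `ℤ → ZMod p` on the coefficients. By `hD` all coefficients of `det (MM j2 r t)` are
mapped to `0`, so `det N = 0`, where
`N δ ε = ∑ i, if δ * r i = ε then single (δ.2 • (t i).2) 1 else 0` (over `R := (ZMod p)[Γ]`, commutative).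
Order `K` as `(1,1), (1,-1), (-1,1), (-1,-1)` and let, for `σ ∈ {1, -1}` (exponent: trivial or sign character of
the first coordinate), with `τ i := if σ = 1 then 1 else (r i).1`,
`A σ := ∑_{(r i).2 = 1} τ i V^(y i)`, `A' σ := ∑_{(r i).2 = 1} τ i V^(-y i)`, `B σ`, `B' σ` the same sums over
`(r i).2 = -1` (`y i := (t i).2`). Then `N = [[X, Y], [Y, X]]` in 2×2 blocks (blocks by the first coordinate
of `δ`, `ε`), where `X + Y = [[A 1, B 1], [B' 1, A' 1]]` and `X - Y = [[A (-1), B (-1)], [B' (-1), A' (-1)]]`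
(in terms of `Asum` of `D1a`: `A σ = Asum p τ b 1 y`, `A' σ = Asum p τ b 1 (-y)`, `B σ = Asum p τ b (-1) y`,
`B' σ = Asum p τ b (-1) (-y)` with `b i = (r i).2`), so
`det N = (A 1 * A' 1 - B 1 * B' 1) * (A (-1) * A' (-1) - B (-1) * B' (-1))`. (An explicit 4×4 determinant: with
`N₁₁ = x₁₁` etc. expand by `Matrix.det_succ_row_zero` after reindexing to `Fin 4`, and `ring`.)
`R` is a domain (`ZMod p` is a field, `Γ ⊆ ℝ` is a linearly ordered group: `NoZeroDivisors` instance of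
`AddMonoidAlgebra` for groups with unique products), so one of the two factors is `0`; apply `D1` with
`b i := (r i).2` and `σ := 1` or `σ := fun i => (r i).1`.
-/

open Set Topology Finset

namespace APd

/-- Diagonal signed permutation matrices. -/
def j2 : ℤˣ × ℤˣ →* SP where
  toFun g := ⟨false, g.1, g.2⟩
  map_one' := rfl
  map_mul' _ _ := rfl

private lemma D2_det4 {R : Type} [CommRing R] (A : Matrix (Fin 4) (Fin 4) R) :
    A.det = A 0 0 * (A 1 1 * (A 2 2 * A 3 3 - A 2 3 * A 3 2) -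
        A 1 2 * (A 2 1 * A 3 3 - A 2 3 * A 3 1) + A 1 3 * (A 2 1 * A 3 2 - A 2 2 * A 3 1)) -
      A 0 1 * (A 1 0 * (A 2 2 * A 3 3 - A 2 3 * A 3 2) -
        A 1 2 * (A 2 0 * A 3 3 - A 2 3 * A 3 0) + A 1 3 * (A 2 0 * A 3 2 - A 2 2 * A 3 0)) +
      A 0 2 * (A 1 0 * (A 2 1 * A 3 3 - A 2 3 * A 3 1) -
        A 1 1 * (A 2 0 * A 3 3 - A 2 3 * A 3 0) + A 1 3 * (A 2 0 * A 3 1 - A 2 1 * A 3 0)) -
      A 0 3 * (A 1 0 * (A 2 1 * A 3 2 - A 2 2 * A 3 1) -
        A 1 1 * (A 2 0 * A 3 2 - A 2 2 * A 3 0) + A 1 2 * (A 2 0 * A 3 1 - A 2 1 * A 3 0)) := by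
  rw [Matrix.det_succ_row_zero, Fin.sum_univ_four]
  simp only [Matrix.det_fin_three, Matrix.submatrix_apply]
  have h1 : ((0 : Fin 4).succAbove 0, (0 : Fin 4).succAbove 1, (0 : Fin 4).succAbove 2) = (1, 2, 3) := by decide
  have h2 : ((1 : Fin 4).succAbove 0, (1 : Fin 4).succAbove 1, (1 : Fin 4).succAbove 2) = (0, 2, 3) := by decide
  have h3 : ((2 : Fin 4).succAbove 0, (2 : Fin 4).succAbove 1, (2 : Fin 4).succAbove 2) = (0, 1, 3) := by decide
  have h4 : ((3 : Fin 4).succAbove 0, (3 : Fin 4).succAbove 1, (3 : Fin 4).succAbove 2) = (0, 1, 2) := by decide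
  simp only [Prod.mk.injEq] at h1 h2 h3 h4
  have s1 : Fin.succ (0 : Fin 3) = (1 : Fin 4) := rfl
  have s2 : Fin.succ (1 : Fin 3) = (2 : Fin 4) := rfl
  have s3 : Fin.succ (2 : Fin 3) = (3 : Fin 4) := rfl
  rw [h1.1, h1.2.1, h1.2.2, h2.1, h2.2.1, h2.2.2, h3.1, h3.2.1, h3.2.2, h4.1, h4.2.1, h4.2.2,
    s1, s2, s3]
  simp only [Fin.val_zero, Fin.val_one, Fin.val_two, Fin.isValue]
  have v3 : ((3 : Fin 4) : ℕ) = 3 := rfl
  rw [v3]
  ring

/-- The element `∑_{r i = (a, b)} [s • y i]`. -/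
private noncomputable def D2P {ι : Type} [Fintype ι] {Γ : AddSubgroup ℝ} (p : ℕ)
    (r : ι → ℤˣ × ℤˣ) (y : ι → Γ) (a b s : ℤˣ) : AddMonoidAlgebra (ZMod p) Γ :=
  ∑ i, if r i = (a, b) then AddMonoidAlgebra.single (s • y i) 1 else 0

private lemma D2_entry {ι : Type} [Fintype ι] {Γ : AddSubgroup ℝ} (p : ℕ) (r : ι → ℤˣ × ℤˣ)
    (t : ι → Γ × Γ) (δ ε : ℤˣ × ℤˣ) :
    AddMonoidAlgebra.mapRingHom Γ ((Int.castRingHom (ZMod p)).comp (aug ℤ Γ)) (MM j2 r t δ ε) =
      D2P p r (fun i => (t i).2) (δ.1 * ε.1) (δ.2 * ε.2) δ.2 := by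
  unfold MM D2P
  rw [Matrix.of_apply, map_sum]
  refine Finset.sum_congr rfl fun i _ => ?_
  have h : δ * r i = ε ↔ r i = (δ.1 * ε.1, δ.2 * ε.2) := by
    have h1 : (δ.1 * ε.1, δ.2 * ε.2) = δ * ε := rfl
    have h2 : δ * δ = 1 := by
      ext
      · simp [← sq]
      · simp [← sq]
    rw [h1]
    constructor
    · intro h
      rw [← h, ← mul_assoc, h2, one_mul]
    · intro h
      rw [h, ← mul_assoc, h2, one_mul]
  by_cases hi : δ * r i = ε
  · rw [if_pos hi, if_pos (h.1 hi), AddMonoidAlgebra.mapRingHom_single]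
    have h3 : (j2 δ • t i).2 = δ.2 • (t i).2 := rfl
    rw [h3]
    simp [aug_single]
  · rw [if_neg hi, if_neg fun h' => hi (h.2 h'), map_zero]

private lemma D2_add {ι : Type} [Fintype ι] {Γ : AddSubgroup ℝ} (p : ℕ) (r : ι → ℤˣ × ℤˣ)
    (y : ι → Γ) (b s : ℤˣ) :
    D2P p r y 1 b s + D2P p r y (-1) b s =
      Asum p (fun _ => 1) (fun i => (r i).2) b (fun i => s • y i) := by
  unfold D2P Asum
  rw [← Finset.sum_add_distrib]
  refine Finset.sum_congr rfl fun i _ => ?_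
  beta_reduce
  generalize r i = q
  obtain ⟨u, v⟩ := q
  rcases Int.units_eq_one_or u with hu | hu <;> by_cases hv : v = b <;> subst hu <;>
    simp [Prod.ext_iff, hv]

private lemma D2_sub {ι : Type} [Fintype ι] {Γ : AddSubgroup ℝ} (p : ℕ) (r : ι → ℤˣ × ℤˣ)
    (y : ι → Γ) (b s : ℤˣ) :
    D2P p r y 1 b s - D2P p r y (-1) b s =
      Asum p (fun i => (r i).1) (fun i => (r i).2) b (fun i => s • y i) := by
  unfold D2P Asum
  rw [← Finset.sum_sub_distrib]
  refine Finset.sum_congr rfl fun i _ => ?_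
  beta_reduce
  generalize r i = q
  obtain ⟨u, v⟩ := q
  rcases Int.units_eq_one_or u with hu | hu <;> by_cases hv : v = b <;> subst hu <;>
    simp [Prod.ext_iff, hv]

theorem D2 {ι : Type} [Fintype ι] {Γ : AddSubgroup ℝ} (hΓ : Γ.FG) {p : ℕ} (hp : p.Prime)
    (hp2 : p ≠ 2) (hcard : Fintype.card ι = p) (r : ι → ℤˣ × ℤˣ) (t : ι → Γ × Γ)
    (hD : ∀ v, (p : ℤ) ∣ aug ℤ Γ ((MM j2 r t).det.coeff v)) :
    ∀ i i', (r i).2 = (r i').2 → (t i).2 = (t i').2 := by
  have : Fact p.Prime := ⟨hp⟩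
  obtain ⟨φ, hφ⟩ : ∃ φ : AddMonoidAlgebra (AddMonoidAlgebra ℤ Γ) Γ →+*
      AddMonoidAlgebra (ZMod p) Γ, φ =
      AddMonoidAlgebra.mapRingHom Γ ((Int.castRingHom (ZMod p)).comp (aug ℤ Γ)) := ⟨_, rfl⟩
  have hdet : (φ.mapMatrix (MM j2 r t)).det = 0 := by
    rw [← RingHom.map_det, hφ]
    ext v
    rw [AddMonoidAlgebra.coeff_mapRingHom]
    simp only [RingHom.comp_apply, eq_intCast, AddMonoidAlgebra.coeff_zero, Finsupp.coe_zero,
      Pi.zero_apply]
    rw [ZMod.intCast_zmod_eq_zero_iff_dvd]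
    exact hD v
  obtain ⟨y, hy⟩ : ∃ y : ι → Γ, y = fun i => (t i).2 := ⟨_, rfl⟩
  have hent : ∀ δ ε : ℤˣ × ℤˣ, (φ.mapMatrix (MM j2 r t)) δ ε =
      D2P p r y (δ.1 * ε.1) (δ.2 * ε.2) δ.2 := by
    intro δ ε
    rw [RingHom.mapMatrix_apply, Matrix.map_apply, hφ, D2_entry, hy]
  obtain ⟨e, he⟩ : ∃ e : Fin 4 ≃ ℤˣ × ℤˣ, e 0 = (1, 1) ∧ e 1 = (1, -1) ∧ e 2 = (-1, 1) ∧
      e 3 = (-1, -1) := by
    refine ⟨⟨fun i => if i = 0 then (1, 1) else if i = 1 then (1, -1) else
      if i = 2 then (-1, 1) else (-1, -1), fun u => if u = (1, 1) then 0 else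
      if u = (1, -1) then 1 else if u = (-1, 1) then 2 else 3, ?_, ?_⟩, rfl, rfl, rfl, rfl⟩
    · decide
    · decide
  obtain ⟨he0, he1, he2, he3⟩ := he
  have e1 : (1 : ℤˣ) * 1 = 1 := by decide
  have e2 : (-1 : ℤˣ) * -1 = 1 := by decide
  have e3 : (1 : ℤˣ) * -1 = -1 := by decide
  have e4 : (-1 : ℤˣ) * 1 = -1 := by decide
  rw [← Matrix.det_submatrix_equiv_self e, D2_det4] at hdet
  simp only [Matrix.submatrix_apply, hent, he0, he1, he2, he3, e1, e2, e3, e4] at hdet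
  have hfac : ((D2P p r y 1 1 1 + D2P p r y (-1) 1 1) *
        (D2P p r y 1 1 (-1) + D2P p r y (-1) 1 (-1)) -
      (D2P p r y 1 (-1) 1 + D2P p r y (-1) (-1) 1) *
        (D2P p r y 1 (-1) (-1) + D2P p r y (-1) (-1) (-1))) *
      ((D2P p r y 1 1 1 - D2P p r y (-1) 1 1) *
        (D2P p r y 1 1 (-1) - D2P p r y (-1) 1 (-1)) -
      (D2P p r y 1 (-1) 1 - D2P p r y (-1) (-1) 1) *
        (D2P p r y 1 (-1) (-1) - D2P p r y (-1) (-1) (-1))) = 0 := by
    rw [← hdet]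
    ring
  have hs1 : (fun i => (1 : ℤˣ) • y i) = y := by
    funext i
    exact one_smul _ _
  have hs2 : (fun i => (-1 : ℤˣ) • y i) = fun i => -y i := by
    funext i
    rw [Units.neg_smul, one_smul]
  have hyi : ∀ i, (t i).2 = y i := fun i => by rw [hy]
  intro i i' hb
  rw [hyi, hyi]
  rcases mul_eq_zero.1 hfac with h | h
  · simp only [D2_add, hs1, hs2] at h
    exact D1 hΓ hp hp2 hcard (fun _ => 1) (fun i => (r i).2) y (sub_eq_zero.1 h) i i' hb
  · simp only [D2_sub, hs1, hs2] at h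
    exact D1 hΓ hp hp2 hcard (fun i => (r i).1) (fun i => (r i).2) y (sub_eq_zero.1 h) i i' hb

end APd
end
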