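import Pool.Agent.Lib.MP_b07864_co.AP.Base

section

/-!
# AP K1: small group determinants

PROOF. Reindex to `Fin n` and expand; or diagonalise by characters. With `n(g) := #{i | r i = g}` the matrix is
`M0 r δ ε = n(δ⁻¹ ε)`, and each sum `∑ i, F (r i)` is `∑ g, n(g) F(g)`
(`Finset.sum_comp`/`Finset.sum_fiberwise`).
* `K1a`: `det [[n(1), n(-1)], [n(-1), n(1)]] = (n(1) + n(-1)) (n(1) - n(-1))`.
* `K1b`: Klein group, product of the four character values.
* `K1c`: cyclic group of order 4: circulant matrix,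
  `(n0+n1+n2+n3) (n0-n1+n2-n3) ((n0-n2)^2 + (n1-n3)^2)`.
-/

open Finset

namespace APd

private lemma K1_entry {ι K : Type} [Fintype ι] [Group K] [DecidableEq K] (r : ι → K) (δ ε : K) :
    M0 r δ ε = ∑ i, if r i = δ⁻¹ * ε then (1 : ℤ) else 0 := by
  unfold M0
  rw [Matrix.of_apply]
  refine Finset.sum_congr rfl fun i _ => ?_
  have h : δ * r i = ε ↔ r i = δ⁻¹ * ε := by
    constructor
    · intro h
      rw [← h, inv_mul_cancel_left]
    · intro h
      rw [h, mul_inv_cancel_left]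
  simp only [h]

private lemma K1_sum {ι K : Type} [Fintype ι] [Fintype K] [DecidableEq K] (r : ι → K)
    {N : Type} [AddCommGroup N] (F : K → N) :
    ∑ i, F (r i) = ∑ g, (∑ i, if r i = g then (1 : ℤ) else 0) • F g := by
  simp_rw [Finset.sum_smul]
  rw [Finset.sum_comm]
  refine Finset.sum_congr rfl fun i _ => ?_
  simp

private lemma K1_det4 {R : Type} [CommRing R] (A : Matrix (Fin 4) (Fin 4) R) :
    A.det = A 0 0 * (A 1 1 * (A 2 2 * A 3 3 - A 2 3 * A 3 2) -
        A 1 2 * (A 2 1 * A 3 3 - A 2 3 * A 3 1) + A 1 3 * (A 2 1 * A 3 2 - A 2 2 * A 3 1)) -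
      A 0 1 * (A 1 0 * (A 2 2 * A 3 3 - A 2 3 * A 3 2) -
        A 1 2 * (A 2 0 * A 3 3 - A 2 3 * A 3 0) + A 1 3 * (A 2 0 * A 3 2 - A 2 2 * A 3 0)) +
      A 0 2 * (A 1 0 * (A 2 1 * A 3 3 - A 2 3 * A 3 1) -
        A 1 1 * (A 2 0 * A 3 3 - A 2 3 * A 3 0) + A 1 3 * (A 2 0 * A 3 1 - A 2 1 * A 3 0)) -
      A 0 3 * (A 1 0 * (A 2 1 * A 3 2 - A 2 2 * A 3 1) -
        A 1 1 * (A 2 0 * A 3 2 - A 2 2 * A 3 0) + A 1 2 * (A 2 0 * A 3 1 - A 2 1 * A 3 0)) := by
  rw [Matrix.det_succ_row_zero, Fin.sum_univ_four]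
  simp only [Matrix.det_fin_three, Matrix.submatrix_apply]
  have h1 : ((0 : Fin 4).succAbove 0, (0 : Fin 4).succAbove 1, (0 : Fin 4).succAbove 2) = (1, 2, 3) := by decide
  have h2 : ((1 : Fin 4).succAbove 0, (1 : Fin 4).succAbove 1, (1 : Fin 4).succAbove 2) = (0, 2, 3) := by decide
  have h3 : ((2 : Fin 4).succAbove 0, (2 : Fin 4).succAbove 1, (2 : Fin 4).succAbove 2) = (0, 1, 3) := by decide
  have h4 : ((3 : Fin 4).succAbove 0, (3 : Fin 4).succAbove 1, (3 : Fin 4).succAbove 2) = (0, 1, 2) := by decide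
  simp only [Prod.mk.injEq] at h1 h2 h3 h4
  have s1 : Fin.succ (0 : Fin 3) = (1 : Fin 4) := rfl
  have s2 : Fin.succ (1 : Fin 3) = (2 : Fin 4) := rfl
  have s3 : Fin.succ (2 : Fin 3) = (3 : Fin 4) := rfl
  rw [h1.1, h1.2.1, h1.2.2, h2.1, h2.2.1, h2.2.2, h3.1, h3.2.1, h3.2.2, h4.1, h4.2.1, h4.2.2,
    s1, s2, s3]
  simp only [Fin.val_zero, Fin.val_one, Fin.val_two, Fin.isValue]
  have v3 : ((3 : Fin 4) : ℕ) = 3 := rfl
  rw [v3]
  ring

theorem K1a {ι : Type} [Fintype ι] (r : ι → ℤˣ) :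
    (M0 r).det = (Fintype.card ι : ℤ) * ∑ i, (r i : ℤ) := by
  obtain ⟨n, hn⟩ : ∃ n : ℤˣ → ℤ, n = fun g => ∑ i, if r i = g then (1 : ℤ) else 0 := ⟨_, rfl⟩
  have hent : ∀ δ ε : ℤˣ, M0 r δ ε = n (δ⁻¹ * ε) := fun δ ε => by rw [K1_entry, hn]
  have hsum : ∀ F : ℤˣ → ℤ, ∑ i, F (r i) = n 1 * F 1 + n (-1) * F (-1) := by
    intro F
    rw [K1_sum r F, UnitsInt.univ, Finset.sum_pair (by decide), hn]
    simp only [smul_eq_mul]
  have hcard : (Fintype.card ι : ℤ) = n 1 + n (-1) := by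
    have := hsum fun _ => 1
    simp only [mul_one] at this
    rw [← this]
    simp
  obtain ⟨e, he⟩ : ∃ e : Fin 2 ≃ ℤˣ, e 0 = 1 ∧ e 1 = -1 := by
    refine ⟨⟨fun i => if i = 0 then 1 else -1, fun u => if u = 1 then 0 else 1, ?_, ?_⟩, rfl, rfl⟩
    · decide
    · decide
  rw [← Matrix.det_submatrix_equiv_self e, Matrix.det_fin_two]
  simp only [Matrix.submatrix_apply, hent, he.1, he.2]
  rw [hcard, hsum fun g => (g : ℤ)]
  have e1 : (1 : ℤˣ)⁻¹ * 1 = 1 := by decide
  have e2 : (-1 : ℤˣ)⁻¹ * -1 = 1 := by decide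
  have e3 : (1 : ℤˣ)⁻¹ * -1 = -1 := by decide
  have e4 : (-1 : ℤˣ)⁻¹ * 1 = -1 := by decide
  rw [e1, e2, e3, e4]
  push_cast
  ring

theorem K1b {ι : Type} [Fintype ι] (r : ι → ℤˣ × ℤˣ) :
    (M0 r).det = (Fintype.card ι : ℤ) * (∑ i, ((r i).1 : ℤ)) * (∑ i, ((r i).2 : ℤ)) *
      ∑ i, ((r i).1 : ℤ) * (r i).2 := by
  obtain ⟨n, hn⟩ : ∃ n : ℤˣ × ℤˣ → ℤ, n = fun g => ∑ i, if r i = g then (1 : ℤ) else 0 :=
    ⟨_, rfl⟩
  have hent : ∀ δ ε : ℤˣ × ℤˣ, M0 r δ ε = n (δ⁻¹ * ε) := fun δ ε => by rw [K1_entry, hn]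
  have hsum : ∀ F : ℤˣ × ℤˣ → ℤ, ∑ i, F (r i) = n (1, 1) * F (1, 1) + n (1, -1) * F (1, -1) +
      (n (-1, 1) * F (-1, 1) + n (-1, -1) * F (-1, -1)) := by
    intro F
    rw [K1_sum r F, Fintype.sum_prod_type, UnitsInt.univ, Finset.sum_pair (by decide),
      Finset.sum_pair (by decide), Finset.sum_pair (by decide), hn]
    simp only [smul_eq_mul]
  have hcard : (Fintype.card ι : ℤ) = n (1, 1) + n (1, -1) + (n (-1, 1) + n (-1, -1)) := by
    have := hsum fun _ => 1
    simp only [mul_one] at this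
    rw [← this]
    simp
  obtain ⟨e, he⟩ : ∃ e : Fin 4 ≃ ℤˣ × ℤˣ, e 0 = (1, 1) ∧ e 1 = (1, -1) ∧ e 2 = (-1, 1) ∧
      e 3 = (-1, -1) := by
    refine ⟨⟨fun i => if i = 0 then (1, 1) else if i = 1 then (1, -1) else
      if i = 2 then (-1, 1) else (-1, -1), fun u => if u = (1, 1) then 0 else
      if u = (1, -1) then 1 else if u = (-1, 1) then 2 else 3, ?_, ?_⟩, rfl, rfl, rfl, rfl⟩
    · decide
    · decide
  obtain ⟨he0, he1, he2, he3⟩ := he
  have h11 : ((1, 1) : ℤˣ × ℤˣ)⁻¹ = (1, 1) := by decide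
  have h12 : ((1, -1) : ℤˣ × ℤˣ)⁻¹ = (1, -1) := by decide
  have h21 : ((-1, 1) : ℤˣ × ℤˣ)⁻¹ = (-1, 1) := by decide
  have h22 : ((-1, -1) : ℤˣ × ℤˣ)⁻¹ = (-1, -1) := by decide
  rw [hcard, hsum fun g => (g.1 : ℤ), hsum fun g => (g.2 : ℤ), hsum fun g => (g.1 : ℤ) * g.2,
    ← Matrix.det_submatrix_equiv_self e, K1_det4]
  simp only [Matrix.submatrix_apply, hent, he0, he1, he2, he3, h11, h12, h21, h22,
    Prod.mk_mul_mk]
  have e1 : (1 : ℤˣ) * 1 = 1 := by decide
  have e2 : (-1 : ℤˣ) * -1 = 1 := by decide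
  have e3 : (1 : ℤˣ) * -1 = -1 := by decide
  have e4 : (-1 : ℤˣ) * 1 = -1 := by decide
  simp only [e1, e2, e3, e4]
  push_cast
  ring

/-- The rotations by multiples of a quarter turn. -/
def j4 : Multiplicative (ZMod 4) →* SP where
  toFun g := if g.toAdd = 0 then ⟨false, 1, 1⟩ else if g.toAdd = 1 then ⟨true, -1, 1⟩ else
    if g.toAdd = 2 then ⟨false, -1, -1⟩ else ⟨true, 1, -1⟩
  map_one' := by decide
  map_mul' := by decide

theorem K1c {ι : Type} [Fintype ι] (r : ι → Multiplicative (ZMod 4)) :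
    (M0 r).det = (Fintype.card ι : ℤ) * (∑ i, if (j4 (r i)).s then (-1 : ℤ) else 1) *
      (∑ i, (j4 (r i)).mat).det := by
  obtain ⟨n, hn⟩ : ∃ n : Multiplicative (ZMod 4) → ℤ,
    n = fun g => ∑ i, if r i = g then (1 : ℤ) else 0 := ⟨_, rfl⟩
  have hent : ∀ δ ε : Multiplicative (ZMod 4), M0 r δ ε = n (δ⁻¹ * ε) :=
    fun δ ε => by rw [K1_entry, hn]
  obtain ⟨e, he⟩ : ∃ e : Fin 4 ≃ Multiplicative (ZMod 4), e 0 = Multiplicative.ofAdd 0 ∧
      e 1 = Multiplicative.ofAdd 1 ∧ e 2 = Multiplicative.ofAdd 2 ∧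
      e 3 = Multiplicative.ofAdd 3 := ⟨Multiplicative.ofAdd, rfl, rfl, rfl, rfl⟩
  obtain ⟨he0, he1, he2, he3⟩ := he
  have hsumN : ∀ {N : Type} [AddCommGroup N] (F : Multiplicative (ZMod 4) → N), ∑ i, F (r i) =
      n (Multiplicative.ofAdd 0) • F (Multiplicative.ofAdd 0) +
      n (Multiplicative.ofAdd 1) • F (Multiplicative.ofAdd 1) +
      n (Multiplicative.ofAdd 2) • F (Multiplicative.ofAdd 2) +
      n (Multiplicative.ofAdd 3) • F (Multiplicative.ofAdd 3) := by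
    intro N _ F
    rw [K1_sum r F, ← Equiv.sum_comp e, Fin.sum_univ_four, he0, he1, he2, he3, hn]
  have hcard : (Fintype.card ι : ℤ) = n (Multiplicative.ofAdd 0) + n (Multiplicative.ofAdd 1) +
      n (Multiplicative.ofAdd 2) + n (Multiplicative.ofAdd 3) := by
    have := hsumN fun _ => (1 : ℤ)
    simp only [smul_eq_mul, mul_one] at this
    rw [← this]
    simp
  have j0 : j4 (Multiplicative.ofAdd 0) = ⟨false, 1, 1⟩ := rfl
  have j1 : j4 (Multiplicative.ofAdd 1) = ⟨true, -1, 1⟩ := rfl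
  have j2' : j4 (Multiplicative.ofAdd 2) = ⟨false, -1, -1⟩ := rfl
  have j3 : j4 (Multiplicative.ofAdd 3) = ⟨true, 1, -1⟩ := rfl
  have m0 : (j4 (Multiplicative.ofAdd 0)).mat = !![1, 0; 0, 1] := by rw [j0]; rfl
  have m1 : (j4 (Multiplicative.ofAdd 1)).mat = !![0, -1; 1, 0] := by rw [j1]; rfl
  have m2 : (j4 (Multiplicative.ofAdd 2)).mat = !![-1, 0; 0, -1] := by rw [j2']; rfl
  have m3 : (j4 (Multiplicative.ofAdd 3)).mat = !![0, 1; -1, 0] := by rw [j3]; rfl
  rw [hcard, hsumN fun g => (if (j4 g).s then (-1 : ℤ) else 1), hsumN fun g => (j4 g).mat,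
    m0, m1, m2, m3, j0, j1, j2', j3, ← Matrix.det_submatrix_equiv_self e, K1_det4]
  simp only [Matrix.submatrix_apply, hent, he0, he1, he2, he3]
  have hm : ∀ a b : ZMod 4, (Multiplicative.ofAdd a)⁻¹ * Multiplicative.ofAdd b =
      Multiplicative.ofAdd (b - a) := by
    intro a b
    rw [← ofAdd_neg, ← ofAdd_add]
    congr 1
    ring
  simp only [hm]
  have d01 : (1 : ZMod 4) - 0 = 1 := by decide
  have d02 : (2 : ZMod 4) - 0 = 2 := by decide
  have d03 : (3 : ZMod 4) - 0 = 3 := by decide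
  have d10 : (0 : ZMod 4) - 1 = 3 := by decide
  have d12 : (2 : ZMod 4) - 1 = 1 := by decide
  have d13 : (3 : ZMod 4) - 1 = 2 := by decide
  have d20 : (0 : ZMod 4) - 2 = 2 := by decide
  have d21 : (1 : ZMod 4) - 2 = 3 := by decide
  have d23 : (3 : ZMod 4) - 2 = 1 := by decide
  have d30 : (0 : ZMod 4) - 3 = 1 := by decide
  have d31 : (1 : ZMod 4) - 3 = 2 := by decide
  have d32 : (2 : ZMod 4) - 3 = 3 := by decide
  simp only [sub_self, d01, d02, d03, d10, d12, d13, d20, d21, d23, d30, d31, d32]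
  rw [Matrix.det_fin_two]
  simp only [Matrix.add_apply, Matrix.smul_apply, Matrix.of_apply, Matrix.cons_val', Matrix.cons_val_zero,
    Matrix.cons_val_one, smul_eq_mul, Bool.false_eq_true, if_false, if_true, Matrix.cons_val_fin_one]
  ring

end APd
end

section

/-!
# AP R3l: the periodised rows of the tromino are constant

PROOF. `rs (fun z => Lf (g • z)) x y = ∑ᶠ k : ℤ, Lf (g • (x + k, y))`. `x, y ∉ ℤ` (`h.int`). If `g` is not a swap
(`g.s = false`) then `g • (x + k, y) = (±(x+k), ±y)` (signs `g.a`, `g.b`); it is in `Ltr` iff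
(`0 < ±(x+k) < 2` and `0 < ±y < 1`) or (`0 < ±(x+k) < 1` and `0 < ±y < 2`). With `y' = ±y`: if `0 < y' < 1` there are
exactly two such `k`, if `1 < y' < 2` exactly one, otherwise none. (For `x ∉ ℤ` and integers `a < b` there are exactly
`b - a` integers `k` with `a < x + k < b`, and similarly for `-(x+k)`.) If `g` is a swap, then
`g • (x + k, y) = (±y, ±(x+k))` and the tromino is symmetric under the exchange of the coordinates, so the
same count holds with `y' = g.a • y`. The constant is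
`if 0 < y' ∧ y' < 1 then 2 else if 1 < y' ∧ y' < 2 then 1 else 0`.
-/

open Set Topology Finset

namespace APd

private lemma r3l_mem (p q : ℝ) : ((p, q) : ℝ × ℝ) ∈ Ltr ↔
    ((0 ≤ p ∧ p ≤ 2) ∧ (0 ≤ q ∧ q ≤ 1)) ∨ ((0 ≤ p ∧ p ≤ 1) ∧ (0 ≤ q ∧ q ≤ 2)) := by
  unfold Ltr
  rw [Set.mem_union, Set.mem_prod, Set.mem_prod, Set.mem_Icc, Set.mem_Icc, Set.mem_Icc, Set.mem_Icc]

private lemma r3l_symm (p q : ℝ) : Lf (p, q) = Lf (q, p) := by
  classical
  unfold Lf
  have h : ((p, q) : ℝ × ℝ) ∈ Ltr ↔ ((q, p) : ℝ × ℝ) ∈ Ltr := by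
    rw [r3l_mem, r3l_mem]
    tauto
  by_cases h1 : ((p, q) : ℝ × ℝ) ∈ Ltr
  · rw [if_pos h1, if_pos (h.1 h1)]
  · rw [if_neg h1, if_neg (fun h2 => h1 (h.2 h2))]

/-- the value of the constant -/
private noncomputable def r3l_c (y : ℝ) : ℤ :=
  (if 0 ≤ y ∧ y ≤ 2 then 1 else 0) + (if 0 ≤ y ∧ y ≤ 1 then 1 else 0)

private lemma r3l_key (x y : ℝ) (hx : ∀ k : ℤ, x ≠ k) : ∑ᶠ k : ℤ, Lf (x + k, y) = r3l_c y := by
  classical
  set n : ℤ := ⌊x⌋ with hn
  have h1 : (n : ℝ) < x := lt_of_le_of_ne (Int.floor_le x) (fun h => hx n h.symm)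
  have h2 : x < n + 1 := Int.lt_floor_add_one x
  have hsupp : (Function.support fun k : ℤ => Lf (x + k, y)) ⊆ (({-n, 1 - n} : Finset ℤ) : Set ℤ) := by
    intro k hk
    rw [Function.mem_support] at hk
    have hk1 : ((x + k, y) : ℝ × ℝ) ∈ Ltr := by
      by_contra hk2
      exact hk (if_neg hk2)
    rw [r3l_mem] at hk1
    have h3 : 0 ≤ x + k := by
      rcases hk1 with h | h
      · exact h.1.1
      · exact h.1.1
    have h4 : x + k ≤ 2 := by
      rcases hk1 with h | h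
      · exact h.1.2
      · linarith [h.1.2]
    have h5 : (0 : ℝ) < ((n + 1 + k : ℤ) : ℝ) := by
      push_cast
      linarith
    have h6 : ((n + k : ℤ) : ℝ) < ((2 : ℤ) : ℝ) := by
      push_cast
      linarith
    have h7 : 0 < n + 1 + k := by exact_mod_cast h5
    have h8 : n + k < 2 := by exact_mod_cast h6
    rw [Finset.mem_coe, Finset.mem_insert, Finset.mem_singleton]
    omega
  rw [finsum_eq_sum_of_support_subset _ hsupp, Finset.sum_pair (by omega)]
  unfold r3l_c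
  have e1 : Lf (x + ((-n : ℤ) : ℝ), y) = if 0 ≤ y ∧ y ≤ 2 then 1 else 0 := by
    unfold Lf
    have h3 : ((x + ((-n : ℤ) : ℝ), y) : ℝ × ℝ) ∈ Ltr ↔ (0 ≤ y ∧ y ≤ 2) := by
      rw [r3l_mem]
      push_cast
      constructor
      · rintro (h | h)
        · exact ⟨h.2.1, by linarith [h.2.2]⟩
        · exact h.2
      · intro h
        right
        exact ⟨⟨by linarith, by linarith⟩, h⟩
    by_cases h4 : ((x + ((-n : ℤ) : ℝ), y) : ℝ × ℝ) ∈ Ltr
    · rw [if_pos h4, if_pos (h3.1 h4)]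
    · rw [if_neg h4, if_neg (fun h5 => h4 (h3.2 h5))]
  have e2 : Lf (x + ((1 - n : ℤ) : ℝ), y) = if 0 ≤ y ∧ y ≤ 1 then 1 else 0 := by
    unfold Lf
    have h3 : ((x + ((1 - n : ℤ) : ℝ), y) : ℝ × ℝ) ∈ Ltr ↔ (0 ≤ y ∧ y ≤ 1) := by
      rw [r3l_mem]
      push_cast
      constructor
      · rintro (h | h)
        · exact h.2
        · exfalso
          linarith [h.1.2]
      · intro h
        left
        exact ⟨⟨by linarith, by linarith⟩, h⟩
    by_cases h4 : ((x + ((1 - n : ℤ) : ℝ), y) : ℝ × ℝ) ∈ Ltr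
    · rw [if_pos h4, if_pos (h3.1 h4)]
    · rw [if_neg h4, if_neg (fun h5 => h4 (h3.2 h5))]
  rw [e1, e2]

private lemma r3l_key' (x y : ℝ) (hx : ∀ k : ℤ, x ≠ k) (e : ℤˣ) :
    ∑ᶠ k : ℤ, Lf (e • (x + (k : ℝ)), y) = r3l_c y := by
  rcases Int.units_eq_one_or e with rfl | rfl
  · simp only [one_smul]
    exact r3l_key x y hx
  · have h1 : ∀ k : ℤ, Lf (((-1 : ℤˣ) • (x + (k : ℝ))), y) = Lf (-x + ((-k : ℤ) : ℝ), y) := by
      intro k
      congr 2
      rw [Units.neg_smul, one_smul]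
      push_cast
      ring
    rw [finsum_congr h1]
    have h2 : ∑ᶠ k : ℤ, Lf (-x + ((-k : ℤ) : ℝ), y) = ∑ᶠ k : ℤ, Lf (-x + (k : ℝ), y) :=
      finsum_comp_equiv (Equiv.neg ℤ) (f := fun k : ℤ => Lf (-x + (k : ℝ), y))
    rw [h2]
    refine r3l_key (-x) y ?_
    intro k hk
    refine hx (-k) ?_
    push_cast
    linarith

theorem Lf_row {Γ : AddSubgroup ℝ} {Ω : Set ℝ} (h : Adm Γ Ω) (g : SP) {y : ℝ} (hy : y ∈ Ω) :
    ∃ c : ℤ, ∀ x ∈ Ω, rs (fun z => Lf (g • z)) x y = c := by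
  obtain ⟨s, a, b⟩ := g
  cases s with
  | false =>
    refine ⟨r3l_c (b • y), fun x hx => ?_⟩
    unfold rs
    exact r3l_key' x (b • y) (h.int x hx) a
  | true =>
    refine ⟨r3l_c (a • y), fun x hx => ?_⟩
    unfold rs
    rw [← r3l_key' x (a • y) (h.int x hx) b]
    refine finsum_congr fun k => ?_
    rw [r3l_symm]
    rfl

end APd
end

section

/-!
# AP R5a: a swap gives divisibility by `p²`

PROOF. Write `D := (MM j r t).det`.
Ring homomorphisms: `e₁ := aug (ℤ[Γ]) Γ : ℤ[Γ][Γ] → ℤ[Γ]` (put `V = 1`), and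
`e₂ : ℤ[Γ][Γ] → ℤ[Γ]`, apply `aug ℤ Γ : ℤ[Γ] → ℤ` to the coefficients (`AddMonoidAlgebra.mapRingHom` /
`mapRangeRingHom`: `(e₂ D).coeff v = aug ℤ Γ (D.coeff v)`). On the matrix:
`(MM j r t).map e₁ δ ε = ∑ i, if δ * r i = ε then single (j δ • t i).1 1 else 0 =: M₁ δ ε`,
`(MM j r t).map e₂ δ ε = ∑ i, if δ * r i = ε then single (j δ • t i).2 1 else 0 =: M₂ δ ε`.
Let `a := (j k₀).a : ℤˣ`; since `j k₀` is a swap, `(j k₀ • w).1 = a • w.2` for `w : Γ × Γ`. So
`M₁ (k₀ δ) (k₀ ε) = φ (M₂ δ ε)`, where `φ : ℤ[Γ] → ℤ[Γ]` is the ring homomorphism `single v x ↦ single (a • v) x`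
(`AddMonoidAlgebra.mapDomainRingHom`); note `k₀ δ r_i = k₀ ε ↔ δ r_i = ε`. Hence
`det M₁ = φ (det M₂)` (`Matrix.det_submatrix_equiv_self` with the permutation `δ ↦ k₀ δ`, `RingHom.map_det`).
By `hq3` and `hq1` all coefficients of `e₂ D = det M₂` are divisible by `p`: `det M₂ = (p : ℤ[Γ]) * d'`.
`e₁ D = ∑_v D.coeff v ∈ q`. So `(p : ℤ[Γ]) * φ d' = φ (det M₂) = det M₁ = e₁ D ∈ q`; `q` is prime and
`p ∉ q`, so `φ d' ∈ q` and `p ∣ aug (φ d') = aug d'` (`aug` is invariant under `φ`). So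
`aug (det M₂) = p * aug d'` is divisible by `p ^ 2`. Finally `aug` applied to the entries of `M₂` gives `M0 r`, so
`aug (det M₂) = (M0 r).det`.
-/

open Set Topology Finset

namespace APd

private lemma r5a_div {Γ : AddSubgroup ℝ} {p : ℤ} (x : AddMonoidAlgebra ℤ Γ)
    (h : ∀ v, p ∣ x.coeff v) : ∃ y : AddMonoidAlgebra ℤ Γ, x = p • y := by
  classical
  refine ⟨⟨x.coeff.mapRange (fun a => a / p) (by simp)⟩, ?_⟩
  ext v
  rw [AddMonoidAlgebra.coeff_smul, Finsupp.smul_apply]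
  show x.coeff v = p • (x.coeff v / p)
  rw [smul_eq_mul, Int.mul_ediv_cancel' (h v)]

private lemma r5a_aug_zsmul {Γ : AddSubgroup ℝ} (p : ℤ) (x : AddMonoidAlgebra ℤ Γ) :
    aug ℤ Γ (p • x) = p * aug ℤ Γ x := by
  rw [map_zsmul, smul_eq_mul]

/-- The ring homomorphism induced by the multiplication by a unit. -/
private noncomputable def r5a_phi (Γ : AddSubgroup ℝ) (a : ℤˣ) : AddMonoidAlgebra ℤ Γ →+* AddMonoidAlgebra ℤ Γ :=
  AddMonoidAlgebra.mapDomainRingHom ℤ (DistribSMul.toAddMonoidHom Γ a)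

private lemma r5a_phi_single (Γ : AddSubgroup ℝ) (a : ℤˣ) (v : Γ) (x : ℤ) :
    r5a_phi Γ a (AddMonoidAlgebra.single v x) = AddMonoidAlgebra.single (a • v) x := by
  unfold r5a_phi
  rw [AddMonoidAlgebra.mapDomainRingHom_apply, AddMonoidAlgebra.mapDomain_single]
  rfl

private lemma r5a_aug_phi (Γ : AddSubgroup ℝ) (a : ℤˣ) (x : AddMonoidAlgebra ℤ Γ) :
    aug ℤ Γ (r5a_phi Γ a x) = aug ℤ Γ x := by
  have h : (aug ℤ Γ).comp (r5a_phi Γ a) = aug ℤ Γ := by
    refine AddMonoidAlgebra.ringHom_ext (fun r => ?_) fun m => ?_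
    · rw [RingHom.comp_apply, r5a_phi_single, aug_single, aug_single]
    · rw [RingHom.comp_apply, r5a_phi_single, aug_single, aug_single]
  exact RingHom.congr_fun h x

theorem R5a {ι K : Type} [Fintype ι] [Fintype K] [Group K] [DecidableEq K] {Γ : AddSubgroup ℝ}
    {t : ι → Γ × Γ} (j : K →* SP) (r : ι → K) {p : ℕ} (q : Ideal (AddMonoidAlgebra ℤ Γ))
    (hq : q.IsPrime) (hq1 : ∀ a ∈ q, (p : ℤ) ∣ aug ℤ Γ a) (hq2 : (p : AddMonoidAlgebra ℤ Γ) ∉ q)
    (hq3 : ∀ v, (MM j r t).det.coeff v ∈ q) (k₀ : K) (hk : (j k₀).s = true) :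
    (p : ℤ) ^ 2 ∣ (M0 r).det := by
  classical
  set D := (MM j r t).det with hD
  set e₁ : AddMonoidAlgebra (AddMonoidAlgebra ℤ Γ) Γ →+* AddMonoidAlgebra ℤ Γ := aug (AddMonoidAlgebra ℤ Γ) Γ with he₁
  set e₂ : AddMonoidAlgebra (AddMonoidAlgebra ℤ Γ) Γ →+* AddMonoidAlgebra ℤ Γ :=
    AddMonoidAlgebra.mapRingHom Γ (aug ℤ Γ) with he₂
  set M₁ : Matrix K K (AddMonoidAlgebra ℤ Γ) := (MM j r t).map e₁ with hM₁
  set M₂ : Matrix K K (AddMonoidAlgebra ℤ Γ) := (MM j r t).map e₂ with hM₂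
  have hM₁a : ∀ δ ε, M₁ δ ε = ∑ i, if δ * r i = ε then AddMonoidAlgebra.single (j δ • t i).1 (1 : ℤ) else 0 := by
    intro δ ε
    rw [hM₁, Matrix.map_apply]
    unfold MM
    rw [Matrix.of_apply, map_sum]
    refine Finset.sum_congr rfl fun i _ => ?_
    split_ifs
    · rw [he₁, aug_single]
    · exact map_zero _
  have hM₂a : ∀ δ ε, M₂ δ ε = ∑ i, if δ * r i = ε then AddMonoidAlgebra.single (j δ • t i).2 (1 : ℤ) else 0 := by
    intro δ ε
    rw [hM₂, Matrix.map_apply]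
    unfold MM
    rw [Matrix.of_apply, map_sum]
    refine Finset.sum_congr rfl fun i _ => ?_
    split_ifs
    · rw [he₂, AddMonoidAlgebra.mapRingHom_single, aug_single]
    · exact map_zero _
  have hsw : ∀ w : Γ × Γ, (j k₀ • w).1 = (j k₀).a • w.2 := by
    intro w
    rw [SP.smul_def, hk]
    rfl
  have hperm : M₁.submatrix (Equiv.mulLeft k₀) (Equiv.mulLeft k₀) = M₂.map (r5a_phi Γ (j k₀).a) := by
    ext1 δ ε
    rw [Matrix.submatrix_apply, Matrix.map_apply, hM₁a, hM₂a, map_sum]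
    refine Finset.sum_congr rfl fun i _ => ?_
    have h1 : (Equiv.mulLeft k₀) δ * r i = (Equiv.mulLeft k₀) ε ↔ δ * r i = ε := by
      rw [Equiv.coe_mulLeft, mul_assoc, mul_right_inj]
    by_cases h2 : δ * r i = ε
    · rw [if_pos (h1.mpr h2), if_pos h2, r5a_phi_single]
      congr 1
      rw [Equiv.coe_mulLeft, map_mul, mul_smul, hsw]
    · rw [if_neg (fun h => h2 (h1.mp h)), if_neg h2, map_zero]
  have hdet : M₁.det = r5a_phi Γ (j k₀).a M₂.det := by
    rw [← Matrix.det_submatrix_equiv_self (Equiv.mulLeft k₀) M₁, hperm]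
    exact ((r5a_phi Γ (j k₀).a).map_det M₂).symm
  have he₁D : M₁.det = e₁ D := (e₁.map_det _).symm
  have he₂D : M₂.det = e₂ D := (e₂.map_det _).symm
  have hdiv : ∀ v, (p : ℤ) ∣ M₂.det.coeff v := by
    intro v
    rw [he₂D, he₂, AddMonoidAlgebra.coeff_mapRingHom]
    exact hq1 _ (hq3 v)
  obtain ⟨d, hd⟩ := r5a_div (p := (p : ℤ)) M₂.det hdiv
  have hmem : e₁ D ∈ q := by
    rw [he₁, aug_apply]
    exact q.sum_mem fun v _ => hq3 v
  have h3 : r5a_phi Γ (j k₀).a M₂.det ∈ q := by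
    rw [← hdet, he₁D]; exact hmem
  rw [hd, map_zsmul, zsmul_eq_mul, Int.cast_natCast] at h3
  have h4 := (hq.mem_or_mem h3).resolve_left hq2
  have h5 := hq1 _ h4
  rw [r5a_aug_phi] at h5
  have h6 : aug ℤ Γ M₂.det = (M0 r).det := by
    rw [(aug ℤ Γ).map_det]
    congr 1
    ext δ ε
    rw [RingHom.mapMatrix_apply, Matrix.map_apply, hM₂a, map_sum]
    unfold M0
    rw [Matrix.of_apply]
    refine Finset.sum_congr rfl fun i _ => ?_
    split_ifs
    · rw [aug_single]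
    · exact map_zero _
  rw [← h6, hd, r5a_aug_zsmul, sq]
  exact mul_dvd_mul_left _ h5

end APd
end

section

/-!
# AP S1: the good points are dense (Baire)

PROOF. `Γ × Γ` and `SP` are countable. For `g ∈ SP`, `v ∈ Γ × Γ` the map `z ↦ g • z + co Γ v` is a
homeomorphism of the plane (continuous, with continuous inverse `z ↦ g⁻¹ • (z - co Γ v)`; on
`ℝ × ℝ` the map `z ↦ g • z` is `(x,y) ↦ (±x,±y)` or `(±y,±x)`: unfold `SP.smul_def`,
`Units.smul_def`, cases on `g.s`).
The frontier of the closed set `P` is closed with empty interior (`IsClosed.frontier_eq`? in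
general `interior (frontier P) = ∅` for closed `P`: `interior_frontier`), so its complement
is open and dense, hence so is the preimage of the complement under the homeomorphism
(`Dense.preimage` for open maps, or `Homeomorph`). `Egood Γ P` is the countable intersection over
`(g,v)` of these open dense sets; `dense_iInter_of_isOpen` (Baire, `ℝ × ℝ` is complete).
-/

open Set Topology

namespace APd

lemma continuous_smulSP (g : SP) : Continuous fun z : ℝ × ℝ => g • z := by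
  obtain ⟨s, a, b⟩ := g
  cases s
  · change Continuous fun z : ℝ × ℝ => (a • z.1, b • z.2)
    simp only [Units.smul_def]
    fun_prop
  · change Continuous fun z : ℝ × ℝ => (a • z.2, b • z.1)
    simp only [Units.smul_def]
    fun_prop

theorem S1 (Γ : AddSubgroup ℝ) (hΓ : Countable Γ) (P : Set (ℝ × ℝ)) (hP : IsClosed P) :
    Dense (Egood Γ P) := by
  haveI : Countable SP := Finite.to_countable
  have hO : IsOpen (frontier P)ᶜ := isClosed_frontier.isOpen_compl
  have hD : Dense (frontier P)ᶜ := by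
    rw [← interior_eq_empty_iff_dense_compl]
    exact interior_frontier hP
  have hE : Egood Γ P =
      ⋂ q : SP × (Γ × Γ), (fun z : ℝ × ℝ => q.1 • z + co Γ q.2) ⁻¹' (frontier P)ᶜ := by
    ext z
    simp only [Egood, Set.mem_setOf_eq, Set.mem_iInter, Set.mem_preimage, Set.mem_compl_iff,
      Prod.forall]
  rw [hE]
  refine dense_iInter_of_isOpen
    (fun q => hO.preimage ((continuous_smulSP q.1).add continuous_const)) (fun q => ?_)
  let e : (ℝ × ℝ) ≃ₜ (ℝ × ℝ) :=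
    { toFun := fun z => q.1 • z + co Γ q.2
      invFun := fun z => q.1⁻¹ • (z - co Γ q.2)
      left_inv := fun z => by
        simp only [add_sub_cancel_right, inv_smul_smul]
      right_inv := fun z => by
        simp only [smul_inv_smul, sub_add_cancel]
      continuous_toFun := (continuous_smulSP q.1).add continuous_const
      continuous_invFun := (continuous_smulSP q.1⁻¹).comp (continuous_id.sub continuous_const) }
  exact hD.preimage e.isOpenMap

end APd
end

section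

/-!
# AP S2: the equation at good points

PROOF. Let `z ∈ Egood Γ P`. For each `i` the point `w_i := (ρ i)⁻¹ • (z - co Γ (t i))` equals
`(ρ i)⁻¹ • z + co Γ (-((ρ i)⁻¹ • t i))` (`smul_sub`, `co_smul`, `map_neg`), so it is not in
`frontier P`. `P` is closed (`h.compact.isClosed`), so `w_i ∈ P ↔ w_i ∈ interior P`
(`frontier P = P \ interior P`, `IsClosed.frontier_eq`).
`z = mv (ρ i) (t i) w_i`, so `w_i ∈ P` iff `z ∈ mv (ρ i) (t i) '' P` (injectivity of `mv`), and
`w_i ∈ interior P` implies `z ∈ interior (mv (ρ i) (t i) '' P)`, because `mv (ρ i) (t i)` is a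
homeomorphism (the image of the open set `interior P` is open: it is the preimage of `interior P`
under the continuous map `z ↦ (ρ i)⁻¹ • (z - co Γ (t i))`).
* If `z ∈ Ltr`: by `h.cover` some `i` has `w_i ∈ P`; if `w_i, w_j ∈ P` with `i ≠ j` then `z` is in
  both interiors, against `h.disj`. So exactly one term of the sum is 1: the sum is `1 = Lf z`.
* If `z ∉ Ltr`: no `w_i ∈ P`, the sum is `0 = Lf z`.
-/

open Set Topology Finset

namespace APd

private lemma ap_s2_cont (g : SP) : Continuous fun z : ℝ × ℝ => g • z := by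
  obtain ⟨s, a, b⟩ := g
  cases s
  · change Continuous fun z : ℝ × ℝ => (a • z.1, b • z.2)
    simp only [Units.smul_def]
    fun_prop
  · change Continuous fun z : ℝ × ℝ => (a • z.2, b • z.1)
    simp only [Units.smul_def]
    fun_prop

private lemma ap_s2_mv (g : SP) (v z : ℝ × ℝ) : mv g v (g⁻¹ • (z - v)) = z := by
  simp only [mv, smul_inv_smul, sub_add_cancel]

private lemma ap_s2_int (g : SP) (v : ℝ × ℝ) (P : Set (ℝ × ℝ)) (z : ℝ × ℝ)
    (hz : g⁻¹ • (z - v) ∈ interior P) : z ∈ interior (mv g v '' P) := by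
  rw [mem_interior]
  refine ⟨(fun z : ℝ × ℝ => g⁻¹ • (z - v)) ⁻¹' interior P, ?_, ?_, hz⟩
  · intro w hw
    exact ⟨g⁻¹ • (w - v), interior_subset hw, ap_s2_mv g v w⟩
  · exact isOpen_interior.preimage ((ap_s2_cont g⁻¹).comp (continuous_id.sub continuous_const))

theorem S2 {ι : Type} [Fintype ι] {Γ : AddSubgroup ℝ} {P : Set (ℝ × ℝ)} {ρ : ι → SP}
    {t : ι → Γ × Γ} (h : Diss ι P ρ fun i => co Γ (t i)) :
    ∀ z ∈ Egood Γ P, ∑ i, ind P ((ρ i)⁻¹ • (z - co Γ (t i))) = Lf z := by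
  classical
  intro z hz
  have hcl : IsClosed P := h.compact.isClosed
  have hfr : ∀ i, (ρ i)⁻¹ • (z - co Γ (t i)) ∉ frontier P := by
    intro i
    have h1 := hz (ρ i)⁻¹ (-((ρ i)⁻¹ • t i))
    rwa [map_neg, co_smul, ← sub_eq_add_neg, ← smul_sub] at h1
  have hint : ∀ i, (ρ i)⁻¹ • (z - co Γ (t i)) ∈ P →
      z ∈ interior (mv (ρ i) (co Γ (t i)) '' P) := by
    intro i hi
    refine ap_s2_int _ _ _ _ ?_
    by_contra h1
    exact hfr i (by rw [hcl.frontier_eq]; exact ⟨hi, h1⟩)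
  by_cases hL : z ∈ Ltr
  · have h2 := hL
    rw [← h.cover, Set.mem_iUnion] at h2
    obtain ⟨i, w, hw, hwz⟩ := h2
    have hwi : (ρ i)⁻¹ • (z - co Γ (t i)) = w := by
      rw [← hwz]
      simp only [mv, add_sub_cancel_right, inv_smul_smul]
    rw [Finset.sum_eq_single i]
    · simp only [ind, Lf, if_pos hL, hwi, if_pos hw]
    · intro j _ hj
      simp only [ind]
      rw [if_neg]
      intro hjP
      exact Set.disjoint_left.1 (h.disj j i hj) (hint j hjP) (hint i (by rw [hwi]; exact hw))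
    · intro hi
      exact absurd (Finset.mem_univ i) hi
  · have h3 : Lf z = 0 := by simp only [Lf, if_neg hL]
    rw [h3]
    refine Finset.sum_eq_zero fun i _ => ?_
    simp only [ind]
    rw [if_neg]
    intro hi
    apply hL
    rw [← h.cover, Set.mem_iUnion]
    exact ⟨i, _, hi, ap_s2_mv _ _ _⟩

end APd
end

section

/-!
# AP S4: the group determinant of `SP` (dihedral group of order 8)

PROOF. For a function `χ : SP → ℤ` one has `∑_ε M0 r δ ε * χ ε = ∑_i χ (δ * r i)`.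
The functions `χ` we use: `χ₀ = 1`, `χ₁ g = g.a * g.b`, `χ₂ g = if g.s then -1 else 1`,
`χ₃ = χ₁ χ₂` (homomorphisms to `±1`: check on the multiplication), and the matrix entries
`m_{cd} g = g.mat c d`, with `(δ * g).mat = δ.mat * g.mat`. So with `N := ∑_i (r i).mat`,
`n_k := ∑_i χ_k (r i)`:
`∑_ε M0 r δ ε * χ_k ε = χ_k δ * n_k`, `∑_ε M0 r δ ε * m_{cd} ε = ∑_e m_{ce} δ * N e d`.
Let `B` be the matrix with rows indexed by `SP` and columns by `Fin 4 ⊕ (Fin 2 × Fin 2)`,
`B δ (inl k) = χ_k δ`, `B δ (inr (c,d)) = m_{cd} δ`. Then `M0 r * B = B * T`, where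
`T = Matrix.fromBlocks (diagonal n) 0 0 (T')`, `T' (c,e) (c',d) = if c = c' then N e d else 0`
(a block diagonal matrix, `Matrix.blockDiagonal` up to the order of the indices, of determinant
`N.det ^ 2`). Moreover `Bᵀ * B = diagonal (8,8,8,8,4,4,4,4)` (decide / finite computation), so
with an equivalence `e : SP ≃ Fin 4 ⊕ (Fin 2 × Fin 2)` the square matrix `B.submatrix id e` has
nonzero determinant, and `det (M0 r) = det T = n_0 n_1 n_2 n_3 (det N)^2` (cancel `det B` in `ℤ`).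
Any other proof is fine: for instance reindex to `Fin 8`, and write explicitly the product with `B`.
-/

open Finset

namespace APd

theorem mat_mul (g h : SP) : (g * h).mat = g.mat * h.mat := by
  obtain ⟨gs, ga, gb⟩ := g
  obtain ⟨hs, ha, hb⟩ := h
  ext i j
  cases gs <;> cases hs <;> fin_cases i <;> fin_cases j <;>
    simp [SP.mat, SP.mul_def, Matrix.mul_apply, Fin.sum_univ_two]

/-- The four characters of `SP` with values `±1`. -/
private def chi (k : Fin 4) (g : SP) : ℤ :=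
  match k with
  | 0 => 1
  | 1 => (g.a : ℤ) * g.b
  | 2 => if g.s then (-1 : ℤ) else 1
  | 3 => (g.a : ℤ) * g.b * if g.s then (-1 : ℤ) else 1

private lemma chi_mul (k : Fin 4) (g h : SP) : chi k (g * h) = chi k g * chi k h := by
  obtain ⟨gs, ga, gb⟩ := g
  obtain ⟨hs, ha, hb⟩ := h
  fin_cases k <;> cases gs <;> cases hs <;> simp [chi, SP.mul_def] <;> ring

/-- The matrix of the characters and of the matrix coefficients. -/
private def BB : Matrix SP (Fin 4 ⊕ (Fin 2 × Fin 2)) ℤ :=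
  Matrix.of fun δ c => match c with
    | .inl k => chi k δ
    | .inr x => δ.mat x.1 x.2

private def DD : Fin 4 ⊕ (Fin 2 × Fin 2) → ℤ
  | .inl _ => 8
  | .inr _ => 4

private lemma BB_orth : BB.transpose * BB = Matrix.diagonal DD := by
  decide +kernel

private lemma M0_mul {ι : Type} [Fintype ι] (r : ι → SP) (δ : SP)
    (c : Fin 4 ⊕ (Fin 2 × Fin 2)) : (M0 r * BB) δ c = ∑ i, BB (δ * r i) c := by
  rw [Matrix.mul_apply]
  simp only [M0, Matrix.of_apply, Finset.sum_mul, ite_mul, one_mul, zero_mul]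
  rw [Finset.sum_comm]
  refine Finset.sum_congr rfl fun i _ => ?_
  rw [Finset.sum_ite_eq]
  simp

open scoped Kronecker in
private def TT {ι : Type} [Fintype ι] (r : ι → SP) :
    Matrix (Fin 4 ⊕ (Fin 2 × Fin 2)) (Fin 4 ⊕ (Fin 2 × Fin 2)) ℤ :=
  Matrix.fromBlocks (Matrix.diagonal fun k => ∑ i, chi k (r i)) 0 0
    ((1 : Matrix (Fin 2) (Fin 2) ℤ) ⊗ₖ ∑ i, (r i).mat)

private lemma M0_BB {ι : Type} [Fintype ι] (r : ι → SP) : M0 r * BB = BB * TT r := by
  ext δ c
  rw [M0_mul, Matrix.mul_apply, Fintype.sum_sum_type]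
  rcases c with k | ⟨c, d⟩
  · simp only [TT, Matrix.fromBlocks_apply₁₁, Matrix.fromBlocks_apply₂₁, Matrix.zero_apply,
      mul_zero, Finset.sum_const_zero, add_zero, Matrix.diagonal_apply, mul_ite]
    rw [Finset.sum_ite_eq']
    simp only [Finset.mem_univ, if_true, BB, Matrix.of_apply, Finset.mul_sum]
    exact Finset.sum_congr rfl fun i _ => chi_mul k δ (r i)
  · simp only [TT, Matrix.fromBlocks_apply₁₂, Matrix.fromBlocks_apply₂₂, Matrix.zero_apply,
      mul_zero, Finset.sum_const_zero, zero_add, Matrix.kroneckerMap_apply]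
    rw [Fintype.sum_prod_type]
    simp only [BB, Matrix.of_apply, mat_mul, Matrix.mul_apply, Matrix.one_apply, ite_mul, one_mul,
      zero_mul, mul_ite, mul_zero, Matrix.sum_apply]
    rw [Finset.sum_comm]
    simp only [Finset.mul_sum]
    rw [Finset.sum_comm]
    simp [Fin.sum_univ_two, Finset.sum_add_distrib]

private lemma det_TT {ι : Type} [Fintype ι] (r : ι → SP) :
    (TT r).det = (∏ k, ∑ i, chi k (r i)) * (∑ i, (r i).mat).det ^ 2 := by
  unfold TT
  rw [Matrix.det_fromBlocks_zero₂₁, Matrix.det_diagonal, Matrix.det_kronecker]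
  simp

theorem S4 {ι : Type} [Fintype ι] (r : ι → SP) :
    (M0 r).det = (Fintype.card ι : ℤ) * (∑ i, ((r i).a : ℤ) * (r i).b) *
      (∑ i, if (r i).s then (-1 : ℤ) else 1) *
      (∑ i, ((r i).a : ℤ) * (r i).b * if (r i).s then (-1 : ℤ) else 1) *
      (∑ i, (r i).mat).det ^ 2 := by
  have hcard : Fintype.card SP = Fintype.card (Fin 4 ⊕ (Fin 2 × Fin 2)) := by decide
  let e : SP ≃ Fin 4 ⊕ (Fin 2 × Fin 2) := Fintype.equivOfCardEq hcard
  have h1 : M0 r * BB.submatrix id e = BB.submatrix id e * (TT r).submatrix e e := by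
    rw [← Matrix.submatrix_mul BB (TT r) id e e e.bijective, ← M0_BB,
      Matrix.submatrix_mul (M0 r) BB id id e Function.bijective_id, Matrix.submatrix_id_id]
  have h2 : (BB.submatrix id e).det ≠ 0 := by
    intro h0
    have h3 : ((BB.submatrix id e).transpose * BB.submatrix id e).det = 0 := by
      rw [Matrix.det_mul, h0, mul_zero]
    rw [Matrix.transpose_submatrix, ← Matrix.submatrix_mul _ _ e id e Function.bijective_id,
      BB_orth, Matrix.det_submatrix_equiv_self, Matrix.det_diagonal] at h3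
    revert h3
    decide
  have h3 := congrArg Matrix.det h1
  rw [Matrix.det_mul, Matrix.det_mul, Matrix.det_submatrix_equiv_self, mul_comm] at h3
  rw [mul_left_cancel₀ h2 h3, det_TT, Fin.prod_univ_four]
  simp [chi]

end APd
end

section

/-!
# AP S5: unrolling

If `D ≠ 0` and `D * F = h` on `E` with `F` of bounded support and `h` cell-constant, then `F` is
cell-constant.

PROOF. Let `S` be the support of `D.coeff` (a nonempty finite set of `Γ × Γ`). Choose a real `κ` such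
that `θ(x,y) := x + κ y` is injective on `co Γ '' S` (for `v ≠ v'` in `S` with different second
coordinates exactly one `κ` is bad; if the second coordinates are equal the first ones differ and no
`κ` is bad; finitely many bad `κ`, `ℝ` is infinite). Let `v₀ ∈ S` maximise `θ(co v)`; there is `η > 0` with
`θ(co v₀) - θ(co v) ≥ η` for all `v ∈ S`, `v ≠ v₀`. Let `d := D.coeff v₀ ≠ 0`. For `z ∈ E`,
evaluating the equation at `z + co v₀ ∈ E` (`act_apply`):
(*) `d * F z = h (z + co v₀) - ∑_{v ∈ S \ {v₀}} D.coeff v * F (z + co (v₀ - v))`.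
Let `R ≥ 0` bound the support of `F` and `R' := R + |κ| R`, so `F z ≠ 0` implies
`-R' ≤ θ z ≤ R'`.
Claim (n): there is a finite `C_n` such that for all `z, z' ∈ E` with `SameCell C_n z z'`,
`θ z > R' - n η`, `θ z' > R' - n η` we have `F z = F z'`.
(0): both are `0`. Step: let `C_{n+1}` be the union of `{c - x, c - y : c ∈ C, (x,y) = co v₀}` and
of all `{c - x, c - y : c ∈ C_n, (x,y) = co (v₀ - v)}`, `v ∈ S \ {v₀}`. If `SameCell C_{n+1} z z'`
then `z + co v₀`, `z' + co v₀` are in the same cell of `C` and `z + co (v₀ - v)`,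
`z' + co (v₀ - v)` are in the same cell of `C_n`, with `θ > R' - (n+1) η + η`. All these points
are in `E`. By (*) `d * F z = d * F z'`, so `F z = F z'`.
Finally choose `n` with `R' - n η < -R' ` and `C' := C_n ∪ {R, -R}`: let `z, z' ∈ E`,
`SameCell C' z z'`. If `|z.1| ≤ R` and `|z.2| ≤ R` then the same holds for `z'` (`SameCell` with
`c = R, -R`), so `θ z, θ z' ≥ -R' > R' - n η` and `F z = F z'`. Otherwise the same fails for
`z'` (symmetry of `SameCell`) and `F z = 0 = F z'`.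
-/

open Set Topology Finset

namespace APd

private noncomputable def s5sh (C : Finset ℝ) (w : ℝ × ℝ) : Finset ℝ :=
  C.image (fun c => c - w.1) ∪ C.image (fun c => c - w.2)

private lemma s5sh_cell {C : Finset ℝ} {w z z' : ℝ × ℝ} (h : SameCell (s5sh C w) z z') :
    SameCell C (z + w) (z' + w) := by
  intro c hc
  have h1 := (h (c - w.1) (by
    unfold s5sh
    rw [Finset.mem_union]
    exact Or.inl (Finset.mem_image_of_mem _ hc))).1
  have h2 := (h (c - w.2) (by
    unfold s5sh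
    rw [Finset.mem_union]
    exact Or.inr (Finset.mem_image_of_mem _ hc))).2
  simp only [sub_lt_iff_lt_add, lt_sub_iff_add_lt] at h1 h2
  exact ⟨h1, h2⟩

private lemma s5_mono {C C' : Finset ℝ} {z z' : ℝ × ℝ} (h : C ⊆ C') (h' : SameCell C' z z') :
    SameCell C z z' := fun c hc => h' c (h hc)

private lemma s5_kappa {Γ : AddSubgroup ℝ} (S : Finset (Γ × Γ)) :
    ∃ κ : ℝ, ∀ v ∈ S, ∀ w ∈ S, ((v.1 : ℝ) + κ * v.2) = (w.1 : ℝ) + κ * w.2 → v = w := by
  obtain ⟨κ, hκ⟩ := Infinite.exists_notMem_finset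
    ((S ×ˢ S).image fun p : (Γ × Γ) × (Γ × Γ) =>
      ((p.1.1 : ℝ) - p.2.1) / ((p.2.2 : ℝ) - p.1.2))
  refine ⟨κ, ?_⟩
  intro v hv w hw h
  by_cases hy : (w.2 : ℝ) - v.2 = 0
  · have h2 : (v.2 : ℝ) = w.2 := by linarith
    rw [h2] at h
    have h1 : (v.1 : ℝ) = w.1 := by linarith
    exact Prod.ext (Subtype.ext h1) (Subtype.ext h2)
  · exfalso
    apply hκ
    rw [Finset.mem_image]
    refine ⟨(v, w), Finset.mem_product.2 ⟨hv, hw⟩, ?_⟩
    rw [div_eq_iff hy]
    linarith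

private lemma s5_eta {α : Type*} [DecidableEq α] (S : Finset α) (g : α → ℝ) (v₀ : α)
    (h : ∀ v ∈ S, v ≠ v₀ → g v < g v₀) : ∃ η : ℝ, 0 < η ∧ ∀ v ∈ S, v ≠ v₀ → η ≤ g v₀ - g v := by
  rcases (S.erase v₀).eq_empty_or_nonempty with h0 | h0
  · refine ⟨1, one_pos, ?_⟩
    intro v hv hne
    have : v ∈ S.erase v₀ := Finset.mem_erase.2 ⟨hne, hv⟩
    rw [h0] at this
    exact absurd this (Finset.notMem_empty _)
  · obtain ⟨w, hw, hmin⟩ := Finset.exists_min_image (S.erase v₀) (fun v => g v₀ - g v) h0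
    rw [Finset.mem_erase] at hw
    refine ⟨g v₀ - g w, by linarith [h w hw.2 hw.1], ?_⟩
    intro v hv hne
    exact hmin v (Finset.mem_erase.2 ⟨hne, hv⟩)

theorem S5 {Γ : AddSubgroup ℝ} (E : Set (ℝ × ℝ)) (hE : ∀ z ∈ E, ∀ v : Γ × Γ, z + co Γ v ∈ E)
    (D : AddMonoidAlgebra ℤ (Γ × Γ)) (hD : D ≠ 0) (F h : ℝ × ℝ → ℤ)
    (hF : ∃ R : ℝ, ∀ z, F z ≠ 0 → |z.1| ≤ R ∧ |z.2| ≤ R) (C : Finset ℝ) (hh : CellConst C E h)
    (heq : ∀ z ∈ E, act (co Γ) D F z = h z) : ∃ C', CellConst C' E F := by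
  classical
  obtain ⟨R1, hR1⟩ := hF
  set R : ℝ := max R1 0 with hR
  have hR0 : 0 ≤ R := le_max_right _ _
  have hF' : ∀ z, F z ≠ 0 → |z.1| ≤ R ∧ |z.2| ≤ R := fun z hz =>
    ⟨(hR1 z hz).1.trans (le_max_left _ _), (hR1 z hz).2.trans (le_max_left _ _)⟩
  set S := D.coeff.support with hS
  have hSne : S.Nonempty := by
    rw [hS, Finsupp.support_nonempty_iff]
    intro h0
    apply hD
    ext v
    rw [h0]
    rfl
  obtain ⟨κ, hκ⟩ := s5_kappa S
  obtain ⟨v₀, hv₀, hmax⟩ := Finset.exists_max_image S (fun v => (v.1 : ℝ) + κ * v.2) hSne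
  obtain ⟨η, hη, hηle⟩ := s5_eta S (fun v => (v.1 : ℝ) + κ * v.2) v₀ (by
    intro v hv hne
    refine lt_of_le_of_ne (hmax v hv) ?_
    intro he
    exact hne (hκ v hv v₀ hv₀ he))
  have hd : D.coeff v₀ ≠ 0 := Finsupp.mem_support_iff.1 hv₀
  -- the bound
  have hθ : ∀ z : ℝ × ℝ, |z.1| ≤ R → |z.2| ≤ R →
      -(R + |κ| * R) ≤ z.1 + κ * z.2 ∧ z.1 + κ * z.2 ≤ R + |κ| * R := by
    intro z h1 h2
    rw [← abs_le]
    calc |z.1 + κ * z.2| ≤ |z.1| + |κ * z.2| := abs_add_le _ _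
      _ = |z.1| + |κ| * |z.2| := by rw [abs_mul]
      _ ≤ R + |κ| * R := add_le_add h1 (mul_le_mul_of_nonneg_left h2 (abs_nonneg _))
  -- the equation
  have hstar : ∀ z ∈ E, D.coeff v₀ * F z = h (z + co Γ v₀) -
      ∑ v ∈ S.erase v₀, D.coeff v * F (z + co Γ (v₀ - v)) := by
    intro z hz
    have h1 := heq (z + co Γ v₀) (hE z hz v₀)
    rw [act_apply, Finsupp.sum, ← hS, ← Finset.add_sum_erase S _ hv₀, add_sub_cancel_right] at h1
    rw [← h1]
    simp only [smul_eq_mul]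
    have h2 : ∀ v ∈ S.erase v₀, D.coeff v * F (z + co Γ v₀ - co Γ v) =
        D.coeff v * F (z + co Γ (v₀ - v)) := by
      intro v _
      rw [map_sub, add_sub_assoc]
    rw [Finset.sum_congr rfl h2]
    ring
  have claim : ∀ n : ℕ, ∃ Cn : Finset ℝ, ∀ z ∈ E, ∀ z' ∈ E, SameCell Cn z z' →
      R + |κ| * R - n * η < z.1 + κ * z.2 → R + |κ| * R - n * η < z'.1 + κ * z'.2 →
      F z = F z' := by
    intro n
    induction n with
    | zero =>
      have h0 : ∀ z : ℝ × ℝ, R + |κ| * R - (0 : ℕ) * η < z.1 + κ * z.2 → F z = 0 := by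
        intro z hz
        by_contra hc
        obtain ⟨h1, h2⟩ := hF' z hc
        have h3 := (hθ z h1 h2).2
        rw [Nat.cast_zero, zero_mul, sub_zero] at hz
        linarith
      exact ⟨∅, fun z _ z' _ _ h1 h2 => by rw [h0 z h1, h0 z' h2]⟩
    | succ n ih =>
      obtain ⟨Cn, hCn⟩ := ih
      refine ⟨s5sh C (co Γ v₀) ∪ (S.erase v₀).biUnion fun v => s5sh Cn (co Γ (v₀ - v)), ?_⟩
      intro z hz z' hz' hc h1 h2
      have e1 : h (z + co Γ v₀) = h (z' + co Γ v₀) :=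
        hh _ (hE z hz v₀) _ (hE z' hz' v₀) (s5sh_cell (s5_mono Finset.subset_union_left hc))
      have e2 : ∀ v ∈ S.erase v₀, D.coeff v * F (z + co Γ (v₀ - v)) =
          D.coeff v * F (z' + co Γ (v₀ - v)) := by
        intro v hv
        have hv' := Finset.mem_erase.1 hv
        have h3 := hηle v hv'.2 hv'.1
        have h4 : SameCell Cn (z + co Γ (v₀ - v)) (z' + co Γ (v₀ - v)) := by
          apply s5sh_cell
          refine s5_mono ?_ hc
          exact (Finset.subset_biUnion_of_mem (fun v => s5sh Cn (co Γ (v₀ - v))) hv).trans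
            Finset.subset_union_right
        have h5 : ∀ y : ℝ × ℝ, R + |κ| * R - ((n + 1 : ℕ) : ℝ) * η < y.1 + κ * y.2 →
            R + |κ| * R - n * η < (y + co Γ (v₀ - v)).1 + κ * (y + co Γ (v₀ - v)).2 := by
          intro y hy
          rw [co_apply]
          simp only [Prod.fst_add, Prod.snd_add, Prod.fst_sub, Prod.snd_sub,
            AddSubgroup.coe_sub]
          push_cast at hy
          nlinarith
        rw [hCn _ (hE z hz _) _ (hE z' hz' _) h4 (h5 z h1) (h5 z' h2)]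
      have e3 : D.coeff v₀ * F z = D.coeff v₀ * F z' := by
        rw [hstar z hz, hstar z' hz', e1, Finset.sum_congr rfl e2]
      exact mul_left_cancel₀ hd e3
  obtain ⟨n, hn⟩ := exists_nat_gt (2 * (R + |κ| * R) / η)
  rw [div_lt_iff₀ hη] at hn
  obtain ⟨Cn, hCn⟩ := claim n
  refine ⟨Cn ∪ {R, -R}, ?_⟩
  intro z hz z' hz' hc
  have hbox : ∀ y y' : ℝ × ℝ, SameCell (Cn ∪ {R, -R}) y y' → |y.1| ≤ R → |y.2| ≤ R →
      |y'.1| ≤ R ∧ |y'.2| ≤ R := by
    intro y y' h h1 h2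
    have a1 := h R (by simp)
    have a2 := h (-R) (by simp)
    rw [abs_le] at h1 h2 ⊢
    rw [abs_le]
    refine ⟨⟨?_, ?_⟩, ⟨?_, ?_⟩⟩
    · by_contra hcon
      have := a2.1.2.2 (not_le.1 hcon)
      linarith [h1.1]
    · by_contra hcon
      have := a1.1.1.2 (not_le.1 hcon)
      linarith [h1.2]
    · by_contra hcon
      have := a2.2.2.2 (not_le.1 hcon)
      linarith [h2.1]
    · by_contra hcon
      have := a1.2.1.2 (not_le.1 hcon)
      linarith [h2.2]
  have hsymm : SameCell (Cn ∪ {R, -R}) z' z := fun c hc' =>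
    ⟨⟨(hc c hc').1.1.symm, (hc c hc').1.2.symm⟩, ⟨(hc c hc').2.1.symm, (hc c hc').2.2.symm⟩⟩
  by_cases hb : |z.1| ≤ R ∧ |z.2| ≤ R
  · obtain ⟨b1, b2⟩ := hb
    obtain ⟨b3, b4⟩ := hbox z z' hc b1 b2
    have c1 := (hθ z b1 b2).1
    have c2 := (hθ z' b3 b4).1
    exact hCn z hz z' hz' (s5_mono Finset.subset_union_left hc) (by linarith) (by linarith)
  · have f1 : F z = 0 := by
      by_contra hcon
      exact hb (hF' z hcon)
    have f2 : F z' = 0 := by
      by_contra hcon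
      obtain ⟨b1, b2⟩ := hF' z' hcon
      exact hb (hbox z' z hsymm b1 b2)
    rw [f1, f2]

end APd
end

section

/-!
# AP S6: cell-constant functions

PROOF.
* `S6a`: `act (co Γ) D ℓ z = ∑_{v} D.coeff v * ℓ (z - co v)` (`act_apply`), a finite sum over the
  support. Take `C' := ` union over `v` in the support of `{c + x, c + y : c ∈ C, (x,y) = co v}`; if
  `SameCell C' z z'` then `SameCell C (z - co v) (z' - co v)` and both are in `E`
  (`z - co v = z + co (-v)`).
* `S6b`: union of the grids; `SameCell` for a union gives `SameCell` for each part.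
* `S6c`: `C := {-2,-1,0,1,2}`: membership of `g • z` in `Ltr` is a boolean combination of
  comparisons of `±z.1`, `±z.2` with `0,1,2`, i.e. of `z.1`, `z.2` with elements of `C`. Cases on
  `g.s` and on `g.a = 1 ∨ g.a = -1`, `g.b = 1 ∨ g.b = -1` (`Int.units_eq_one_or`).
* `S6d`: the same for `if z ∈ E then ℓ z else 0`: on `E` it is equal to `ℓ`.
-/

open Set Topology Finset

namespace APd

theorem S6a {Γ : AddSubgroup ℝ} (E : Set (ℝ × ℝ)) (hE : ∀ z ∈ E, ∀ v : Γ × Γ, z + co Γ v ∈ E)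
    (D : AddMonoidAlgebra ℤ (Γ × Γ)) (l : ℝ × ℝ → ℤ) (C : Finset ℝ) (hl : CellConst C E l) :
    ∃ C', CellConst C' E (act (co Γ) D l) := by
  classical
  refine ⟨D.coeff.support.biUnion
    (fun v => C.image (fun c => c + (co Γ v).1) ∪ C.image (fun c => c + (co Γ v).2)), ?_⟩
  intro z hz z' hz' h
  rw [act_apply, act_apply]
  refine Finset.sum_congr rfl fun v hv => ?_
  show D.coeff v • l (z - co Γ v) = D.coeff v • l (z' - co Γ v)
  congr 1
  have e : ∀ y : ℝ × ℝ, y ∈ E → y - co Γ v ∈ E := fun y hy => by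
    have := hE y hy (-v)
    rwa [map_neg, ← sub_eq_add_neg] at this
  refine hl _ (e z hz) _ (e z' hz') ?_
  intro c hc
  have m1 : c + (co Γ v).1 ∈ D.coeff.support.biUnion
      (fun v => C.image (fun c => c + (co Γ v).1) ∪ C.image (fun c => c + (co Γ v).2)) :=
    Finset.mem_biUnion.2 ⟨v, hv, Finset.mem_union_left _ (Finset.mem_image_of_mem _ hc)⟩
  have m2 : c + (co Γ v).2 ∈ D.coeff.support.biUnion
      (fun v => C.image (fun c => c + (co Γ v).1) ∪ C.image (fun c => c + (co Γ v).2)) :=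
    Finset.mem_biUnion.2 ⟨v, hv, Finset.mem_union_right _ (Finset.mem_image_of_mem (fun c => c + (co Γ v).2) hc)⟩
  have h1 := (h _ m1).1
  have h2 := (h _ m2).2
  simp only [Prod.fst_sub, Prod.snd_sub, lt_sub_iff_add_lt, sub_lt_iff_lt_add]
  exact ⟨h1, h2⟩

theorem S6b {K : Type} (s : Finset K) (E : Set (ℝ × ℝ)) (w : K → ℝ × ℝ → ℤ)
    (h : ∀ k ∈ s, ∃ C, CellConst C E (w k)) : ∃ C, CellConst C E (∑ k ∈ s, w k) := by
  classical
  choose! C hC using h
  refine ⟨s.biUnion C, ?_⟩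
  intro z hz z' hz' h
  rw [Finset.sum_apply, Finset.sum_apply]
  refine Finset.sum_congr rfl fun k hk => hC k hk z hz z' hz' ?_
  intro c hc
  exact h c (Finset.mem_biUnion.2 ⟨k, hk, hc⟩)

theorem S6c (g : SP) (z z' : ℝ × ℝ) (h : SameCell {-2, -1, 0, 1, 2} z z') :
    Lf (g • z) = Lf (g • z') := by
  have a1 := h (-2) (by simp)
  have a2 := h (-1) (by simp)
  have a3 := h 0 (by simp)
  have a4 := h 1 (by simp)
  have a5 := h 2 (by simp)
  have b1 : -z.1 < 0 ↔ -z'.1 < 0 := by rw [neg_lt_zero, neg_lt_zero]; exact a3.1.1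
  have b2 : -z.2 < 0 ↔ -z'.2 < 0 := by rw [neg_lt_zero, neg_lt_zero]; exact a3.2.1
  have b3 : 1 < -z.1 ↔ 1 < -z'.1 := by rw [lt_neg, lt_neg (b := z'.1)]; exact a2.1.2
  have b4 : 1 < -z.2 ↔ 1 < -z'.2 := by rw [lt_neg, lt_neg (b := z'.2)]; exact a2.2.2
  have b5 : 2 < -z.1 ↔ 2 < -z'.1 := by rw [lt_neg, lt_neg (b := z'.1)]; exact a1.1.2
  have b6 : 2 < -z.2 ↔ 2 < -z'.2 := by rw [lt_neg, lt_neg (b := z'.2)]; exact a1.2.2
  have key : g • z ∈ Ltr ↔ g • z' ∈ Ltr := by
    obtain ⟨s, a, b⟩ := g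
    rcases Int.units_eq_one_or a with rfl | rfl <;> rcases Int.units_eq_one_or b with rfl | rfl <;>
      cases s <;>
      simp only [SP.smul_def, Ltr, cond_true, cond_false, one_smul, Units.neg_smul, Set.mem_union,
        Set.mem_prod, Set.mem_Icc, ← not_lt, a3.1.2, a3.2.2, a4.1.1, a4.2.1, a5.1.1, a5.2.1,
        b1, b2, b3, b4, b5, b6]
  unfold Lf
  by_cases h1 : g • z ∈ Ltr
  · rw [if_pos h1, if_pos (key.1 h1)]
  · rw [if_neg h1, if_neg (fun h2 => h1 (key.2 h2))]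

end APd
end

section

/-!
# AP S7: from good points to the whole set

PROOF. For `z` off the grid `C` let `W := {w | SameCell C z w}`. `W` is open: for each `c ∈ C` and each
coordinate the condition is `w.1 < c` or `c < w.1` (because `z.1 ≠ c`), finitely many open
conditions; all points of `W` are off the grid, and `w ∈ W` implies `{w' | SameCell C w w'} = W`.
Suppose `z ∈ P`. As `P = closure (interior P)` and `W` is an open neighbourhood of `z`,
`W ∩ interior P` is open and nonempty, so it contains a point `e ∈ E` (`E` dense). For every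
`e' ∈ E ∩ W` we have `SameCell C e e'`, so `ind P e' = ind P e = 1`, i.e. `e' ∈ P`. `E ∩ W` is dense
in the open set `W` (`Dense.open_subset_closure_inter` or `Dense.inter_open_nonempty`) and `P` is
closed, so `W ⊆ P`. Hence `z ∈ P` implies `z' ∈ P` for `SameCell C z z'`, and also
`z ∈ interior P`. The reverse implication is the same with `z'` (which is off the grid too).
Second claim: if `z ∈ frontier P ⊆ P` (closed) then `z ∈ interior P` by the above, contradiction with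
`frontier P = P \ interior P`.
-/

open Set Topology Finset

namespace APd

private lemma s7_refl (C : Finset ℝ) (z : ℝ × ℝ) : SameCell C z z := fun _ _ =>
  ⟨⟨Iff.rfl, Iff.rfl⟩, ⟨Iff.rfl, Iff.rfl⟩⟩

private lemma s7_symm {C : Finset ℝ} {z w : ℝ × ℝ} (h : SameCell C z w) : SameCell C w z :=
  fun c hc => ⟨⟨(h c hc).1.1.symm, (h c hc).1.2.symm⟩, ⟨(h c hc).2.1.symm, (h c hc).2.2.symm⟩⟩

private lemma s7_trans {C : Finset ℝ} {z w u : ℝ × ℝ} (h : SameCell C z w)
    (h' : SameCell C w u) : SameCell C z u :=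
  fun c hc => ⟨⟨(h c hc).1.1.trans (h' c hc).1.1, (h c hc).1.2.trans (h' c hc).1.2⟩,
    ⟨(h c hc).2.1.trans (h' c hc).2.1, (h c hc).2.2.trans (h' c hc).2.2⟩⟩

private lemma s7_off {C : Finset ℝ} {z w : ℝ × ℝ} (hz : OffGrid C z) (h : SameCell C z w) :
    OffGrid C w := by
  intro c hc
  obtain ⟨⟨a1, a2⟩, ⟨b1, b2⟩⟩ := h c hc
  obtain ⟨h1, h2⟩ := hz c hc
  constructor
  · intro e
    rcases lt_or_gt_of_ne h1 with h | h
    · exact absurd (a2.1 h) (by rw [e]; exact lt_irrefl _)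
    · exact absurd (a1.1 h) (by rw [e]; exact lt_irrefl _)
  · intro e
    rcases lt_or_gt_of_ne h2 with h | h
    · exact absurd (b2.1 h) (by rw [e]; exact lt_irrefl _)
    · exact absurd (b1.1 h) (by rw [e]; exact lt_irrefl _)

private lemma s7_one (c a : ℝ) (h : a ≠ c) (p : ℝ × ℝ → ℝ) (hp : Continuous p) :
    IsOpen {w : ℝ × ℝ | (c < a ↔ c < p w) ∧ (a < c ↔ p w < c)} := by
  rcases lt_or_gt_of_ne h with h | h
  · have : {w : ℝ × ℝ | (c < a ↔ c < p w) ∧ (a < c ↔ p w < c)} = {w | p w < c} := by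
      ext w
      simp only [Set.mem_setOf_eq]
      constructor
      · exact fun h' => h'.2.1 h
      · exact fun h' => ⟨⟨fun x => absurd x (not_lt_of_gt h), fun x => absurd x (not_lt_of_gt h')⟩,
          ⟨fun _ => h', fun _ => h⟩⟩
    rw [this]
    exact isOpen_lt hp continuous_const
  · have : {w : ℝ × ℝ | (c < a ↔ c < p w) ∧ (a < c ↔ p w < c)} = {w | c < p w} := by
      ext w
      simp only [Set.mem_setOf_eq]
      constructor
      · exact fun h' => h'.1.1 h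
      · exact fun h' => ⟨⟨fun _ => h', fun _ => h⟩,
          ⟨fun x => absurd x (not_lt_of_gt h), fun x => absurd x (not_lt_of_gt h')⟩⟩
    rw [this]
    exact isOpen_lt continuous_const hp

private lemma s7_open {C : Finset ℝ} {z : ℝ × ℝ} (hz : OffGrid C z) :
    IsOpen {w | SameCell C z w} := by
  have : {w | SameCell C z w} = ⋂ c ∈ C,
      ({w : ℝ × ℝ | (c < z.1 ↔ c < w.1) ∧ (z.1 < c ↔ w.1 < c)} ∩
        {w : ℝ × ℝ | (c < z.2 ↔ c < w.2) ∧ (z.2 < c ↔ w.2 < c)}) := by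
    ext w
    simp only [SameCell, Set.mem_setOf_eq, Set.mem_iInter, Set.mem_inter_iff]
  rw [this]
  exact isOpen_biInter_finset fun c hc =>
    (s7_one c z.1 (hz c hc).1 _ continuous_fst).inter (s7_one c z.2 (hz c hc).2 _ continuous_snd)

private lemma s7_sub {P : Set (ℝ × ℝ)} (hreg : closure (interior P) = P) {E : Set (ℝ × ℝ)}
    (hE : Dense E) {C : Finset ℝ} (h : CellConst C E (ind P)) {z : ℝ × ℝ} (hz : OffGrid C z)
    (hzP : z ∈ P) : {w | SameCell C z w} ⊆ P := by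
  have hW := s7_open hz
  have hcl : IsClosed P := by rw [← hreg]; exact isClosed_closure
  have h1 : ({w | SameCell C z w} ∩ interior P).Nonempty := by
    have : z ∈ closure (interior P) := by rw [hreg]; exact hzP
    exact mem_closure_iff.1 this _ hW (s7_refl C z)
  obtain ⟨e, he1, he2⟩ := hE.inter_open_nonempty _ (hW.inter isOpen_interior) h1
  have key : {w | SameCell C z w} ∩ E ⊆ P := by
    rintro e' ⟨he', heE'⟩
    have hsame : SameCell C e e' := s7_trans (s7_symm he1.1) he'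
    have hind := h e he2 e' heE' hsame
    have hP : e ∈ P := interior_subset he1.2
    unfold ind at hind
    rw [if_pos hP] at hind
    by_contra hcon
    rw [if_neg hcon] at hind
    exact one_ne_zero hind
  exact (hE.open_subset_closure_inter hW).trans
    ((closure_mono key).trans (hcl.closure_eq).subset)

theorem S7 (P : Set (ℝ × ℝ)) (hreg : closure (interior P) = P) (E : Set (ℝ × ℝ)) (hE : Dense E)
    (C : Finset ℝ) (h : CellConst C E (ind P)) :
    (∀ z z', OffGrid C z → SameCell C z z' → (z ∈ P ↔ z' ∈ P)) ∧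
      ∀ z, OffGrid C z → z ∉ frontier P := by
  have hcl : IsClosed P := by rw [← hreg]; exact isClosed_closure
  refine ⟨fun z z' hz hzz' => ⟨fun hP => s7_sub hreg hE h hz hP hzz', fun hP =>
    s7_sub hreg hE h (s7_off hz hzz') hP (s7_symm hzz')⟩, fun z hz hfr => ?_⟩
  have hP : z ∈ P := hcl.frontier_subset hfr
  have hint : z ∈ interior P :=
    mem_interior.2 ⟨_, s7_sub hreg hE h hz hP, s7_open hz, s7_refl C z⟩
  rw [hcl.frontier_eq] at hfr
  exact hfr.2 hint

end APd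
end

section

/-!
# AP T1: reflection in the diagonal, normalisation

`SP.tr g` is the conjugate of `g` by the exchange of the coordinates: `(g • z).swap = g.tr • z.swap`.

PROOF of `Sys.tr`: `(z.swap ∈ Ltr ↔ z ∈ Ltr)`, so `Lf z.swap = Lf z`;
`((ρ i).tr⁻¹ • (z - co (t i).swap)).swap = (ρ i)⁻¹ • (z.swap - co (t i))`; `S.eq` at `z.swap`. `cell`: same grid.
PROOF of `Diss.tr`: `Prod.swap ⁻¹' P = Prod.swap '' P` and `Prod.swap` is a homeomorphism; the pieces of the new
dissection are the images of the old ones under `Prod.swap`.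
PROOF of `Diss.norm`: for a homeomorphism `m = mv g v` of the plane (inverse `mv g⁻¹ (-(g⁻¹ • v))`) the set `P' = m '' P`
is compact, connected, `closure (interior P') = P'`, and `mv (ρ i * g⁻¹) (t i - (ρ i * g⁻¹) • v) '' P' = mv (ρ i) (t i) '' P`
(`mv (ρ i * g⁻¹) (t i - (ρ i * g⁻¹) • v) (g • z + v) = ρ i • z + t i`).
-/

open Set Topology Finset

namespace APd

/-- Conjugation by the exchange of the coordinates. -/
def SP.tr (g : SP) : SP := ⟨g.s, g.b, g.a⟩

private lemma T1_swap_smul {α : Type} [AddCommGroup α] (g : SP) (z : α × α) :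
    (g • z).swap = g.tr • z.swap := by
  obtain ⟨s, a, b⟩ := g
  cases s <;> rfl

private lemma T1_tr_inv (g : SP) : g.tr⁻¹ = (g⁻¹).tr := by
  obtain ⟨s, a, b⟩ := g
  cases s <;> rfl

private lemma T1_tr_tr (g : SP) : g.tr.tr = g := rfl

private lemma T1_mem_Ltr (z : ℝ × ℝ) : z.swap ∈ Ltr ↔ z ∈ Ltr := by
  unfold Ltr
  simp only [Set.mem_union, Set.mem_prod, Set.mem_Icc, Prod.fst_swap, Prod.snd_swap]
  constructor
  · rintro (⟨h1, h2⟩ | ⟨h1, h2⟩)
    · exact Or.inr ⟨h2, h1⟩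
    · exact Or.inl ⟨h2, h1⟩
  · rintro (⟨h1, h2⟩ | ⟨h1, h2⟩)
    · exact Or.inr ⟨h2, h1⟩
    · exact Or.inl ⟨h2, h1⟩

private lemma T1_Lf (z : ℝ × ℝ) : Lf z.swap = Lf z := by
  unfold Lf
  by_cases h : z ∈ Ltr
  · rw [if_pos h, if_pos ((T1_mem_Ltr z).2 h)]
  · rw [if_neg h, if_neg fun h' => h ((T1_mem_Ltr z).1 h')]

theorem Sys.tr {ι : Type} [Fintype ι] {Γ : AddSubgroup ℝ} {Ω : Set ℝ} {f : ℝ × ℝ → ℤ} {ρ : ι → SP}
    {t : ι → Γ × Γ} (S : Sys ι Γ Ω f ρ t) :
    Sys ι Γ Ω (fun z => f z.swap) (fun i => (ρ i).tr) (fun i => (t i).swap) where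
  fg := S.fg
  adm := S.adm
  bdd := by
    obtain ⟨R, hR⟩ := S.bdd
    refine ⟨R, fun z hz => ?_⟩
    have h := hR z.swap hz
    exact ⟨h.2, h.1⟩
  cell := by
    obtain ⟨C, hC⟩ := S.cell
    refine ⟨C, fun z hz z' hz' h => ?_⟩
    exact hC z.swap ⟨hz.2, hz.1⟩ z'.swap ⟨hz'.2, hz'.1⟩ fun c hc => ⟨(h c hc).2, (h c hc).1⟩
  eq := by
    intro z hz
    have h := S.eq z.swap ⟨hz.2, hz.1⟩
    rw [T1_Lf] at h
    rw [← h]
    refine Finset.sum_congr rfl fun i _ => ?_
    show f (((ρ i).tr⁻¹ • (z - co Γ (t i).swap)).swap) = f ((ρ i)⁻¹ • (z.swap - co Γ (t i)))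
    rw [T1_swap_smul, T1_tr_inv, T1_tr_tr]
    rfl

private lemma T1_ci (e : ℝ × ℝ ≃ₜ ℝ × ℝ) {P : Set (ℝ × ℝ)} (h : closure (interior P) = P) :
    closure (interior (e '' P)) = e '' P := by
  rw [← e.image_interior, ← e.image_closure, h]

private lemma T1_disj (e : ℝ × ℝ ≃ₜ ℝ × ℝ) {P Q : Set (ℝ × ℝ)} (h : Disjoint (interior P) (interior Q)) :
    Disjoint (interior (e '' P)) (interior (e '' Q)) := by
  rw [← e.image_interior, ← e.image_interior]
  exact (Set.disjoint_image_iff e.injective).2 h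

theorem Diss.tr {ι : Type} [Fintype ι] {P : Set (ℝ × ℝ)} {ρ : ι → SP} {t : ι → ℝ × ℝ}
    (h : Diss ι P ρ t) : Diss ι (Prod.swap ⁻¹' P) (fun i => (ρ i).tr) (fun i => (t i).swap) := by
  set e : ℝ × ℝ ≃ₜ ℝ × ℝ := Homeomorph.prodComm ℝ ℝ with he
  have hP : (Prod.swap ⁻¹' P : Set (ℝ × ℝ)) = e '' P := by
    rw [e.image_eq_preimage_symm]
    rfl
  have hm : ∀ i, mv (ρ i).tr (t i).swap '' (e '' P) = e '' (mv (ρ i) (t i) '' P) := by
    intro i
    rw [Set.image_image, Set.image_image]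
    refine Set.image_congr fun z _ => ?_
    show mv (ρ i).tr (t i).swap z.swap = (mv (ρ i) (t i) z).swap
    unfold mv
    rw [Prod.swap_add, T1_swap_smul]
  rw [hP]
  refine ⟨h.compact.image e.continuous, h.conn.image e e.continuous.continuousOn, T1_ci e h.reg, ?_, ?_⟩
  · intro i j hij
    rw [hm i, hm j]
    exact T1_disj e (h.disj i j hij)
  · have h1 : (⋃ i, mv (ρ i).tr (t i).swap '' (e '' P)) = e '' ⋃ i, mv (ρ i) (t i) '' P := by
      rw [Set.image_iUnion]
      exact Set.iUnion_congr hm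
    rw [h1, h.cover, e.image_eq_preimage_symm]
    ext z
    exact T1_mem_Ltr z

private lemma T1_cont (g : SP) : Continuous fun z : ℝ × ℝ => g • z := by
  obtain ⟨s, a, b⟩ := g
  cases s
  · show Continuous fun z : ℝ × ℝ => (a • z.1, b • z.2)
    fun_prop
  · show Continuous fun z : ℝ × ℝ => (a • z.2, b • z.1)
    fun_prop

private def T1_mvH (g : SP) (v : ℝ × ℝ) : ℝ × ℝ ≃ₜ ℝ × ℝ where
  toFun := mv g v
  invFun := mv g⁻¹ (-(g⁻¹ • v))
  left_inv z := by
    unfold mv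
    rw [smul_add, inv_smul_smul, add_neg_cancel_right]
  right_inv z := by
    unfold mv
    rw [smul_add, smul_neg, smul_inv_smul, smul_inv_smul, neg_add_cancel_right]
  continuous_toFun := (T1_cont g).add continuous_const
  continuous_invFun := (T1_cont g⁻¹).add continuous_const

theorem Diss.norm {ι : Type} [Fintype ι] {P : Set (ℝ × ℝ)} {ρ : ι → SP} {t : ι → ℝ × ℝ}
    (h : Diss ι P ρ t) (g : SP) (v : ℝ × ℝ) :
    Diss ι (mv g v '' P) (fun i => ρ i * g⁻¹) (fun i => t i - (ρ i * g⁻¹) • v) := by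
  have hP : mv g v '' P = T1_mvH g v '' P := rfl
  have hm : ∀ i, mv (ρ i * g⁻¹) (t i - (ρ i * g⁻¹) • v) '' (mv g v '' P) = mv (ρ i) (t i) '' P := by
    intro i
    rw [Set.image_image]
    refine Set.image_congr fun z _ => ?_
    unfold mv
    rw [smul_add, mul_smul, inv_smul_smul]
    abel
  refine ⟨h.compact.image (T1_mvH g v).continuous,
    h.conn.image _ (T1_mvH g v).continuous.continuousOn, T1_ci (T1_mvH g v) h.reg, ?_, ?_⟩
  · intro i j hij
    rw [hm i, hm j]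
    exact h.disj i j hij
  · rw [Set.iUnion_congr hm]
    exact h.cover

end APd
end

section

/-!
# AP S3: Cramer's rule for a matrix of operators

PROOF. `adj(M) M = det(M) 1` (`Matrix.adjugate_mul`), so for every `k`
`∑_l a(adj(M) k l) (w l) = ∑_l a(adj(M) k l) (∑_m a(M l m) (F m))
= ∑_m a(∑_l adj(M) k l * M l m) (F m) = ∑_m a(det(M) * 1 k m) (F m) = a(det M) (F k)`.
Use `map_sum`, `map_mul`, `Module.End.mul_apply`, `Finset.sum_comm`.
-/

open Finset

namespace APd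

theorem S3 {A B W : Type} [CommRing A] [CommRing B] [Algebra A B] [AddCommGroup W] [Module A W]
    (a : B →ₐ[A] Module.End A W) {K : Type} [Fintype K] [DecidableEq K] (M : Matrix K K B)
    (F w : K → W) (h : ∀ k, ∑ l, a (M k l) (F l) = w k) (k : K) :
    a M.det (F k) = ∑ l, a (M.adjugate k l) (w l) := by
  have h1 : ∀ l, a (M.adjugate k l) (w l) = ∑ m, a (M.adjugate k l * M l m) (F m) := by
    intro l
    rw [← h l, map_sum]
    refine sum_congr rfl fun m _ => ?_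
    rw [map_mul, Module.End.mul_apply]
  rw [sum_congr rfl fun l _ => h1 l, sum_comm]
  have h2 : ∀ m, ∑ l, a (M.adjugate k l * M l m) (F m) = if k = m then a M.det (F m) else 0 := by
    intro m
    have h3 : ∑ l, M.adjugate k l * M l m = if k = m then M.det else 0 := by
      have := congrFun (congrFun (Matrix.adjugate_mul M) k) m
      rw [Matrix.mul_apply, Matrix.smul_apply, Matrix.one_apply, smul_eq_mul] at this
      rw [this]
      split_ifs <;> simp
    rw [← LinearMap.sum_apply, ← map_sum, h3]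
    split_ifs <;> simp
  rw [sum_congr rfl fun m _ => h2 m]
  simp

end APd
end
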