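import Pool.Agent.Lib.MP_b07864_co.AP.R1a
import Pool.Agent.Lib.MP_b07864_co.AP.S3
import Pool.Agent.Lib.MP_b07864_co.AP.D2

section

/-!
# AP R1: the prime of a degenerate module, degree argument

PROOF. Take `q`, `M1` from `R1a`. Let `D` with `∑_v D_v • G k (y - θ v) = 0` for all `k`, `y`, and suppose some
`D_v ∉ q`. Let `v₀` be the element of the support of `D` with `D_{v₀} ∉ q` and `θ v₀` maximal, and `η > 0` with
`θ v₀ - θ v ≥ η` for all other `v` in the support with `D_v ∉ q` (finite support, `θ` injective). The set of `y` such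
that `G k y ∉ M1` for some `k` is nonempty and bounded above (by `hbdd`, `0 ∈ M1`); let `y*` be its supremum and
`y > y* - η` in the set, `G k y ∉ M1`. Evaluate the relation at `y + θ v₀` (for this `k`): the terms with `D_v ∈ q` are
in `M1`; for `v ≠ v₀` with `D_v ∉ q` the argument is `y + θ v₀ - θ v ≥ y + η > y*`, so `G k (..) ∈ M1`. So
`D_{v₀} • G k y ∈ M1`, hence `G k y ∈ M1`, contradiction.
-/

open Set Topology Finset

namespace APd

theorem R1 {A : Type} [CommRing A] [IsNoetherianRing A] (M : Ideal A) [M.IsPrime] (π : A)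
    {N : Type} [AddCommGroup N] [Module A N] (tf : ∀ m : N, π • m = 0 → m = 0)
    {X : Type} [AddCommGroup X] (θ : X →+ ℝ) (hθ : Function.Injective θ)
    {κ : Type} [Finite κ] (G : κ → ℝ → N) (hfin : ∀ k, (Set.range (G k)).Finite)
    (hbdd : ∃ R : ℝ, ∀ k y, R < y → G k y = 0) (hnk : ∀ s : A, s ∉ M → ∃ k y, s • G k y ≠ 0) :
    ∃ q : Ideal A, q.IsPrime ∧ q ≤ M ∧ π ∉ q ∧ ∀ D : AddMonoidAlgebra A X,
      (∀ k y, (D.coeff.sum fun v a => a • G k (y - θ v)) = 0) → ∀ v, D.coeff v ∈ q := by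
  classical
  obtain ⟨q, hqp, hqM, hπ, M1, h1, h2, k₀, y₀, h3⟩ := R1a M π tf G hfin hnk
  refine ⟨q, hqp, hqM, hπ, fun D hD v => ?_⟩
  by_contra hv
  set S := D.coeff.support.filter (fun w => D.coeff w ∉ q) with hSdef
  have hS : S.Nonempty := by
    refine ⟨v, Finset.mem_filter.2 ⟨Finsupp.mem_support_iff.2 fun h => hv ?_, hv⟩⟩
    rw [h]
    exact q.zero_mem
  obtain ⟨v₀, hv₀S, hmax⟩ := S.exists_max_image θ hS
  obtain ⟨η, hη, hη'⟩ : ∃ η > 0, ∀ w ∈ S.erase v₀, θ w + η ≤ θ v₀ := by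
    rcases (S.erase v₀).eq_empty_or_nonempty with h | h
    · exact ⟨1, one_pos, by rw [h]; simp⟩
    · obtain ⟨w, hw, hwmax⟩ := (S.erase v₀).exists_max_image θ h
      have hne : θ w ≠ θ v₀ := fun e => (Finset.ne_of_mem_erase hw) (hθ e)
      have hle := hmax w (Finset.mem_of_mem_erase hw)
      refine ⟨θ v₀ - θ w, sub_pos.2 (lt_of_le_of_ne hle hne), fun w' hw' => ?_⟩
      have := hwmax w' hw'
      linarith
  obtain ⟨R, hR⟩ := hbdd
  set Y : Set ℝ := {y | ∃ k, G k y ∉ M1} with hY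
  have hYne : Y.Nonempty := ⟨y₀, k₀, h3⟩
  have hYbdd : BddAbove Y := by
    refine ⟨R, ?_⟩
    rintro y ⟨k, hk⟩
    by_contra hlt
    exact hk (by rw [hR k y (not_le.1 hlt)]; exact M1.zero_mem)
  obtain ⟨y, ⟨k, hk⟩, hy⟩ := exists_lt_of_lt_csSup hYne (sub_lt_self (sSup Y) hη)
  have hD1 := hD k (y + θ v₀)
  have hv₀ : v₀ ∈ D.coeff.support := (Finset.mem_filter.1 hv₀S).1
  have hv₀q : D.coeff v₀ ∉ q := (Finset.mem_filter.1 hv₀S).2
  rw [Finsupp.sum, ← Finset.add_sum_erase _ _ hv₀, add_sub_cancel_right] at hD1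
  refine hk (h2 _ hv₀q k y ?_)
  rw [eq_neg_of_add_eq_zero_left hD1]
  refine M1.neg_mem (Submodule.sum_mem _ fun w hw => ?_)
  by_cases hwq : D.coeff w ∈ q
  · exact h1 _ hwq k _
  · have hwS : w ∈ S.erase v₀ := Finset.mem_erase.2 ⟨Finset.ne_of_mem_erase hw,
      Finset.mem_filter.2 ⟨Finset.mem_of_mem_erase hw, hwq⟩⟩
    have h4 := hη' w hwS
    refine M1.smul_mem _ ?_
    by_contra hcon
    have h5 : y + θ v₀ - θ w ≤ sSup Y := le_csSup hYbdd ⟨k, hcon⟩
    linarith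

end APd
end

section

/-!
# AP S8o: the group determinant is odd

PROOF. By `S4`: all the factors are odd when `card ι` is odd. `∑_i ±1 ≡ card ι mod 2`; `N := ∑ (r i).mat` has
`N 0 0 ≡ N 1 1 ≡ m := #{i | not swap}`, `N 0 1 ≡ N 1 0 ≡ m' := #{i | swap} mod 2`, so
`det N ≡ m^2 - m'^2 ≡ (m + m')^2 ≡ 1 mod 2` (`m + m' = card ι`).
-/

open Finset

namespace APd

private lemma unit_two (u : ℤˣ) : (((u : ℤ) : ℤ) : ZMod 2) = 1 := by
  rcases Int.units_eq_one_or u with rfl | rfl <;> decide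

private lemma sign_two (b : Bool) : (((if b then (-1 : ℤ) else 1) : ℤ) : ZMod 2) = 1 := by
  cases b <;> decide

private lemma mat_two (g : SP) (i j : Fin 2) :
    ((g.mat i j : ℤ) : ZMod 2) = if i = j then (if g.s then 0 else 1) else (if g.s then 1 else 0) := by
  obtain ⟨gs, ga, gb⟩ := g
  cases gs <;> fin_cases i <;> fin_cases j <;> simp [SP.mat, unit_two]

theorem S8odd {ι : Type} [Fintype ι] (hodd : Odd (Fintype.card ι)) (r : ι → SP) :
    Odd (M0 r).det := by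
  have hc : ((Fintype.card ι : ℕ) : ZMod 2) = 1 := ZMod.natCast_eq_one_iff_odd.2 hodd
  have hs : ∑ _i : ι, (1 : ZMod 2) = 1 := by
    rw [Finset.sum_const, Finset.card_univ, nsmul_eq_mul, mul_one, hc]
  obtain ⟨m, hm⟩ : ∃ m : ZMod 2, m = ∑ i, if (r i).s then (0 : ZMod 2) else 1 := ⟨_, rfl⟩
  obtain ⟨m', hm'⟩ : ∃ m' : ZMod 2, m' = ∑ i, if (r i).s then (1 : ZMod 2) else 0 := ⟨_, rfl⟩
  have hmm : m + m' = 1 := by
    refine Eq.trans ?_ hs
    rw [hm, hm', ← Finset.sum_add_distrib]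
    refine Finset.sum_congr rfl fun i _ => ?_
    split_ifs <;> simp
  have e (k l : Fin 2) : (((∑ i, (r i).mat) k l : ℤ) : ZMod 2) = if k = l then m else m' := by
    rw [Matrix.sum_apply, Int.cast_sum, Finset.sum_congr rfl fun i _ => mat_two (r i) k l]
    split_ifs with h
    · exact hm.symm
    · exact hm'.symm
  have hN : (((∑ i, (r i).mat).det : ℤ) : ZMod 2) = 1 := by
    rw [Matrix.det_fin_two, Int.cast_sub, Int.cast_mul, Int.cast_mul, e, e, e, e]
    have h2 : ∀ x y : ZMod 2, x + y = 1 → x * x - y * y = 1 := by decide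
    exact h2 m m' hmm
  have h1 : ((∑ i, ((r i).a : ℤ) * (r i).b : ℤ) : ZMod 2) = 1 := by
    refine Eq.trans ?_ hs
    rw [Int.cast_sum]
    exact Finset.sum_congr rfl fun i _ => by rw [Int.cast_mul, unit_two, unit_two, mul_one]
  have h2 : ((∑ i, (if (r i).s then (-1 : ℤ) else 1) : ℤ) : ZMod 2) = 1 := by
    refine Eq.trans ?_ hs
    rw [Int.cast_sum]
    exact Finset.sum_congr rfl fun i _ => sign_two _
  have h3 : ((∑ i, ((r i).a : ℤ) * (r i).b * (if (r i).s then (-1 : ℤ) else 1) : ℤ) : ZMod 2) = 1 := by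
    refine Eq.trans ?_ hs
    rw [Int.cast_sum]
    exact Finset.sum_congr rfl fun i _ => by
      rw [Int.cast_mul, Int.cast_mul, unit_two, unit_two, sign_two, mul_one, mul_one]
  rw [← ZMod.intCast_eq_one_iff_odd, S4, Int.cast_mul, Int.cast_mul, Int.cast_mul, Int.cast_mul,
    Int.cast_pow, hN, h1, h2, h3, Int.cast_natCast, hc]
  decide

end APd
end

section

/-!
# AP R2, R3: the module of row functions modulo constants

`Fn Γ` is the module of functions `ℝ → ℤ` over `ℤ[Γ]` (translations), `cst` the submodule of the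
functions which are constant on `Ω`.
-/

open Set Topology Finset

namespace APd

/-- Functions `ℝ → ℤ`, as a module over `ℤ[Γ]`. -/
def Fn (_ : AddSubgroup ℝ) : Type := ℝ → ℤ

instance (Γ : AddSubgroup ℝ) : AddCommGroup (Fn Γ) := inferInstanceAs (AddCommGroup (ℝ → ℤ))

noncomputable instance (Γ : AddSubgroup ℝ) : Module (AddMonoidAlgebra ℤ Γ) (Fn Γ) :=
  Module.compHom (ℝ → ℤ)
    (act (A := ℤ) (X := Γ) (N := ℤ) Γ.subtype).toRingHom

lemma Fn.smul_apply {Γ : AddSubgroup ℝ} (s : AddMonoidAlgebra ℤ Γ) (g : Fn Γ) (x : ℝ) :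
    (s • g : Fn Γ) x = s.coeff.sum fun u a => a * g (x - u) :=
  act_apply (A := ℤ) (N := ℤ) Γ.subtype s g x

/-- The submodule of the functions which are constant on `Ω`. -/
def cst (Γ : AddSubgroup ℝ) (Ω : Set ℝ) (h : Adm Γ Ω) : Submodule (AddMonoidAlgebra ℤ Γ) (Fn Γ) where
  carrier := {g | ∃ c : ℤ, ∀ x ∈ Ω, g x = c}
  add_mem' := by
    rintro f g ⟨c, hc⟩ ⟨d, hd⟩
    exact ⟨c + d, fun x hx => by rw [← hc x hx, ← hd x hx]; rfl⟩
  zero_mem' := ⟨0, fun x _ => rfl⟩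
  smul_mem' := by
    rintro s g ⟨c, hc⟩
    refine ⟨s.coeff.sum fun _ a => a * c, fun x hx => ?_⟩
    rw [Fn.smul_apply]
    refine Finset.sum_congr rfl fun u _ => ?_
    have : x - u ∈ Ω := by
      have := h.add x hx (-u) (neg_mem u.2)
      rwa [← sub_eq_add_neg] at this
    simp only [hc _ this]

/-- The row function `x ↦ ∑_k f(x + k, y)` as an element of `Fn Γ`. -/
noncomputable def rowFn (Γ : AddSubgroup ℝ) (f : ℝ × ℝ → ℤ) (y : ℝ) : Fn Γ := fun x => rs f x y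

open Classical in
/-- The class of the periodised row at height `y` of the function `z ↦ f((j k)⁻¹ z)` (zero if `y ∉ Ω`). -/
noncomputable def GG {K : Type} [Group K] {Γ : AddSubgroup ℝ} {Ω : Set ℝ} (h : Adm Γ Ω)
    (f : ℝ × ℝ → ℤ) (j : K →* SP) (k : K) (y : ℝ) : Fn Γ ⧸ cst Γ Ω h :=
  if y ∈ Ω then Submodule.Quotient.mk (rowFn Γ (fun z => f ((j k)⁻¹ • z)) y) else 0

end APd
end

section

/-!
# AP R3b: finitely many rows, bounded support, no torsion

PROOF.
* `GG_range`: `f` is cell-constant on `Ω ×ˢ Ω` with a finite grid `C`. If `y, y' ∈ Ω` satisfy, for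
  every `c ∈ C ∪ (-C)`, `(c < y ↔ c < y')` and `(y < c ↔ y' < c)`, then for all `x ∈ Ω` the points `(j k)⁻¹ • (x, y)` and
  `(j k)⁻¹ • (x, y')` are in `Ω ×ˢ Ω` and in the same cell of `C`, so the row functions agree on `Ω` and
  `GG .. y = GG .. y'` (the difference is `0` on `Ω`, hence in `cst`). So the range of `GG .. k` is contained in the
  image of a finite set (the sets `{c | c < y}`, `{c | y < c}` are subsets of a finite set) plus the
  value `0`.
* `GG_bdd`: if `R` bounds the support of `f` and `y > R` then `f ((j k)⁻¹ • (x, y)) = 0` for all `x`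
  (one coordinate of `(j k)⁻¹ • (x,y)` is `±y`), so the row function is `0`.
* `GG_tf`: if `(p : ℤ[Γ]) • m = 0`, `m` the class of `g`, then there is `c` with `p * g x = c` for all `x ∈ Ω`
  (`(p : ℤ[Γ]) • g = p • g`: `Nat.cast_smul_eq_nsmul`), so `g` is constant on `Ω` (`Ω` may be empty or not), as
  `p ≠ 0`; hence `m = 0`.
* `noeth`: `Γ` finitely generated: `AddMonoidAlgebra ℤ Γ` is a finitely generated commutative
  `ℤ`-algebra (`AddMonoidAlgebra.finiteType_of_fg`, `AddGroup.FG`, `AddMonoid.FG`), hence noetherian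
  (`Algebra.FiniteType.isNoetherianRing`).
-/

open Set Topology Finset

namespace APd

private lemma add_int_mem {Γ : AddSubgroup ℝ} {Ω : Set ℝ} (h : Adm Γ Ω) {x : ℝ} (hx : x ∈ Ω)
    (m : ℤ) : x + m ∈ Ω := by
  have h1 : (m : ℝ) ∈ Γ := by
    have := Γ.zsmul_mem h.one_mem m
    simpa using this
  exact h.add x hx _ h1

private lemma units_smul_mem {Γ : AddSubgroup ℝ} {Ω : Set ℝ} (h : Adm Γ Ω) {x : ℝ} (hx : x ∈ Ω)
    (a : ℤˣ) : a • x ∈ Ω := by
  rcases Int.units_eq_one_or a with rfl | rfl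
  · simpa using hx
  · simpa [Units.smul_def] using h.neg x hx

private lemma units_smul_sep (C : Finset ℝ) {y y' : ℝ}
    (hl : ∀ c ∈ C ∪ C.image (fun c => -c), (c < y ↔ c < y'))
    (hr : ∀ c ∈ C ∪ C.image (fun c => -c), (y < c ↔ y' < c)) (a : ℤˣ) :
    ∀ c ∈ C, ((c < a • y ↔ c < a • y') ∧ (a • y < c ↔ a • y' < c)) := by
  intro c hc
  rcases Int.units_eq_one_or a with rfl | rfl
  · simp only [one_smul]
    exact ⟨hl c (Finset.mem_union_left _ hc), hr c (Finset.mem_union_left _ hc)⟩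
  · have h1 : (-c) ∈ C ∪ C.image (fun c => -c) :=
      Finset.mem_union_right _ (Finset.mem_image_of_mem _ hc)
    have h2 := hl _ h1
    have h3 := hr _ h1
    simp only [Units.smul_def, Units.val_neg, Units.val_one, neg_smul, one_smul]
    constructor
    · exact lt_neg.trans (h3.trans lt_neg.symm)
    · exact neg_lt.trans (h2.trans neg_lt.symm)

private lemma row_eq {Γ : AddSubgroup ℝ} {Ω : Set ℝ} (h : Adm Γ Ω) {f : ℝ × ℝ → ℤ}
    {C : Finset ℝ} (hC : CellConst C (Ω ×ˢ Ω) f) (g : SP) {y y' : ℝ} (hy : y ∈ Ω) (hy' : y' ∈ Ω)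
    (hl : ∀ c ∈ C ∪ C.image (fun c => -c), (c < y ↔ c < y'))
    (hr : ∀ c ∈ C ∪ C.image (fun c => -c), (y < c ↔ y' < c)) {x : ℝ} (hx : x ∈ Ω) :
    f (g • (x, y)) = f (g • (x, y')) := by
  obtain ⟨s, a, b⟩ := g
  cases s
  · refine hC _ ?_ _ ?_ ?_
    · exact ⟨units_smul_mem h hx a, units_smul_mem h hy b⟩
    · exact ⟨units_smul_mem h hx a, units_smul_mem h hy' b⟩
    · intro c hc
      exact ⟨⟨Iff.rfl, Iff.rfl⟩, units_smul_sep C hl hr b c hc⟩
  · refine hC _ ?_ _ ?_ ?_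
    · exact ⟨units_smul_mem h hy a, units_smul_mem h hx b⟩
    · exact ⟨units_smul_mem h hy' a, units_smul_mem h hx b⟩
    · intro c hc
      exact ⟨units_smul_sep C hl hr a c hc, ⟨Iff.rfl, Iff.rfl⟩⟩

private lemma abs_units_smul (a : ℤˣ) (y : ℝ) : |a • y| = |y| := by
  rcases Int.units_eq_one_or a with rfl | rfl
  · simp
  · simp [Units.smul_def]

private lemma zero_of_lt {f : ℝ × ℝ → ℤ} {R : ℝ}
    (hR : ∀ z, f z ≠ 0 → |z.1| ≤ R ∧ |z.2| ≤ R) (g : SP) {y : ℝ} (hy : R < y) (x : ℝ) :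
    f (g • (x, y)) = 0 := by
  by_contra hne
  have h1 := hR _ hne
  have h2 : R < |y| := lt_of_lt_of_le hy (le_abs_self y)
  obtain ⟨s, a, b⟩ := g
  cases s
  · have h3 : |b • y| ≤ R := h1.2
    rw [abs_units_smul] at h3
    exact absurd h3 (not_le.2 h2)
  · have h3 : |a • y| ≤ R := h1.1
    rw [abs_units_smul] at h3
    exact absurd h3 (not_le.2 h2)

theorem GG_range {ι K : Type} [Fintype ι] [Group K] {Γ : AddSubgroup ℝ} {Ω : Set ℝ}
    {f : ℝ × ℝ → ℤ} {ρ : ι → SP} {t : ι → Γ × Γ} (S : Sys ι Γ Ω f ρ t) (j : K →* SP) (k : K) :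
    (Set.range (GG S.adm f j k)).Finite := by
  classical
  obtain ⟨C, hC⟩ := S.cell
  set C' : Finset ℝ := C ∪ C.image (fun c => -c) with hC'
  let κ : ℝ → Finset ℝ × Finset ℝ := fun y => (C'.filter (fun c => c < y), C'.filter (fun c => y < c))
  let F : Finset ℝ × Finset ℝ → (Fn Γ ⧸ cst Γ Ω S.adm) := fun p =>
    if h : ∃ y, y ∈ Ω ∧ κ y = p then GG S.adm f j k h.choose else 0
  have hkey : ∀ y ∈ Ω, ∀ y' ∈ Ω, κ y = κ y' → GG S.adm f j k y = GG S.adm f j k y' := by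
    intro y hy y' hy' hκ
    have e1 : C'.filter (fun c => c < y) = C'.filter (fun c => c < y') := congrArg Prod.fst hκ
    have e2 : C'.filter (fun c => y < c) = C'.filter (fun c => y' < c) := congrArg Prod.snd hκ
    have hl : ∀ c ∈ C', (c < y ↔ c < y') := by
      intro c hc
      have := Finset.ext_iff.1 e1 c
      simpa [Finset.mem_filter, hc] using this
    have hr : ∀ c ∈ C', (y < c ↔ y' < c) := by
      intro c hc
      have := Finset.ext_iff.1 e2 c
      simpa [Finset.mem_filter, hc] using this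
    unfold GG
    rw [if_pos hy, if_pos hy']
    refine (Submodule.Quotient.eq _).2 ⟨0, fun x hx => ?_⟩
    have h1 : rs (fun z => f ((j k)⁻¹ • z)) x y = rs (fun z => f ((j k)⁻¹ • z)) x y' := by
      unfold rs
      refine finsum_congr fun m => ?_
      exact row_eq S.adm hC _ hy hy' hl hr (add_int_mem S.adm hx m)
    change rs (fun z => f ((j k)⁻¹ • z)) x y - rs (fun z => f ((j k)⁻¹ • z)) x y' = 0
    rw [h1, sub_self]
  have hfin : (((C'.powerset ×ˢ C'.powerset : Finset (Finset ℝ × Finset ℝ)) :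
      Set (Finset ℝ × Finset ℝ))).Finite := Finset.finite_toSet _
  refine Set.Finite.subset ((hfin.image F).insert 0) ?_
  rintro _ ⟨y, rfl⟩
  by_cases hy : y ∈ Ω
  · right
    refine ⟨κ y, ?_, ?_⟩
    · simp only [Finset.coe_product, Set.mem_prod, Finset.mem_coe, Finset.mem_powerset]
      exact ⟨Finset.filter_subset _ _, Finset.filter_subset _ _⟩
    · have hex : ∃ y', y' ∈ Ω ∧ κ y' = κ y := ⟨y, hy, rfl⟩
      change (if h : ∃ y', y' ∈ Ω ∧ κ y' = κ y then GG S.adm f j k h.choose else 0) = _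
      rw [dif_pos hex]
      exact hkey _ hex.choose_spec.1 _ hy hex.choose_spec.2
  · left
    unfold GG
    rw [if_neg hy]

theorem GG_bdd {ι K : Type} [Fintype ι] [Group K] {Γ : AddSubgroup ℝ} {Ω : Set ℝ}
    {f : ℝ × ℝ → ℤ} {ρ : ι → SP} {t : ι → Γ × Γ} (S : Sys ι Γ Ω f ρ t) (j : K →* SP) :
    ∃ R : ℝ, ∀ k y, R < y → GG S.adm f j k y = 0 := by
  obtain ⟨R, hR⟩ := S.bdd
  refine ⟨R, fun k y hy => ?_⟩
  unfold GG
  split_ifs with h
  · refine (Submodule.Quotient.mk_eq_zero _).2 ⟨0, fun x hx => ?_⟩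
    change rs (fun z => f ((j k)⁻¹ • z)) x y = 0
    unfold rs
    have h1 : ∀ m : ℤ, f ((j k)⁻¹ • (x + (m : ℝ), y)) = 0 := fun m => zero_of_lt hR _ hy _
    simp only [h1, finsum_zero]
  · rfl

theorem GG_tf {Γ : AddSubgroup ℝ} {Ω : Set ℝ} (h : Adm Γ Ω) {p : ℕ} (hp : p ≠ 0)
    (m : Fn Γ ⧸ cst Γ Ω h) (hm : (p : AddMonoidAlgebra ℤ Γ) • m = 0) : m = 0 := by
  obtain ⟨g, rfl⟩ := Submodule.Quotient.mk_surjective _ m
  rw [← Submodule.Quotient.mk_smul, Submodule.Quotient.mk_eq_zero] at hm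
  obtain ⟨c, hc⟩ := hm
  have h1 : ∀ x ∈ Ω, (p : ℤ) * g x = c := by
    intro x hx
    have h2 := hc x hx
    rw [Nat.cast_smul_eq_nsmul] at h2
    have h3 : (p • g : Fn Γ) x = p • (g x) := rfl
    rw [h3, nsmul_eq_mul] at h2
    exact h2
  refine (Submodule.Quotient.mk_eq_zero _).2 ?_
  rcases Ω.eq_empty_or_nonempty with h0 | ⟨x0, hx0⟩
  · refine ⟨0, fun x hx => ?_⟩
    rw [h0] at hx
    exact absurd hx (Set.notMem_empty x)
  · refine ⟨g x0, fun x hx => ?_⟩
    have h2 := (h1 x hx).trans (h1 x0 hx0).symm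
    exact mul_left_cancel₀ (Int.natCast_ne_zero.2 hp) h2

theorem noeth {Γ : AddSubgroup ℝ} (h : Γ.FG) : IsNoetherianRing (AddMonoidAlgebra ℤ Γ) := by
  have : AddGroup.FG Γ := (AddGroup.fg_iff_addSubgroup_fg Γ).2 h
  have : AddMonoid.FG Γ := AddGroup.fg_iff_addMonoid_fg.1 ‹_›
  exact Algebra.FiniteType.isNoetherianRing ℤ (AddMonoidAlgebra ℤ Γ)

end APd
end

section

/-!
# AP R3a: the rows satisfy the homogeneous system

PROOF. Fix `δ ∈ K`, `y`. By definition of `MM` (a sum of `single y_i (single x_i 1)`, where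
`(x_i, y_i) = j δ • t i`) and `act_single`, the value of the left hand side at `y` is
`∑ i, single x_i 1 • GG S.adm f j (δ * r i) (y - y_i)` (exchange the two sums; for each `i` exactly one `ε`).
If `y ∉ Ω` then `y - y_i ∉ Ω` for all `i` and all terms vanish. If `y ∈ Ω`: all `y - y_i ∈ Ω` and the sum is
the class of the function `x ↦ ∑ i, rs (fun z => f ((j (δ * r i))⁻¹ • z)) (x - x_i) (y - y_i)`
(`Fn.smul_apply` for a `single`). For `x ∈ Ω` this is
`∑ i, ∑ᶠ k, f ((j (δ r_i))⁻¹ • ((x + k, y) - co (j δ • t i)))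
  = ∑ᶠ k, ∑ i, f ((ρ i)⁻¹ • ((j δ)⁻¹ • (x + k, y) - co (t i))) = ∑ᶠ k, Lf ((j δ)⁻¹ • (x + k, y))`
(finite sums because `f` has bounded support, `finsum_sum_comm` or similar; `co_smul`, `hr`, and `S.eq` at the point
`(j δ)⁻¹ • (x + k, y) ∈ Ω ×ˢ Ω`). By `Lf_row` it does not depend on `x ∈ Ω`, so its class modulo `cst` is `0`.
-/

open Set Topology Finset

namespace APd

private lemma r3a_add_int_mem {Γ : AddSubgroup ℝ} {Ω : Set ℝ} (h : Adm Γ Ω) {x : ℝ} (hx : x ∈ Ω)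
    (m : ℤ) : x + m ∈ Ω := by
  have h1 : (m : ℝ) ∈ Γ := by
    have := Γ.zsmul_mem h.one_mem m
    simpa using this
  exact h.add x hx _ h1

private lemma r3a_units_smul_mem {Γ : AddSubgroup ℝ} {Ω : Set ℝ} (h : Adm Γ Ω) {x : ℝ}
    (hx : x ∈ Ω) (a : ℤˣ) : a • x ∈ Ω := by
  rcases Int.units_eq_one_or a with rfl | rfl
  · simpa using hx
  · simpa [Units.smul_def] using h.neg x hx

private lemma r3a_smul_mem {Γ : AddSubgroup ℝ} {Ω : Set ℝ} (h : Adm Γ Ω) (g : SP) {x y : ℝ}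
    (hx : x ∈ Ω) (hy : y ∈ Ω) : g • ((x, y) : ℝ × ℝ) ∈ Ω ×ˢ Ω := by
  obtain ⟨s, a, b⟩ := g
  cases s
  · exact ⟨r3a_units_smul_mem h hx a, r3a_units_smul_mem h hy b⟩
  · exact ⟨r3a_units_smul_mem h hy a, r3a_units_smul_mem h hx b⟩

private lemma r3a_abs (a : ℤˣ) (y : ℝ) : |a • y| = |y| := by
  rcases Int.units_eq_one_or a with rfl | rfl
  · simp
  · simp [Units.smul_def]

private lemma r3a_sub_mem {Γ : AddSubgroup ℝ} {Ω : Set ℝ} (h : Adm Γ Ω) {y : ℝ} (u : Γ) :
    y - u ∈ Ω ↔ y ∈ Ω := by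
  constructor
  · intro hy
    have := h.add _ hy u u.2
    rwa [sub_add_cancel] at this
  · intro hy
    have := h.add y hy (-u) (neg_mem u.2)
    rwa [← sub_eq_add_neg] at this

private lemma r3a_fin {f : ℝ × ℝ → ℤ} {R : ℝ} (hR : ∀ z, f z ≠ 0 → |z.1| ≤ R ∧ |z.2| ≤ R)
    (g : SP) (a b : ℝ) : (Function.support fun k : ℤ => f (g • (a + (k : ℝ), b))).Finite := by
  refine (Set.finite_Icc (⌈-R - a⌉) (⌊R - a⌋)).subset ?_
  intro k hk
  have h1 := hR _ hk
  have h2 : |a + (k : ℝ)| ≤ R := by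
    obtain ⟨s, u, v⟩ := g
    cases s
    · have h3 : |u • (a + (k : ℝ))| ≤ R := h1.1
      rwa [r3a_abs] at h3
    · have h3 : |v • (a + (k : ℝ))| ≤ R := h1.2
      rwa [r3a_abs] at h3
  obtain ⟨h3, h4⟩ := abs_le.1 h2
  exact ⟨Int.ceil_le.2 (by linarith), Int.le_floor.2 (by linarith)⟩

private lemma r3a_row {ι K : Type} [Fintype ι] [Group K] {Γ : AddSubgroup ℝ}
    {Ω : Set ℝ} {f : ℝ × ℝ → ℤ} {ρ : ι → SP} {t : ι → Γ × Γ} (S : Sys ι Γ Ω f ρ t) (j : K →* SP)
    (r : ι → K) (hr : ∀ i, j (r i) = ρ i) (δ : K) {x y : ℝ} (hx : x ∈ Ω) (hy : y ∈ Ω) :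
    ∑ i, rs (fun z => f ((j (δ * r i))⁻¹ • z)) (x - ((j δ • t i).1 : ℝ)) (y - ((j δ • t i).2 : ℝ)) =
      rs (fun z => Lf ((j δ)⁻¹ • z)) x y := by
  obtain ⟨R, hR⟩ := S.bdd
  unfold rs
  rw [← finsum_sum_comm]
  · refine finsum_congr fun k => ?_
    beta_reduce
    rw [← S.eq _ (r3a_smul_mem S.adm (j δ)⁻¹ (r3a_add_int_mem S.adm hx k) hy)]
    refine Finset.sum_congr rfl fun i _ => ?_
    congr 1
    have h1 : ((x - ((j δ • t i).1 : ℝ) + (k : ℝ), y - ((j δ • t i).2 : ℝ)) : ℝ × ℝ) =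
        (x + (k : ℝ), y) - j δ • co Γ (t i) := by
      rw [← co_smul, co_apply]
      refine Prod.ext ?_ rfl
      change x - ((j δ • t i).1 : ℝ) + (k : ℝ) = x + (k : ℝ) - ((j δ • t i).1 : ℝ)
      ring
    rw [h1, map_mul, mul_inv_rev, mul_smul, hr i]
    congr 1
    rw [smul_sub, inv_smul_smul]
  · intro i _
    exact r3a_fin hR _ _ _

theorem R3a {ι K : Type} [Fintype ι] [Fintype K] [Group K] [DecidableEq K] {Γ : AddSubgroup ℝ}
    {Ω : Set ℝ} {f : ℝ × ℝ → ℤ} {ρ : ι → SP} {t : ι → Γ × Γ} (S : Sys ι Γ Ω f ρ t) (j : K →* SP)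
    (r : ι → K) (hr : ∀ i, j (r i) = ρ i) (δ : K) :
    ∑ ε, act (A := AddMonoidAlgebra ℤ Γ) (N := Fn Γ ⧸ cst Γ Ω S.adm) Γ.subtype (MM j r t δ ε)
      (GG S.adm f j ε) = 0 := by
  have key : ∀ y : ℝ, (∑ ε, act (A := AddMonoidAlgebra ℤ Γ) (N := Fn Γ ⧸ cst Γ Ω S.adm) Γ.subtype
      (MM j r t δ ε) (GG S.adm f j ε)) y =
      ∑ i, (AddMonoidAlgebra.single (j δ • t i).1 1 : AddMonoidAlgebra ℤ Γ) •
        GG S.adm f j (δ * r i) (y - ((j δ • t i).2 : ℝ)) := by
    intro y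
    simp only [MM, Matrix.of_apply, map_sum, LinearMap.sum_apply, Finset.sum_apply]
    rw [Finset.sum_comm]
    refine Finset.sum_congr rfl fun i _ => ?_
    rw [Finset.sum_eq_single (δ * r i)]
    · rw [if_pos rfl, act_single]
      rfl
    · intro ε _ hε
      rw [if_neg (Ne.symm hε), map_zero]
      rfl
    · intro h
      exact absurd (Finset.mem_univ _) h
  funext y
  rw [key y]
  by_cases hy : y ∈ Ω
  · have h1 : ∀ i, (AddMonoidAlgebra.single (j δ • t i).1 1 : AddMonoidAlgebra ℤ Γ) •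
        GG S.adm f j (δ * r i) (y - ((j δ • t i).2 : ℝ)) =
        (cst Γ Ω S.adm).mkQ ((AddMonoidAlgebra.single (j δ • t i).1 1 : AddMonoidAlgebra ℤ Γ) •
          rowFn Γ (fun z => f ((j (δ * r i))⁻¹ • z)) (y - ((j δ • t i).2 : ℝ))) := by
      intro i
      unfold GG
      rw [if_pos ((r3a_sub_mem S.adm _).2 hy), map_smul]
      rfl
    rw [Finset.sum_congr rfl fun i _ => h1 i, ← map_sum]
    refine (Submodule.Quotient.mk_eq_zero _).2 ?_
    obtain ⟨c, hc⟩ := Lf_row S.adm (j δ)⁻¹ hy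
    refine ⟨c, fun x hx => ?_⟩
    rw [← hc x hx, ← r3a_row S j r hr δ hx hy]
    have h2 : ∀ F : ι → Fn Γ, (∑ i, F i : Fn Γ) x = ∑ i, F i x := by
      intro F
      exact Finset.sum_apply x Finset.univ (F : ι → ℝ → ℤ)
    rw [h2]
    refine Finset.sum_congr rfl fun i _ => ?_
    rw [Fn.smul_apply, AddMonoidAlgebra.coeff_single, Finsupp.sum_single_index (by simp), one_mul]
    rfl
  · refine Finset.sum_eq_zero fun i _ => ?_
    unfold GG
    rw [if_neg fun h => hy ((r3a_sub_mem S.adm _).1 h), smul_zero]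

end APd
end

section

/-!
# AP R3: the prime of a system whose rows are not killed

PROOF. `A := ℤ[Γ]` is noetherian (`noeth`, `S.fg`). Let `M` be the kernel of the composition
`A → ℤ → ZMod p` of `aug ℤ Γ` and the cast, a prime ideal (`p` prime, `RingHom.ker_isPrime`);
`a ∈ M ↔ (p : ℤ) ∣ aug ℤ Γ a` (`ZMod.intCast_zmod_eq_zero_iff_dvd`). Apply `R1` with this `M`, `π := (p : A)`,
`N := Fn Γ ⧸ cst Γ Ω S.adm`, `X := Γ`, `θ := Γ.subtype`, `κ := K`, `G := GG S.adm f j`: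
`tf` is `GG_tf`, `hfin` is `GG_range`, `hbdd` is `GG_bdd`. `hnk`: for `s ∉ M` the hypothesis gives `k` with
`¬ KillsRows Ω s (fun z => f ((j k)⁻¹ • z))`, i.e. a `y ∈ Ω` such that no `c` satisfies
`∀ x ∈ Ω, s.coeff.sum (fun u a => a * rs .. (x - u) y) = c`, which says that `s • rowFn ..` is not in `cst`
(`Fn.smul_apply`), i.e. `s • GG S.adm f j k y ≠ 0` (`Submodule.Quotient.mk_smul`, `mk_eq_zero`).
The ideal `q` of `R1` has the first three properties. Last one: take `D := (MM j r t).det`. By `S3`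
(with `A := ℤ[Γ]`, `a := act Γ.subtype`, `w = 0`, from `R3a`) `act Γ.subtype D (GG S.adm f j k) = 0` for all `k`; evaluate at
`y` with `act_apply`.
-/

open Set Topology Finset

namespace APd

theorem R3 {ι K : Type} [Fintype ι] [Fintype K] [Group K] [DecidableEq K] {Γ : AddSubgroup ℝ}
    {Ω : Set ℝ} {f : ℝ × ℝ → ℤ} {ρ : ι → SP} {t : ι → Γ × Γ} (S : Sys ι Γ Ω f ρ t) (j : K →* SP)
    (r : ι → K) (hr : ∀ i, j (r i) = ρ i) {p : ℕ} (hp : p.Prime)
    (hnk : ∀ s : AddMonoidAlgebra ℤ Γ, ¬ (p : ℤ) ∣ aug ℤ Γ s →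
      ∃ k : K, ¬ KillsRows Ω s fun z => f ((j k)⁻¹ • z)) :
    ∃ q : Ideal (AddMonoidAlgebra ℤ Γ), q.IsPrime ∧ (∀ a ∈ q, (p : ℤ) ∣ aug ℤ Γ a) ∧
      (p : AddMonoidAlgebra ℤ Γ) ∉ q ∧ ∀ v, (MM j r t).det.coeff v ∈ q := by
  have := noeth S.fg
  have : Fact p.Prime := ⟨hp⟩
  let φ : AddMonoidAlgebra ℤ Γ →+* ZMod p := (Int.castRingHom (ZMod p)).comp (aug ℤ Γ)
  have hmem : ∀ a : AddMonoidAlgebra ℤ Γ, a ∈ RingHom.ker φ ↔ (p : ℤ) ∣ aug ℤ Γ a := by
    intro a
    rw [RingHom.mem_ker]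
    exact ZMod.intCast_zmod_eq_zero_iff_dvd (aug ℤ Γ a) p
  have hM : (RingHom.ker φ).IsPrime := RingHom.ker_isPrime φ
  obtain ⟨q, hq, hqM, hπ, hD⟩ := R1 (RingHom.ker φ) (p : AddMonoidAlgebra ℤ Γ)
    (N := Fn Γ ⧸ cst Γ Ω S.adm) (GG_tf S.adm hp.ne_zero) Γ.subtype Subtype.val_injective
    (GG S.adm f j) (GG_range S j) (GG_bdd S j) (by
      intro s hs
      have hs' : ¬ (p : ℤ) ∣ aug ℤ Γ s := fun h => hs ((hmem s).2 h)
      obtain ⟨k, hk⟩ := hnk s hs'
      unfold KillsRows at hk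
      push Not at hk
      obtain ⟨y, hy, hc⟩ := hk
      refine ⟨k, y, ?_⟩
      unfold GG
      rw [if_pos hy, ← Submodule.Quotient.mk_smul]
      intro h0
      rw [Submodule.Quotient.mk_eq_zero] at h0
      obtain ⟨c, hc'⟩ := h0
      obtain ⟨x, hx, hne⟩ := hc c
      apply hne
      rw [← hc' x hx, Fn.smul_apply]
      rfl)
  refine ⟨q, hq, fun a ha => (hmem a).1 (hqM ha), hπ, hD _ ?_⟩
  intro k y
  have h3 := S3 (act (A := AddMonoidAlgebra ℤ Γ) (N := Fn Γ ⧸ cst Γ Ω S.adm) Γ.subtype)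
    (MM j r t) (GG S.adm f j) (fun _ => 0) (R3a S j r hr) k
  simp only [map_zero, Finset.sum_const_zero] at h3
  have h4 := congrFun h3 y
  rw [act_apply] at h4
  exact h4

end APd
end

section

/-!
# AP S8: the piece is a union of cells of a finite grid

PROOF. `E := Egood Γ P` (dense by `S1`; `P` is closed; invariant under `SP` and under translations by
`co Γ v`: `Egood.smul`, `Egood.add`). For `δ ∈ SP` let
`F δ z := if z ∈ E then ind P (δ⁻¹ • z) else 0`, `w δ z := if z ∈ E then Lf (δ⁻¹ • z) else 0`,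
`M δ ε := ∑ i, if δ * ρ i = ε then single (δ • t i) 1 else 0` in `AddMonoidAlgebra ℤ (Γ × Γ)`.
(a) `∑ ε, act (co Γ) (M δ ε) (F ε) = w δ` for all `δ`: the value at `z` is
`∑ i, F (δ * ρ i) (z - co (δ • t i))` (`act_single`). If `z ∉ E` then no `z - co v` is in `E` and both sides
are `0`. If `z ∈ E`: `(δ ρ_i)⁻¹ • (z - co (δ • t i)) = (ρ i)⁻¹ • (δ⁻¹ • z - co (t i))` (`co_smul`), and `S2` at the good point
`δ⁻¹ • z`.
(b) `M.det ≠ 0`: apply the ring homomorphism `aug ℤ (Γ × Γ)` entrywise: `M.map aug = M0 ρ`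
(`aug_single`), so `aug (M.det) = (M0 ρ).det` (`RingHom.map_det`), which is odd by `S8odd`.
(c) `S3`: `act (co Γ) M.det (F 1) = ∑ ε, act (co Γ) (M.adjugate 1 ε) (w ε)`, cell-constant on `E` by
`S6a, S6b, S6c` (each `w ε` is `CellConst {-2,-1,0,1,2} E`). `F 1` has bounded support (`P` is bounded).
`S5` gives `C` with `CellConst C E (F 1)`, hence `CellConst C E (ind P)` (`F 1 = ind P` on `E`). Apply `S7`.
-/

open Set Topology Finset

namespace APd

open Classical in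
private noncomputable def s8F (Γ : AddSubgroup ℝ) (P : Set (ℝ × ℝ)) (δ : SP) (z : ℝ × ℝ) : ℤ :=
  if z ∈ Egood Γ P then ind P (δ⁻¹ • z) else 0

open Classical in
private noncomputable def s8w (Γ : AddSubgroup ℝ) (P : Set (ℝ × ℝ)) (δ : SP) (z : ℝ × ℝ) : ℤ :=
  if z ∈ Egood Γ P then Lf (δ⁻¹ • z) else 0

private noncomputable def s8M {ι : Type} [Fintype ι] {Γ : AddSubgroup ℝ} (ρ : ι → SP)
    (t : ι → Γ × Γ) : Matrix SP SP (AddMonoidAlgebra ℤ (Γ × Γ)) :=
  Matrix.of fun δ ε => ∑ i, if δ * ρ i = ε then AddMonoidAlgebra.single (δ • t i) 1 else 0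

private lemma s8_eq {ι : Type} [Fintype ι] {Γ : AddSubgroup ℝ} {P : Set (ℝ × ℝ)} {ρ : ι → SP}
    {t : ι → Γ × Γ} (h : Diss ι P ρ fun i => co Γ (t i)) (δ : SP) :
    ∑ ε, act (co Γ) (s8M ρ t δ ε) (s8F Γ P ε) = s8w Γ P δ := by
  classical
  funext z
  rw [Finset.sum_apply]
  have h1 : ∀ ε, act (co Γ) (s8M ρ t δ ε) (s8F Γ P ε) z =
      ∑ i, if δ * ρ i = ε then s8F Γ P ε (z - co Γ (δ • t i)) else 0 := by
    intro ε
    simp only [s8M, Matrix.of_apply, map_sum, LinearMap.sum_apply, Finset.sum_apply]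
    refine Finset.sum_congr rfl fun i _ => ?_
    split_ifs
    · rw [act_single, one_smul]
    · simp
  simp only [h1]
  rw [Finset.sum_comm]
  have h2 : ∀ i, (∑ ε, if δ * ρ i = ε then s8F Γ P ε (z - co Γ (δ • t i)) else 0) =
      s8F Γ P (δ * ρ i) (z - co Γ (δ • t i)) := by
    intro i
    rw [Finset.sum_ite_eq]
    simp
  simp only [h2]
  by_cases hz : z ∈ Egood Γ P
  · have hz' : δ⁻¹ • z ∈ Egood Γ P := Egood.smul hz _
    have h3 := S2 h (δ⁻¹ • z) hz'
    rw [s8w, if_pos hz, ← h3]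
    refine Finset.sum_congr rfl fun i _ => ?_
    have hm : z - co Γ (δ • t i) ∈ Egood Γ P := by
      have := Egood.add hz (-(δ • t i))
      rwa [map_neg, ← sub_eq_add_neg] at this
    rw [s8F, if_pos hm, mul_inv_rev, mul_smul, co_smul, smul_sub, inv_smul_smul]
  · rw [s8w, if_neg hz]
    refine Finset.sum_eq_zero fun i _ => ?_
    have hm : z - co Γ (δ • t i) ∉ Egood Γ P := by
      intro hm
      apply hz
      have := Egood.add hm (δ • t i)
      rwa [sub_add_cancel] at this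
    rw [s8F, if_neg hm]

private lemma s8_det {ι : Type} [Fintype ι] (hodd : Odd (Fintype.card ι)) {Γ : AddSubgroup ℝ}
    (ρ : ι → SP) (t : ι → Γ × Γ) : (s8M ρ t).det ≠ 0 := by
  intro h0
  have h1 := RingHom.map_det (aug ℤ (Γ × Γ)) (s8M ρ t)
  have h2 : (aug ℤ (Γ × Γ)).mapMatrix (s8M ρ t) = M0 ρ := by
    ext δ ε
    simp only [s8M, M0, RingHom.mapMatrix_apply, Matrix.map_apply, Matrix.of_apply, map_sum]
    refine Finset.sum_congr rfl fun i _ => ?_
    split_ifs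
    · exact aug_single _ _
    · exact map_zero _
  rw [h0, map_zero, h2] at h1
  have h3 := S8odd hodd ρ
  rw [← h1] at h3
  simp at h3

theorem S8 {ι : Type} [Fintype ι] (hodd : Odd (Fintype.card ι)) {Γ : AddSubgroup ℝ}
    (hΓ : Countable Γ) {P : Set (ℝ × ℝ)} {ρ : ι → SP} {t : ι → Γ × Γ}
    (h : Diss ι P ρ fun i => co Γ (t i)) :
    ∃ C : Finset ℝ, (∀ z z', OffGrid C z → SameCell C z z' → (z ∈ P ↔ z' ∈ P)) ∧
      ∀ z, OffGrid C z → z ∉ frontier P := by
  have hcl : IsClosed P := h.compact.isClosed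
  have hEd : Dense (Egood Γ P) := S1 Γ hΓ P hcl
  have hEadd : ∀ z ∈ Egood Γ P, ∀ v : Γ × Γ, z + co Γ v ∈ Egood Γ P := fun z hz v =>
    Egood.add hz v
  have h3 := S3 (act (co Γ)) (s8M ρ t) (s8F Γ P) (s8w Γ P) (s8_eq h) 1
  have hw : ∀ ε, CellConst {-2, -1, 0, 1, 2} (Egood Γ P) (s8w Γ P ε) := by
    intro ε z hz z' hz' hc
    rw [s8w, s8w, if_pos hz, if_pos hz']
    exact S6c ε⁻¹ z z' hc
  obtain ⟨C1, hC1⟩ := S6b Finset.univ (Egood Γ P)
    (fun ε => act (co Γ) ((s8M ρ t).adjugate 1 ε) (s8w Γ P ε))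
    (fun ε _ => S6a (Egood Γ P) hEadd _ _ _ (hw ε))
  rw [← h3] at hC1
  have hb : ∃ R : ℝ, ∀ z, s8F Γ P 1 z ≠ 0 → |z.1| ≤ R ∧ |z.2| ≤ R := by
    obtain ⟨R, hR⟩ := h.compact.isBounded.subset_closedBall (0 : ℝ × ℝ)
    refine ⟨R, fun z hz => ?_⟩
    have hzP : z ∈ P := by
      by_contra hn
      apply hz
      rw [s8F, inv_one, one_smul, ind, if_neg hn]
      split_ifs <;> rfl
    have h4 : ‖z‖ ≤ R := by simpa using hR hzP
    exact ⟨(norm_fst_le z).trans h4, (norm_snd_le z).trans h4⟩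
  obtain ⟨C, hC⟩ := S5 (Egood Γ P) hEadd (s8M ρ t).det (s8_det hodd ρ t) (s8F Γ P 1) _ hb C1 hC1
    (fun z _ => rfl)
  have hCP : CellConst C (Egood Γ P) (ind P) := by
    intro z hz z' hz' hc
    have h5 := hC z hz z' hz' hc
    rwa [s8F, s8F, if_pos hz, if_pos hz', inv_one, one_smul, one_smul] at h5
  exact ⟨C, S7 P h.reg (Egood Γ P) hEd C hCP⟩

end APd
end

section

/-!
# AP S9: the system of a dissection

PROOF. Let `Γ := AddSubgroup.closure ({1} ∪ all coordinates of the t i)`, finitely generated, hence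
countable (`AddSubgroup.fg_iff`, countable closure of a finite set); `t' i` the vector `t i` as an element
of `Γ × Γ`. `S8` gives `C`. Let `B := {c + u, -c + u : c ∈ C ∪ {0}, u ∈ Γ}`, countable, and `Ω := Bᶜ`.
`Adm Γ Ω`: `1 ∈ Γ`; `x ∈ Ω`, `u ∈ Γ` give `x + u ∈ Ω` and `-x ∈ Ω` (`B` is invariant); integers are in `Γ`,
hence in `B` (`c = 0`); `Ωᶜ = B` is countable.
`Sys`: `bdd` from compactness of `P` (`IsCompact.isBounded`); `cell`: for `z, z' ∈ Ω ×ˢ Ω` with
`SameCell C z z'` use the property of `C` (`z` is off the grid because `c ∈ B` for `c ∈ C`);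
`eq`: a point `z ∈ Ω ×ˢ Ω` is in `Egood Γ P`, because `g • z + co v ∈ Ω ×ˢ Ω` is off the grid, hence not in the
frontier. Now `S2`.
-/

open Set Topology Finset

namespace APd

private lemma S9_countable_closure (S : Set ℝ) (hS : S.Countable) :
    Countable (AddSubgroup.closure S) := by
  have : Countable S := hS.to_subtype
  have h1 : (AddSubgroup.closure S : Set ℝ) =
      Set.range (Finsupp.linearCombination ℤ (fun s : S => (s : ℝ))) := by
    have h2 := Finsupp.range_linearCombination ℤ (v := fun s : S => (s : ℝ))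
    rw [Subtype.range_coe] at h2
    have h3 : ((LinearMap.range (Finsupp.linearCombination ℤ (fun s : S => (s : ℝ))) : Submodule ℤ ℝ) : Set ℝ)
        = ((Submodule.span ℤ S : Submodule ℤ ℝ) : Set ℝ) := by rw [h2]
    rw [LinearMap.coe_range] at h3
    rw [h3, ← Submodule.coe_toAddSubgroup, Submodule.span_int_eq_addSubgroupClosure]
  have h4 : (AddSubgroup.closure S : Set ℝ).Countable := by
    rw [h1]
    exact Set.countable_range _
  exact h4.to_subtype

/-- the bad coordinates -/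
private def S9B (Γ : AddSubgroup ℝ) (C : Finset ℝ) : Set ℝ :=
  ⋃ c ∈ (insert 0 C : Finset ℝ), (Set.range (fun u : Γ => c + (u : ℝ)) ∪
    Set.range (fun u : Γ => -c + (u : ℝ)))

private lemma mem_S9B {Γ : AddSubgroup ℝ} {C : Finset ℝ} {x : ℝ} :
    x ∈ S9B Γ C ↔ ∃ c ∈ (insert 0 C : Finset ℝ), (x - c ∈ Γ ∨ x + c ∈ Γ) := by
  unfold S9B
  simp only [Set.mem_iUnion, Set.mem_union, Set.mem_range, exists_prop]
  refine exists_congr fun c => and_congr_right fun _ => or_congr ?_ ?_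
  · constructor
    · rintro ⟨u, rfl⟩
      simp
    · intro h
      exact ⟨⟨x - c, h⟩, by simp⟩
  · constructor
    · rintro ⟨u, rfl⟩
      simp
    · intro h
      exact ⟨⟨x + c, h⟩, by simp⟩

private lemma S9_cnt {Γ : AddSubgroup ℝ} (hΓ : Countable Γ) (C : Finset ℝ) :
    (S9B Γ C).Countable := by
  unfold S9B
  refine Set.Countable.biUnion (Finset.countable_toSet _) fun c _ => ?_
  exact (Set.countable_range _).union (Set.countable_range _)

private lemma S9_adm {Γ : AddSubgroup ℝ} (hΓ : Countable Γ) (h1 : (1 : ℝ) ∈ Γ) (C : Finset ℝ) :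
    Adm Γ (S9B Γ C)ᶜ where
  one_mem := h1
  add x hx u hu := by
    intro hb
    apply hx
    rw [mem_S9B] at hb ⊢
    obtain ⟨c, hc, h | h⟩ := hb
    · refine ⟨c, hc, Or.inl ?_⟩
      have := Γ.sub_mem h hu
      convert this using 1
      ring
    · refine ⟨c, hc, Or.inr ?_⟩
      have := Γ.sub_mem h hu
      convert this using 1
      ring
  neg x hx := by
    intro hb
    apply hx
    rw [mem_S9B] at hb ⊢
    obtain ⟨c, hc, h | h⟩ := hb
    · refine ⟨c, hc, Or.inr ?_⟩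
      have := Γ.neg_mem h
      convert this using 1
      ring
    · refine ⟨c, hc, Or.inl ?_⟩
      have := Γ.neg_mem h
      convert this using 1
      ring
  int x hx k hk := by
    apply hx
    rw [mem_S9B]
    refine ⟨0, Finset.mem_insert_self _ _, Or.inl ?_⟩
    rw [sub_zero, hk]
    have := Γ.zsmul_mem h1 k
    simpa using this
  cnt := by
    rw [compl_compl]
    exact S9_cnt hΓ C

private lemma S9_off {Γ : AddSubgroup ℝ} {C : Finset ℝ} {z : ℝ × ℝ}
    (hz : z ∈ (S9B Γ C)ᶜ ×ˢ (S9B Γ C)ᶜ) : OffGrid C z := by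
  intro c hc
  constructor
  · intro h
    apply hz.1
    rw [mem_S9B]
    refine ⟨c, Finset.mem_insert_of_mem hc, Or.inl ?_⟩
    rw [h, sub_self]
    exact Γ.zero_mem
  · intro h
    apply hz.2
    rw [mem_S9B]
    refine ⟨c, Finset.mem_insert_of_mem hc, Or.inl ?_⟩
    rw [h, sub_self]
    exact Γ.zero_mem

private lemma Adm.smul_mem {Γ : AddSubgroup ℝ} {Ω : Set ℝ} (h : Adm Γ Ω) {z : ℝ × ℝ}
    (hz : z ∈ Ω ×ˢ Ω) (g : SP) : g • z ∈ Ω ×ˢ Ω := by
  have key : ∀ (a : ℤˣ) (x : ℝ), x ∈ Ω → a • x ∈ Ω := by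
    intro a x hx
    rcases Int.units_eq_one_or a with rfl | rfl
    · simpa using hx
    · simpa [Units.smul_def] using h.neg x hx
  obtain ⟨s, a, b⟩ := g
  rw [SP.smul_def]
  cases s
  · exact ⟨key _ _ hz.1, key _ _ hz.2⟩
  · exact ⟨key _ _ hz.2, key _ _ hz.1⟩

private lemma Adm.add_mem {Γ : AddSubgroup ℝ} {Ω : Set ℝ} (h : Adm Γ Ω) {z : ℝ × ℝ}
    (hz : z ∈ Ω ×ˢ Ω) (v : Γ × Γ) : z + co Γ v ∈ Ω ×ˢ Ω := by
  rw [co_apply]
  exact ⟨h.add _ hz.1 _ v.1.2, h.add _ hz.2 _ v.2.2⟩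

theorem S9 {ι : Type} [Fintype ι] (hodd : Odd (Fintype.card ι)) {P : Set (ℝ × ℝ)} {ρ : ι → SP}
    {t : ι → ℝ × ℝ} (h : Diss ι P ρ t) :
    ∃ (Γ : AddSubgroup ℝ) (Ω : Set ℝ) (t' : ι → Γ × Γ), (∀ i, co Γ (t' i) = t i) ∧
      Sys ι Γ Ω (ind P) ρ t' := by
  classical
  set S : Set ℝ := {1} ∪ (Set.range (fun i => (t i).1) ∪ Set.range (fun i => (t i).2)) with hS
  have hSf : S.Finite :=
    (Set.finite_singleton _).union ((Set.finite_range _).union (Set.finite_range _))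
  set Γ : AddSubgroup ℝ := AddSubgroup.closure S with hΓ
  have hcnt : Countable Γ := S9_countable_closure S hSf.countable
  have hfg : Γ.FG := (AddSubgroup.fg_iff Γ).2 ⟨S, rfl, hSf⟩
  have h1 : (1 : ℝ) ∈ Γ := AddSubgroup.subset_closure (Or.inl rfl)
  have hx1 : ∀ i, (t i).1 ∈ Γ := fun i =>
    AddSubgroup.subset_closure (Or.inr (Or.inl ⟨i, rfl⟩))
  have hx2 : ∀ i, (t i).2 ∈ Γ := fun i =>
    AddSubgroup.subset_closure (Or.inr (Or.inr ⟨i, rfl⟩))
  let t' : ι → Γ × Γ := fun i => (⟨(t i).1, hx1 i⟩, ⟨(t i).2, hx2 i⟩)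
  have ht' : ∀ i, co Γ (t' i) = t i := fun i => rfl
  have hD : Diss ι P ρ fun i => co Γ (t' i) := h
  obtain ⟨C, hC1, hC2⟩ := S8 hodd hcnt hD
  have hadm := S9_adm hcnt h1 C
  refine ⟨Γ, (S9B Γ C)ᶜ, t', ht', hfg, hadm, ?_, ⟨C, ?_⟩, ?_⟩
  · obtain ⟨R, hR⟩ := h.compact.isBounded.subset_closedBall (0 : ℝ × ℝ)
    refine ⟨R, fun z hz => ?_⟩
    have hzP : z ∈ P := by
      by_contra hcon
      apply hz
      simp [ind, hcon]
    have h3 := hR hzP
    rw [mem_closedBall_zero_iff, Prod.norm_def, max_le_iff] at h3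
    exact ⟨by simpa using h3.1, by simpa using h3.2⟩
  · intro z hz z' hz' hsc
    have := hC1 z z' (S9_off hz) hsc
    simp only [ind, this]
  · intro z hz
    apply S2 hD
    intro g v
    exact hC2 _ (S9_off (hadm.add_mem (hadm.smul_mem hz g) v))

end APd
end

section

/-!
# AP R5: with a swap, `p²` divides the group determinant

PROOF. `hnk` of `R3`: let `s` with `¬ p ∣ aug s`, and suppose `KillsRows Ω s (fun z => f ((j k)⁻¹ • z))`
for all `k`. With `k = 1`: `KillsRows Ω s f`. With `k = k₀`: write `j k₀ = ⟨true, a, b⟩`, so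
`(j k₀)⁻¹ • (x, y) = (b • y, a • x)`. So for all `y ∈ Ω` the function
`x ↦ ∑_u s_u rs (fun z => f (b • z.2, a • z.1)) (x - u) y` is constant on `Ω`. Let `s' := s` with `u` replaced by `a • u`
(`AddMonoidAlgebra.mapDomain`, `a = ±1`): then `KillsRows Ω s' (fun z => f z.swap)`: for `y' ∈ Ω` put `y := b • y' ∈ Ω`; for
`x' ∈ Ω`, `x := a • x'`, `rs (fun z => f z.swap) (x' - a • u) y' = ∑ᶠ k, f (y', x' - a • u + k) =
∑ᶠ k, f (b • y, a • (x - u + k)) = rs (fun z => f (b • z.2, a • z.1)) (x - u) y` (replace `k` by `a • k`). `aug s' = aug s`.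
By `R4` `p ∣ 3 * (aug s)^4 * (aug s)^4`, so `p ∣ 3` (`p` prime) or `p ∣ aug s`: impossible as `p > 3`. So `R3` applies and
`R5a` finishes.
-/

open Set Topology Finset

namespace APd

private lemma R5_swap {Γ : AddSubgroup ℝ} {Ω : Set ℝ} {f : ℝ × ℝ → ℤ} (hadm : Adm Γ Ω) (a b : ℤˣ)
    (s : AddMonoidAlgebra ℤ Γ) (h : KillsRows Ω s fun z => f (b • z.2, a • z.1)) :
    ∃ s' : AddMonoidAlgebra ℤ Γ, (KillsRows Ω s' fun z => f z.swap) ∧ aug ℤ Γ s' = aug ℤ Γ s := by
  have hneg : ∀ (c : ℤˣ) (x : ℝ), x ∈ Ω → c • x ∈ Ω := by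
    intro c x hx
    rcases Int.units_eq_one_or c with rfl | rfl
    · simpa using hx
    · simpa [Units.smul_def] using hadm.neg x hx
  have hcc : ∀ (c : ℤˣ) (x : ℝ), c • (c • x) = x := by
    intro c x
    rcases Int.units_eq_one_or c with rfl | rfl <;> simp [Units.smul_def]
  refine ⟨AddMonoidAlgebra.mapDomain (fun u => a • u) s, ?_, ?_⟩
  · intro y' hy'
    obtain ⟨c, hc⟩ := h (b • y') (hneg b y' hy')
    refine ⟨c, fun x' hx' => ?_⟩
    have h1 := hc (a • x') (hneg a x' hx')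
    rw [← h1]
    have h2 : (AddMonoidAlgebra.mapDomain (fun u : Γ => a • u) s).coeff =
        Finsupp.mapDomain (fun u : Γ => a • u) s.coeff := rfl
    rw [h2, Finsupp.sum_mapDomain_index (by intro u; simp) (by intro u m n; ring)]
    refine Finset.sum_congr rfl fun u _ => ?_
    have h3 : rs (fun z : ℝ × ℝ => f z.swap) (x' - ((a • u : Γ) : ℝ)) y' =
        rs (fun z : ℝ × ℝ => f (b • z.2, a • z.1)) (a • x' - (u : ℝ)) (b • y') := by
      unfold rs
      have h4 : ((a • u : Γ) : ℝ) = a • (u : ℝ) := by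
        rcases Int.units_eq_one_or a with rfl | rfl <;> simp [Units.smul_def]
      rw [h4]
      rcases Int.units_eq_one_or a with rfl | rfl
      · refine finsum_congr fun k => ?_
        simp only [Prod.swap_prod_mk, one_smul, hcc]
      · rw [← finsum_comp_equiv (Equiv.neg ℤ)]
        refine finsum_congr fun k => ?_
        simp only [Prod.swap_prod_mk, hcc]
        congr 2
        simp [Units.smul_def]
        ring
    simp only [h3]
  · rw [aug_apply, aug_apply]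
    have h2 : (AddMonoidAlgebra.mapDomain (fun u : Γ => a • u) s).coeff =
        Finsupp.mapDomain (fun u : Γ => a • u) s.coeff := rfl
    rw [h2, Finsupp.sum_mapDomain_index (by intro u; simp) (by intro u m n; ring)]

theorem R5 {ι K : Type} [Fintype ι] [Fintype K] [Group K] [DecidableEq K] {Γ : AddSubgroup ℝ}
    {Ω : Set ℝ} {f : ℝ × ℝ → ℤ} {ρ : ι → SP} {t : ι → Γ × Γ} (S : Sys ι Γ Ω f ρ t) (j : K →* SP)
    (r : ι → K) (hr : ∀ i, j (r i) = ρ i) {p : ℕ} (hp : p.Prime) (hp3 : 3 < p)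
    (hcard : Fintype.card ι = p) (k₀ : K) (hk : (j k₀).s = true) : (p : ℤ) ^ 2 ∣ (M0 r).det := by
  have hR3 : ∀ s : AddMonoidAlgebra ℤ Γ, ¬ (p : ℤ) ∣ aug ℤ Γ s →
      ∃ k : K, ¬ KillsRows Ω s fun z => f ((j k)⁻¹ • z) := by
    intro s hs
    by_contra hcon
    push Not at hcon
    have h1 : KillsRows Ω s f := by
      have := hcon 1
      simpa using this
    have h2 := hcon k₀
    obtain ⟨s', hs', haug⟩ : ∃ s' : AddMonoidAlgebra ℤ Γ,
        (KillsRows Ω s' fun z => f z.swap) ∧ aug ℤ Γ s' = aug ℤ Γ s := by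
      generalize hg : j k₀ = g at hk h2
      obtain ⟨gs, a, b⟩ := g
      simp only at hk
      subst hk
      refine R5_swap S.adm a b s ?_
      have h3 : (fun z : ℝ × ℝ => f ((⟨true, a, b⟩ : SP)⁻¹ • z)) =
          fun z : ℝ × ℝ => f (b • z.2, a • z.1) := by
        funext z
        simp [SP.inv_def, SP.smul_def]
      rwa [h3] at h2
    have h3 := R4 S s s' h1 hs'
    rw [haug, hcard] at h3
    have hpp : Prime (p : ℤ) := Nat.prime_iff_prime_int.mp hp
    rcases hpp.dvd_or_dvd h3 with h | h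
    · rcases hpp.dvd_or_dvd h with h | h
      · have := Int.le_of_dvd (by norm_num) h
        omega
      · exact hs (hpp.dvd_of_dvd_pow h)
    · exact hs (hpp.dvd_of_dvd_pow h)
  obtain ⟨q, hq, hq1, hq2, hq3⟩ := R3 S j r hr hp hR3
  exact R5a j r q hq hq1 hq2 hq3 k₀ hk

end APd
end

section

/-!
# AP F1: no dissection with diagonal linear parts
-/

open Set Topology Finset

namespace APd

theorem ind_nonneg (P : Set (ℝ × ℝ)) (z : ℝ × ℝ) : 0 ≤ ind P z := by
  unfold ind; split_ifs <;> norm_num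

theorem F1 {ι : Type} [Fintype ι] {p : ℕ} (hp : p.Prime) (hp3 : 3 < p)
    (hcard : Fintype.card ι = p) {Γ : AddSubgroup ℝ} {Ω : Set ℝ} {P : Set (ℝ × ℝ)} {ρ : ι → SP}
    {t : ι → Γ × Γ} (h : Diss ι P ρ fun i => co Γ (t i)) (S : Sys ι Γ Ω (ind P) ρ t)
    (hs : ∀ i, (ρ i).s = false) :
    ∃ s : AddMonoidAlgebra ℤ Γ, ¬ (p : ℤ) ∣ aug ℤ Γ s ∧ KillsRows Ω s (ind P) := by
  by_contra hcon
  push Not at hcon
  have hp2 : p ≠ 2 := by omega
  have hodd : Odd (Fintype.card ι) := hcard ▸ hp.odd_of_ne_two hp2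
  let r : ι → ℤˣ × ℤˣ := fun i => ((ρ i).a, (ρ i).b)
  have hr : ∀ i, j2 (r i) = ρ i := fun i => SP.ext' (hs i).symm rfl rfl
  obtain ⟨q, -, hq1, -, hq3⟩ := R3 S j2 r hr hp (fun s hs' => ⟨1, by simpa using hcon s hs'⟩)
  have hy := D2 S.fg hp hp2 hcard r t (fun v => hq1 _ (hq3 v))
  have hg := G2 hodd S (ind_nonneg P) hs hy
  exact G3 hp hp3 hcard h S hs hy hg.1 hg.2

theorem F2 {ι : Type} [Fintype ι] {p : ℕ} (hp : p.Prime) (hp3 : 3 < p)
    (hcard : Fintype.card ι = p) {P : Set (ℝ × ℝ)} {ρ : ι → SP} {t : ι → ℝ × ℝ}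
    (h : Diss ι P ρ t) (hs : ∀ i, (ρ i).s = false) : False := by
  have hp2 : p ≠ 2 := by omega
  have hodd : Odd (Fintype.card ι) := hcard ▸ hp.odd_of_ne_two hp2
  obtain ⟨Γ, Ω, t', ht, S⟩ := S9 hodd h
  have ht' : t = fun i => co Γ (t' i) := funext fun i => (ht i).symm
  subst ht'
  obtain ⟨s, hs1, hs2⟩ := F1 hp hp3 hcard h S hs
  have h' : Diss ι (Prod.swap ⁻¹' P) (fun i => (ρ i).tr) (fun i => co Γ ((t' i).swap)) := h.tr
  have S' : Sys ι Γ Ω (ind (Prod.swap ⁻¹' P)) (fun i => (ρ i).tr) (fun i => (t' i).swap) := S.tr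
  obtain ⟨s', hs1', hs2'⟩ := F1 hp hp3 hcard h' S' (fun i => hs i)
  have hd := R4 S s s' hs2 hs2'
  rw [hcard] at hd
  have hpp : Prime (p : ℤ) := Nat.prime_iff_prime_int.mp hp
  rcases hpp.dvd_or_dvd hd with h1 | h1
  · rcases hpp.dvd_or_dvd h1 with h2 | h2
    · have : (p : ℤ) ≤ 3 := Int.le_of_dvd (by norm_num) h2
      omega
    · exact hs1 (hpp.dvd_of_dvd_pow h2)
  · exact hs1' (hpp.dvd_of_dvd_pow h1)

end APd
end

section

/-!
# AP F3: the groups with a diagonal reflection and no quarter turn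
-/

open Set Topology Finset

namespace APd

/-- A sum of `p` signs which is divisible by the odd prime `p` is a sum of equal signs. -/
theorem const_of_dvd {ι : Type} [Fintype ι] {p : ℕ} (hp : p.Prime) (hp2 : p ≠ 2)
    (hcard : Fintype.card ι = p) (e : ι → ℤ) (he : ∀ i, e i = 1 ∨ e i = -1)
    (hd : (p : ℤ) ∣ ∑ i, e i) : ∀ i j, e i = e j := by
  classical
  set m := (univ.filter fun i => e i = -1).card with hm
  have h1 : ∑ i, e i = (p : ℤ) - 2 * m := by
    have h2 : ∀ i, e i = 1 - 2 * (if e i = -1 then 1 else 0) := by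
      intro i
      rcases he i with h | h <;> simp [h]
    rw [Finset.sum_congr rfl fun i _ => h2 i, Finset.sum_sub_distrib, ← Finset.mul_sum,
      Finset.sum_boole]
    simp [hcard, hm]
  rw [h1] at hd
  have h3 : (p : ℤ) ∣ 2 * m := by
    have := dvd_sub (dvd_refl (p : ℤ)) hd
    simpa using this
  have hpp : Prime (p : ℤ) := Nat.prime_iff_prime_int.mp hp
  have h4 : (p : ℤ) ∣ m := by
    rcases hpp.dvd_or_dvd h3 with h | h
    · exfalso
      have h5 : p ∣ 2 := by exact_mod_cast h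
      exact hp2 ((Nat.prime_dvd_prime_iff_eq hp Nat.prime_two).mp h5)
    · exact h
  have h5 : p ∣ m := by exact_mod_cast h4
  have h6 : m ≤ p := by
    rw [hm, ← hcard]
    exact Finset.card_le_univ _
  rcases Nat.eq_zero_or_pos m with h7 | h7
  · have h8 : ∀ i, e i = 1 := by
      intro i
      rcases he i with h | h
      · exact h
      · exfalso
        have : i ∈ univ.filter fun i => e i = -1 := by simp [h]
        rw [Finset.card_eq_zero.mp (hm ▸ h7 : (univ.filter fun i => e i = -1).card = 0)] at this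
        simp at this
    intro i j
    rw [h8 i, h8 j]
  · have h8 : m = p := le_antisymm h6 (Nat.le_of_dvd h7 h5)
    have h9 : (univ.filter fun i => e i = -1) = Finset.univ := by
      apply Finset.eq_univ_of_card
      rw [← hm, h8, hcard]
    have h10 : ∀ i, e i = -1 := by
      intro i
      have : i ∈ univ.filter fun i => e i = -1 := by rw [h9]; simp
      simpa using this
    intro i j
    rw [h10 i, h10 j]

/-- The group `{±1, ±τ}`. -/
def jK : ℤˣ × ℤˣ →* SP where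
  toFun g := ⟨decide (g.1 = -1), g.2, g.2⟩
  map_one' := by decide
  map_mul' := by decide

/-- The group `{1, τ}`. -/
def jC : ℤˣ →* SP where
  toFun g := ⟨decide (g = -1), 1, 1⟩
  map_one' := by decide
  map_mul' := by decide

/-- The group `{1, -τ}`. -/
def jC' : ℤˣ →* SP where
  toFun g := ⟨decide (g = -1), g, g⟩
  map_one' := by decide
  map_mul' := by decide

/-- The sign of a swap. -/
def sg (g : SP) : ℤˣ := if g.s then -1 else 1

theorem sg_cast (g : SP) : ((sg g : ℤˣ) : ℤ) = if g.s then -1 else 1 := by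
  unfold sg; split_ifs <;> simp

theorem decide_sg (g : SP) : decide (sg g = -1) = g.s := by
  unfold sg
  cases g.s <;> decide

theorem units_cast (u : ℤˣ) : (u : ℤ) = 1 ∨ (u : ℤ) = -1 := by
  rcases Int.units_eq_one_or u with h | h <;> simp [h]

/-- The case of two elements. -/
theorem F3c {ι : Type} [Fintype ι] {p : ℕ} (hp : p.Prime) (hp3 : 3 < p)
    (hcard : Fintype.card ι = p) {P : Set (ℝ × ℝ)} {ρ : ι → SP} {t : ι → ℝ × ℝ}
    (h : Diss ι P ρ t) (j : ℤˣ →* SP) (hj : (j (-1)).s = true) (r : ι → ℤˣ)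
    (hr : ∀ i, j (r i) = ρ i) {i0 i1 : ι} (h01 : r i0 ≠ r i1) : False := by
  have hp2 : p ≠ 2 := by omega
  have hodd : Odd (Fintype.card ι) := hcard ▸ hp.odd_of_ne_two hp2
  obtain ⟨Γ, Ω, t', ht, S⟩ := S9 hodd h
  have hpp : Prime (p : ℤ) := Nat.prime_iff_prime_int.mp hp
  have h1 := R5 S j r hr hp hp3 hcard (-1) hj
  rw [K1a, hcard, sq] at h1
  have h2 : (p : ℤ) ∣ ∑ i, (r i : ℤ) := (mul_dvd_mul_iff_left hpp.ne_zero).mp h1
  have h3 := const_of_dvd hp hp2 hcard (fun i => (r i : ℤ)) (fun i => units_cast _) h2 i0 i1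
  exact h01 (Units.ext h3)

theorem F3 {ι : Type} [Fintype ι] {p : ℕ} (hp : p.Prime) (hp3 : 3 < p)
    (hcard : Fintype.card ι = p) {P : Set (ℝ × ℝ)} {ρ : ι → SP} {t : ι → ℝ × ℝ}
    (h : Diss ι P ρ t) (i0 i1 : ι) (h0 : ρ i0 = 1) (h1 : (ρ i1).s = true)
    (hab : ∀ i, (ρ i).a = (ρ i).b) : False := by
  have hp2 : p ≠ 2 := by omega
  have hodd : Odd (Fintype.card ι) := hcard ▸ hp.odd_of_ne_two hp2
  have hpp : Prime (p : ℤ) := Nat.prime_iff_prime_int.mp hp
  obtain ⟨Γ, Ω, t', ht, S⟩ := S9 hodd h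
  let r : ι → ℤˣ × ℤˣ := fun i => (sg (ρ i), (ρ i).a)
  have hr : ∀ i, jK (r i) = ρ i := fun i => SP.ext' (decide_sg _) rfl (hab i)
  have hk : (jK (-1, 1)).s = true := by decide
  have h2 := R5 S jK r hr hp hp3 hcard (-1, 1) hk
  rw [K1b, hcard, sq, mul_assoc, mul_assoc] at h2
  have h3 := (mul_dvd_mul_iff_left hpp.ne_zero).mp h2
  have hs0 : sg (ρ i0) = 1 := by rw [h0]; rfl
  have hs1 : sg (ρ i1) = -1 := by simp [sg, h1]
  have ha0 : (ρ i0).a = 1 := by rw [h0]; rfl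
  rcases hpp.dvd_or_dvd h3 with h4 | h4
  · have h5 := const_of_dvd hp hp2 hcard (fun i => ((r i).1 : ℤ)) (fun i => units_cast _) h4 i0 i1
    simp only [r, hs0, hs1] at h5
    exact absurd h5 (by decide)
  rcases hpp.dvd_or_dvd h4 with h5 | h5
  · have h6 := const_of_dvd hp hp2 hcard (fun i => ((r i).2 : ℤ)) (fun i => units_cast _) h5
    have h7 : ∀ i, (ρ i).a = 1 := fun i => by
      have := h6 i i0
      simp only [r] at this
      rw [← ha0]
      exact Units.ext this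
    refine F3c hp hp3 hcard h jC (by decide) (fun i => sg (ρ i))
      (fun i => SP.ext' (decide_sg _) (h7 i).symm ?_) (i0 := i0) (i1 := i1) ?_
    · rw [← hab i]; exact (h7 i).symm
    · rw [hs0, hs1]; decide
  · have h6 := const_of_dvd hp hp2 hcard (fun i => ((r i).1 : ℤ) * (r i).2) (fun i => by
      rcases units_cast (r i).1 with h | h <;> rcases units_cast (r i).2 with h' | h' <;>
        simp [h, h']) h5
    have h7 : ∀ i, sg (ρ i) = (ρ i).a := fun i => by
      have h8 := h6 i i0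
      simp only [r, hs0, ha0] at h8
      rcases Int.units_eq_one_or (sg (ρ i)) with h | h <;>
        rcases Int.units_eq_one_or (ρ i).a with h' | h' <;> rw [h, h'] at h8 ⊢ <;>
        exact absurd h8 (by decide)
    refine F3c hp hp3 hcard h jC' (by decide) (fun i => sg (ρ i))
      (fun i => SP.ext' (decide_sg _) (h7 i) ?_) (i0 := i0) (i1 := i1) ?_
    · rw [← hab i]; exact h7 i
    · rw [hs0, hs1]; decide

end APd
end

section

/-!
# AP F4: the main theorem for signed permutations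
-/

open Set Topology Finset

namespace APd

/-- The quarter turn. -/
def qt : SP := ⟨true, -1, 1⟩

/-- The determinant of a signed permutation. -/
def dt (g : SP) : ℤˣ := g.a * g.b * sg g

theorem mat_det (g : SP) : g.mat.det = (dt g : ℤ) := by
  obtain ⟨s, a, b⟩ := g
  rcases Int.units_eq_one_or a with rfl | rfl <;> rcases Int.units_eq_one_or b with rfl | rfl <;>
    cases s <;> simp [SP.mat, dt, sg, Matrix.det_fin_two]

theorem dt_mul (g h : SP) : dt (g * h) = dt g * dt h := by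
  obtain ⟨s, a, b⟩ := g
  obtain ⟨s', a', b'⟩ := h
  revert s a b s' a' b'
  decide

theorem sg_mul (g h : SP) : sg (g * h) = sg g * sg h := by
  obtain ⟨s, a, b⟩ := g
  obtain ⟨s', a', b'⟩ := h
  revert s a b s' a' b'
  decide

theorem ab_mul (g h : SP) : (g * h).a * (g * h).b = (g.a * g.b) * (h.a * h.b) := by
  obtain ⟨s, a, b⟩ := g
  obtain ⟨s', a', b'⟩ := h
  revert s a b s' a' b'
  decide

/-- The normalised statement (i). -/
theorem F4a {ι : Type} [Fintype ι] {p : ℕ} (hp : p.Prime) (hp3 : 3 < p)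
    (hcard : Fintype.card ι = p) {P : Set (ℝ × ℝ)} {ρ : ι → SP} {t : ι → ℝ × ℝ}
    (h : Diss ι P ρ t) (i0 : ι) (h0 : ρ i0 = 1) : ∃ i j, ρ i = qt * ρ j := by
  by_contra hcon
  push Not at hcon
  by_cases hs : ∀ i, (ρ i).s = false
  · exact F2 hp hp3 hcard h hs
  · push Not at hs
    obtain ⟨i1, hi1⟩ := hs
    have hi1' : (ρ i1).s = true := by simpa using hi1
    refine F3 hp hp3 hcard h i0 i1 h0 hi1' fun i => ?_
    have key : ∀ g k : SP, k.s = true → g ≠ qt * 1 → (1 : SP) ≠ qt * g → k ≠ qt * 1 →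
        (1 : SP) ≠ qt * k → g ≠ qt * k → k ≠ qt * g → g.a = g.b := by
      rintro ⟨s, a, b⟩ ⟨s', a', b'⟩
      revert s a b s' a' b'
      decide
    refine key (ρ i) (ρ i1) hi1' ?_ ?_ ?_ ?_ (hcon _ _) (hcon _ _)
    · rw [← h0]; exact hcon _ _
    · rw [← h0]; exact hcon _ _
    · rw [← h0]; exact hcon _ _
    · rw [← h0]; exact hcon _ _

theorem exists_ne_of_qt {ι : Type} {ρ : ι → SP} (c : SP → ℤˣ)
    (hc : ∀ g h, c (g * h) = c g * c h) (hq : c qt = -1) {i j : ι} (h : ρ i = qt * ρ j) :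
    c (ρ i) ≠ c (ρ j) := by
  rw [h, hc, hq]
  rcases Int.units_eq_one_or (c (ρ j)) with h' | h' <;> rw [h'] <;> decide

/-- The normalised statement (ii). -/
theorem F4b {ι : Type} [Fintype ι] {p : ℕ} (hp : p.Prime) (hp3 : 3 < p)
    (hcard : Fintype.card ι = p) {P : Set (ℝ × ℝ)} {ρ : ι → SP} {t : ι → ℝ × ℝ}
    (h : Diss ι P ρ t) (i0 : ι) (h0 : ρ i0 = 1) : (p : ℤ) ∣ (∑ i, (ρ i).mat).det := by
  have hp2 : p ≠ 2 := by omega
  have hodd : Odd (Fintype.card ι) := hcard ▸ hp.odd_of_ne_two hp2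
  have hpp : Prime (p : ℤ) := Nat.prime_iff_prime_int.mp hp
  obtain ⟨Γ, Ω, t', ht, S⟩ := S9 hodd h
  obtain ⟨i, j, hij⟩ := F4a hp hp3 hcard h i0 h0
  have hsg : ¬ (p : ℤ) ∣ ∑ i, (if (ρ i).s then (-1 : ℤ) else 1) := by
    intro hd
    have := const_of_dvd hp hp2 hcard (fun i => if (ρ i).s then (-1 : ℤ) else 1)
      (fun i => by split_ifs <;> simp) hd i j
    refine exists_ne_of_qt sg sg_mul (by decide) hij (Units.ext ?_)
    rw [sg_cast, sg_cast]
    exact this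
  by_cases hZ : ∀ i, dt (ρ i) = 1
  · -- rotations only
    have hr : ∀ i, ∃ k : Multiplicative (ZMod 4), j4 k = ρ i := by
      intro i
      have key : ∀ g : SP, dt g = 1 → ∃ k : Multiplicative (ZMod 4), j4 k = g := by
        rintro ⟨s, a, b⟩
        revert s a b
        decide
      exact key _ (hZ i)
    choose r hr using hr
    have h2 := R5 S j4 r hr hp hp3 hcard (Multiplicative.ofAdd 1) (by decide)
    rw [K1c, hcard, sq, mul_assoc] at h2
    have h3 := (mul_dvd_mul_iff_left hpp.ne_zero).mp h2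
    simp only [hr] at h3
    rcases hpp.dvd_or_dvd h3 with h4 | h4
    · exact absurd h4 hsg
    · exact h4
  · push Not at hZ
    obtain ⟨k, hk⟩ := hZ
    have h2 := R5 S (MonoidHom.id SP) ρ (fun _ => rfl) hp hp3 hcard qt (by decide)
    rw [S4, hcard, sq, mul_assoc, mul_assoc, mul_assoc] at h2
    have h3 := (mul_dvd_mul_iff_left hpp.ne_zero).mp h2
    rcases hpp.dvd_or_dvd h3 with h4 | h4
    · exfalso
      have := const_of_dvd hp hp2 hcard (fun i => ((ρ i).a : ℤ) * (ρ i).b) (fun i => by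
        rcases units_cast (ρ i).a with h | h <;> rcases units_cast (ρ i).b with h' | h' <;>
          simp [h, h']) h4 i j
      refine exists_ne_of_qt (fun g => g.a * g.b) ab_mul (by decide) hij (Units.ext ?_)
      push_cast
      exact this
    rcases hpp.dvd_or_dvd h4 with h5 | h5
    · exact absurd h5 hsg
    rcases hpp.dvd_or_dvd h5 with h6 | h6
    · exfalso
      have hc : ∀ i, ((ρ i).a : ℤ) * (ρ i).b * (if (ρ i).s then (-1 : ℤ) else 1) = (dt (ρ i) : ℤ) :=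
        fun i => by simp only [dt, Units.val_mul, sg_cast]
      have := const_of_dvd hp hp2 hcard
        (fun i => ((ρ i).a : ℤ) * (ρ i).b * if (ρ i).s then (-1 : ℤ) else 1) (fun i => by
          simp only [hc]; exact units_cast _) h6 k i0
      simp only [hc] at this
      apply hk
      have h7 : dt (ρ k) = dt (ρ i0) := Units.ext this
      rw [h7, h0]; decide
    · exact hpp.dvd_of_dvd_pow h6

/-- The normalised statement (iii). -/
theorem F4c {ι : Type} [Fintype ι] {p : ℕ} (hp : p.Prime) (hp3 : 3 < p)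
    (hcard : Fintype.card ι = p) {P : Set (ℝ × ℝ)} {ρ : ι → SP} {t : ι → ℝ × ℝ}
    (h : Diss ι P ρ t) (i0 : ι) (h0 : ρ i0 = 1) (hd : ∀ i, dt (ρ i) = 1) : p % 4 = 1 := by
  classical
  have hp2 : p ≠ 2 := by omega
  obtain ⟨i, j, hij⟩ := F4a hp hp3 hcard h i0 h0
  have hdet := F4b hp hp3 hcard h i0 h0
  set A : ℤ := ∑ i, (ρ i).mat 0 0 with hA
  set B : ℤ := ∑ i, (ρ i).mat 1 0 with hB
  have key : ∀ g : SP, dt g = 1 → g.mat 1 1 = g.mat 0 0 ∧ g.mat 0 1 = - g.mat 1 0 := by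
    rintro ⟨s, a, b⟩
    rcases Int.units_eq_one_or a with rfl | rfl <;> rcases Int.units_eq_one_or b with rfl | rfl <;>
      cases s <;> simp [SP.mat, dt, sg]
  have h1 : (∑ i, (ρ i).mat).det = A ^ 2 + B ^ 2 := by
    rw [Matrix.det_fin_two]
    simp only [Matrix.sum_apply]
    have e1 : ∑ i, (ρ i).mat 1 1 = A := Finset.sum_congr rfl fun i _ => (key _ (hd i)).1
    have e2 : ∑ i, (ρ i).mat 0 1 = -B := by
      rw [hB, ← Finset.sum_neg_distrib]
      exact Finset.sum_congr rfl fun i _ => (key _ (hd i)).2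
    rw [e1, e2]
    ring
  rw [h1] at hdet
  by_contra hcon
  have h43 : p % 4 = 3 := by
    have := hp.odd_of_ne_two hp2
    have := Nat.odd_iff.mp this
    omega
  have : Fact p.Prime := ⟨hp⟩
  have h2 : ((A : ZMod p)) ^ 2 + (B : ZMod p) ^ 2 = 0 := by
    have := (ZMod.intCast_zmod_eq_zero_iff_dvd (A ^ 2 + B ^ 2) p).mpr hdet
    push_cast at this
    exact this
  have hB0 : (B : ZMod p) = 0 := by
    by_contra hne
    exact ZMod.mod_four_ne_three_of_sq_eq_neg_sq' hne (eq_neg_of_add_eq_zero_left h2) h43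
  have hA0 : (A : ZMod p) = 0 := by
    rw [hB0] at h2
    simpa using h2
  have hAd : (p : ℤ) ∣ A := (ZMod.intCast_zmod_eq_zero_iff_dvd A p).mp hA0
  have hBd : (p : ℤ) ∣ B := (ZMod.intCast_zmod_eq_zero_iff_dvd B p).mp hB0
  -- the numbers of swaps and of non-swaps
  set n : ℕ := (Finset.univ.filter fun i => (ρ i).s = true).card with hn
  set m : ℕ := (Finset.univ.filter fun i => ¬ (ρ i).s = true).card with hm
  have hnm : n + m = p := by
    rw [hn, hm, ← hcard]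
    exact Finset.card_filter_add_card_filter_not _
  have hs : (ρ i).s = !(ρ j).s := by
    rw [hij]
    simp [SP.mul_def, qt]
  have hn0 : 0 < n := by
    rw [hn, Finset.card_pos]
    cases hj : (ρ j).s
    · exact ⟨i, by simp [hs, hj]⟩
    · exact ⟨j, by simp [hj]⟩
  have hm0 : 0 < m := by
    rw [hm, Finset.card_pos]
    cases hj : (ρ j).s
    · exact ⟨j, by simp [hj]⟩
    · exact ⟨i, by simp [hs, hj]⟩
  have hAm : |A| ≤ m ∧ (2 : ℤ) ∣ A - m := by
    have e : A = ∑ i ∈ Finset.univ.filter (fun i => ¬ (ρ i).s = true), ((ρ i).a : ℤ) := by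
      rw [hA, Finset.sum_filter]
      refine Finset.sum_congr rfl fun i _ => ?_
      cases hh : (ρ i).s <;> simp [SP.mat, hh]
    constructor
    · rw [e]
      refine (Finset.abs_sum_le_sum_abs _ _).trans ?_
      rw [hm, Finset.card_eq_sum_ones]
      push_cast
      refine Finset.sum_le_sum fun i _ => ?_
      rcases units_cast (ρ i).a with h | h <;> simp [h]
    · rw [e, hm, Finset.card_eq_sum_ones]
      push_cast
      rw [← Finset.sum_sub_distrib]
      refine Finset.dvd_sum fun i _ => ?_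
      rcases units_cast (ρ i).a with h | h <;> simp [h]
  have hBn : |B| ≤ n ∧ (2 : ℤ) ∣ B - n := by
    have e : B = ∑ i ∈ Finset.univ.filter (fun i => (ρ i).s = true), ((ρ i).b : ℤ) := by
      rw [hB, Finset.sum_filter]
      refine Finset.sum_congr rfl fun i _ => ?_
      cases hh : (ρ i).s <;> simp [SP.mat, hh]
    constructor
    · rw [e]
      refine (Finset.abs_sum_le_sum_abs _ _).trans ?_
      rw [hn, Finset.card_eq_sum_ones]
      push_cast
      refine Finset.sum_le_sum fun i _ => ?_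
      rcases units_cast (ρ i).b with h | h <;> simp [h]
    · rw [e, hn, Finset.card_eq_sum_ones]
      push_cast
      rw [← Finset.sum_sub_distrib]
      refine Finset.dvd_sum fun i _ => ?_
      rcases units_cast (ρ i).b with h | h <;> simp [h]
  have hA1 : A = 0 := by
    refine Int.eq_zero_of_abs_lt_dvd hAd ?_
    have := hAm.1
    omega
  have hB1 : B = 0 := by
    refine Int.eq_zero_of_abs_lt_dvd hBd ?_
    have := hBn.1
    omega
  have h5 := hAm.2
  have h6 := hBn.2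
  rw [hA1] at h5
  rw [hB1] at h6
  have := Nat.odd_iff.mp (hp.odd_of_ne_two hp2)
  omega

theorem mat_one : (1 : SP).mat = 1 := by
  ext i j
  fin_cases i <;> fin_cases j <;> simp [SP.mat, SP.one_def]

/-- The main theorem for signed permutations. -/
theorem F4 {ι : Type} [Fintype ι] {p : ℕ} (hp : p.Prime) (hp3 : 3 < p)
    (hcard : Fintype.card ι = p) {P : Set (ℝ × ℝ)} {ρ : ι → SP} {t : ι → ℝ × ℝ}
    (h : Diss ι P ρ t) : (∃ i j, ρ i = qt * ρ j) ∧ (p : ℤ) ∣ (∑ i, (ρ i).mat).det ∧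
      ((∀ i j, dt (ρ i) = dt (ρ j)) → p % 4 = 1) := by
  have hpos : 0 < Fintype.card ι := by rw [hcard]; exact hp.pos
  obtain ⟨i0⟩ := Fintype.card_pos_iff.mp hpos
  have h' := h.norm (ρ i0) (t i0)
  have h0 : (fun i => ρ i * (ρ i0)⁻¹) i0 = 1 := mul_inv_cancel _
  refine ⟨?_, ?_, ?_⟩
  · obtain ⟨i, j, hij⟩ := F4a hp hp3 hcard h' i0 h0
    refine ⟨i, j, ?_⟩
    simpa [← mul_assoc] using hij
  · have h2 := F4b hp hp3 hcard h' i0 h0
    have h3 : (∑ i, (ρ i * (ρ i0)⁻¹).mat) = (∑ i, (ρ i).mat) * ((ρ i0)⁻¹).mat := by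
      rw [Finset.sum_mul]
      exact Finset.sum_congr rfl fun i _ => mat_mul _ _
    rw [h3, Matrix.det_mul, mat_det] at h2
    rcases units_cast (dt (ρ i0)⁻¹) with h4 | h4 <;> rw [h4] at h2
    · simpa using h2
    · simpa using h2
  · intro hd
    refine F4c hp hp3 hcard h' i0 h0 fun i => ?_
    rw [dt_mul, hd i i0, ← dt_mul, mul_inv_cancel]
    decide

end APd
end
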