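import Pool.Agent.Lib.MP_b07864_co.AP.Base

section

/-!
# AP G1: injectivity of odd combinations of motions of the line

PROOF. Replace `g` by `g' u := if u ∈ Ω then g u else 0` (`Ω` is invariant under `u ↦ a • (u - x)` for `a = ±1`,
`x ∈ Γ`, and so is its complement, so the equation holds for `g'` at ALL `u`). Let `ǧ u := g' (-u)`,
`A := ∑_{a i = 1} e_i [x_i]`, `B := ∑_{a i = -1} e_i [x_i]` in `ℤ[Γ]` (acting on functions `ℝ → ℤ` by `act Γ.subtype`),
and `A*`, `B*` the elements with `x_i` replaced by `-x_i`. The equation at `u` says `A g' + B ǧ = 0`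
(for `a i = -1`: `g' (-(u - x_i)) = ǧ (u - x_i)`), the equation at `-u` says `A* ǧ + B* g' = 0`
(`a i = 1`: `g' (-u - x_i) = ǧ (u + x_i)`; `a i = -1`: `g' (-(-u - x_i)) = g' (u + x_i)`).
So `D := A A* - B B*` satisfies `D g' = A* (A g') - B (B* g') = -A* B ǧ + B A* ǧ = 0`. The augmentation of `D` is
`(∑_{a i = 1} e_i)^2 - (∑_{a i = -1} e_i)^2 ≡ (number of i) ^ 2 mod 2`, odd, so `D ≠ 0`.
A nonzero `D ∈ ℤ[Γ]` acts injectively on functions `g'` with support bounded above: if `g' ≠ 0`, let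
`v₀` be the largest element of the support of `D` (as a real number), `η > 0` smaller than the gap to the other
elements, `u*` the supremum of the support of `g'`, `u > u* - η` in the support; evaluate at
`u + v₀`: `0 = ∑_v D_v g' (u + v₀ - v) = D_{v₀} g' u` since `u + v₀ - v ≥ u + η > u*` for `v ≠ v₀`. Contradiction.
-/

open Set Topology Finset

namespace APd

private theorem G1_inj {Γ : AddSubgroup ℝ} (D : AddMonoidAlgebra ℤ Γ) (hD : D.coeff ≠ 0) (f : ℝ → ℤ)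
    (R : ℝ) (hf : ∀ u, f u ≠ 0 → u ≤ R) (hDf : act (A := ℤ) (N := ℤ) Γ.subtype D f = 0) :
    ∀ u, f u = 0 := by
  by_contra hcon
  push Not at hcon
  obtain ⟨w, hw⟩ := hcon
  have hSne : D.coeff.support.Nonempty := Finsupp.support_nonempty_iff.2 hD
  obtain ⟨v0, hv0, hmax⟩ := D.coeff.support.exists_max_image (fun v => (v : ℝ)) hSne
  -- the gap
  obtain ⟨η, hη, hgap⟩ : ∃ η : ℝ, 0 < η ∧ ∀ v ∈ D.coeff.support, v ≠ v0 → (v : ℝ) ≤ (v0 : ℝ) - η := by
    rcases (D.coeff.support.erase v0).eq_empty_or_nonempty with h0 | h0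
    · refine ⟨1, one_pos, fun v hv hne => ?_⟩
      have : v ∈ D.coeff.support.erase v0 := mem_erase.2 ⟨hne, hv⟩
      rw [h0] at this
      exact absurd this (notMem_empty _)
    · obtain ⟨v1, hv1, hmax1⟩ := (D.coeff.support.erase v0).exists_max_image (fun v => (v : ℝ)) h0
      have hne1 : v1 ≠ v0 := (mem_erase.1 hv1).1
      have hle1 : (v1 : ℝ) ≤ v0 := hmax v1 (mem_erase.1 hv1).2
      have hlt1 : (v1 : ℝ) < v0 := lt_of_le_of_ne hle1 (fun h => hne1 (Subtype.ext h))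
      refine ⟨(v0 : ℝ) - v1, sub_pos.2 hlt1, fun v hv hne => ?_⟩
      have := hmax1 v (mem_erase.2 ⟨hne, hv⟩)
      linarith
  have hTne : {u | f u ≠ 0}.Nonempty := ⟨w, hw⟩
  have hTb : BddAbove {u | f u ≠ 0} := ⟨R, fun u hu => hf u hu⟩
  obtain ⟨u, hu, hlt⟩ := exists_lt_of_lt_csSup hTne (show sSup {u | f u ≠ 0} - η < sSup {u | f u ≠ 0} by linarith)
  have hev := congrFun hDf (u + v0)
  rw [act_apply, Finsupp.sum, Finset.sum_eq_single v0] at hev
  · rw [AddSubgroup.coe_subtype, add_sub_cancel_right, Pi.zero_apply, smul_eq_mul] at hev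
    rcases mul_eq_zero.1 hev with h1 | h1
    · exact (Finsupp.mem_support_iff.1 hv0) h1
    · exact hu h1
  · intro v hv hne
    have h1 : f (u + v0 - Γ.subtype v) = 0 := by
      by_contra h2
      have h3 : u + v0 - Γ.subtype v ≤ sSup {u | f u ≠ 0} := le_csSup hTb h2
      have h4 := hgap v hv hne
      rw [AddSubgroup.coe_subtype] at h3
      linarith
    rw [h1, smul_zero]
  · intro h
    exact absurd hv0 h

private theorem G1_unit_odd (e : ℤˣ) : ((e : ℤ) : ZMod 2) = 1 := by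
  rcases Int.units_eq_one_or e with h | h <;> rw [h] <;> decide

theorem G1 {ι : Type} [Fintype ι] (hodd : Odd (Fintype.card ι)) {Γ : AddSubgroup ℝ} {Ω : Set ℝ}
    (h : Adm Γ Ω) (e a : ι → ℤˣ) (x : ι → Γ) (g : ℝ → ℤ) (hg : ∃ R : ℝ, ∀ u, g u ≠ 0 → |u| ≤ R)
    (heq : ∀ u ∈ Ω, ∑ i, (e i : ℤ) * g (a i • (u - (x i : ℝ))) = 0) : ∀ u ∈ Ω, g u = 0 := by
  classical
  obtain ⟨R, hR⟩ := hg
  set g' : ℝ → ℤ := fun u => if u ∈ Ω then g u else 0 with hg'
  have hinvs : ∀ (c : ℤˣ) (u : ℝ) (y : Γ), c • (u - (y : ℝ)) ∈ Ω ↔ u ∈ Ω := by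
    intro c u y
    have h1 : ∀ u : ℝ, -u ∈ Ω ↔ u ∈ Ω := fun u => ⟨fun h2 => by simpa using h.neg _ h2, h.neg u⟩
    have h2 : u - (y : ℝ) ∈ Ω ↔ u ∈ Ω := by
      constructor
      · intro h3
        have := h.add _ h3 y y.2
        simpa using this
      · intro h3
        have := h.add _ h3 (-y : ℝ) (Γ.neg_mem y.2)
        simpa [sub_eq_add_neg] using this
    rcases Int.units_eq_one_or c with hc | hc
    · rw [hc, one_smul, h2]
    · rw [hc, Units.neg_smul, one_smul, h1, h2]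
  have H : ∀ u, ∑ i, (e i : ℤ) * g' (a i • (u - (x i : ℝ))) = 0 := by
    intro u
    by_cases hu : u ∈ Ω
    · rw [← heq u hu]
      refine sum_congr rfl fun i _ => ?_
      simp only [hg']
      rw [if_pos ((hinvs _ _ _).2 hu)]
    · refine sum_eq_zero fun i _ => ?_
      simp only [hg']
      rw [if_neg (fun h3 => hu ((hinvs _ _ _).1 h3)), mul_zero]
  set gc : ℝ → ℤ := fun u => g' (-u) with hgc
  set A : AddMonoidAlgebra ℤ Γ := ∑ i with a i = 1, AddMonoidAlgebra.single (x i) (e i : ℤ) with hA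
  set B : AddMonoidAlgebra ℤ Γ := ∑ i with ¬ a i = 1, AddMonoidAlgebra.single (x i) (e i : ℤ) with hB
  set A' : AddMonoidAlgebra ℤ Γ := ∑ i with a i = 1, AddMonoidAlgebra.single (-x i) (e i : ℤ) with hA'
  set B' : AddMonoidAlgebra ℤ Γ := ∑ i with ¬ a i = 1, AddMonoidAlgebra.single (-x i) (e i : ℤ) with hB'
  have hact : ∀ (P : ι → Prop) [DecidablePred P] (y : ι → Γ) (F : ℝ → ℤ) (u : ℝ),
      act (A := ℤ) (N := ℤ) Γ.subtype (∑ i with P i, AddMonoidAlgebra.single (y i) (e i : ℤ)) F u =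
        ∑ i with P i, (e i : ℤ) * F (u - (y i : ℝ)) := by
    intro P _ y F u
    rw [map_sum, LinearMap.sum_apply, Finset.sum_apply]
    refine sum_congr rfl fun i _ => ?_
    rw [act_single]
    rfl
  have hneg : ∀ i, ¬ a i = 1 → a i = -1 := fun i hi => (Int.units_eq_one_or (a i)).resolve_left hi
  have E1 : act (A := ℤ) (N := ℤ) Γ.subtype A g' + act (A := ℤ) (N := ℤ) Γ.subtype B gc = 0 := by
    funext u
    rw [Pi.add_apply, hA, hB, hact, hact, Pi.zero_apply, ← H u,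
      ← sum_filter_add_sum_filter_not univ (fun i => a i = 1)]
    congr 1
    · refine sum_congr rfl fun i hi => ?_
      rw [(mem_filter.1 hi).2, one_smul]
    · refine sum_congr rfl fun i hi => ?_
      rw [hneg i (mem_filter.1 hi).2, Units.neg_smul, one_smul]
  have E2 : act (A := ℤ) (N := ℤ) Γ.subtype A' gc + act (A := ℤ) (N := ℤ) Γ.subtype B' g' = 0 := by
    funext u
    rw [Pi.add_apply, hA', hB', hact, hact, Pi.zero_apply, ← H (-u),
      ← sum_filter_add_sum_filter_not univ (fun i => a i = 1)]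
    congr 1
    · refine sum_congr rfl fun i hi => ?_
      rw [(mem_filter.1 hi).2, one_smul, hgc]
      simp only
      congr 2
      push_cast
      ring
    · refine sum_congr rfl fun i hi => ?_
      rw [hneg i (mem_filter.1 hi).2, Units.neg_smul, one_smul]
      congr 2
      push_cast
      ring
  have E3 : act (A := ℤ) (N := ℤ) Γ.subtype (A' * A - B * B') g' = 0 := by
    rw [map_sub, map_mul, map_mul]
    have e1 : act (A := ℤ) (N := ℤ) Γ.subtype A g' = - act (A := ℤ) (N := ℤ) Γ.subtype B gc :=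
      eq_neg_of_add_eq_zero_left E1
    have e2 : act (A := ℤ) (N := ℤ) Γ.subtype B' g' = - act (A := ℤ) (N := ℤ) Γ.subtype A' gc :=
      eq_neg_of_add_eq_zero_right E2
    rw [LinearMap.sub_apply, Module.End.mul_apply, Module.End.mul_apply, e1, e2, map_neg, map_neg,
      ← Module.End.mul_apply, ← Module.End.mul_apply, ← map_mul, ← map_mul, mul_comm A' B]
    exact sub_self _
  have hD : (A' * A - B * B').coeff ≠ 0 := by
    intro h0
    have h1 : aug ℤ Γ (A' * A - B * B') = 0 := by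
      rw [aug_apply, h0]
      simp
    have h2 : ((aug ℤ Γ (A' * A - B * B') : ℤ) : ZMod 2) = 1 := by
      rw [map_sub, map_mul, map_mul, hA, hB, hA', hB', map_sum, map_sum, map_sum, map_sum]
      simp only [aug_single]
      push_cast
      simp only [G1_unit_odd]
      rw [sum_const, sum_const, nsmul_eq_mul, nsmul_eq_mul, mul_one, mul_one]
      have h3 : ((#{i | a i = 1} : ℕ) : ZMod 2) + ((#{i | ¬ a i = 1} : ℕ) : ZMod 2) = 1 := by
        rw [← Nat.cast_add, card_filter_add_card_filter_not, card_univ]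
        obtain ⟨k, hk⟩ := hodd
        rw [hk]
        push_cast
        have : (2 : ZMod 2) = 0 := by decide
        rw [this]
        ring
      generalize ((#{i | a i = 1} : ℕ) : ZMod 2) = p at h3 ⊢
      generalize ((#{i | ¬ a i = 1} : ℕ) : ZMod 2) = q at h3 ⊢
      revert h3
      revert p q
      decide
    rw [h1] at h2
    revert h2
    decide
  intro u hu
  have hf := G1_inj (A' * A - B * B') hD g' R (fun u hu => by
    have h1 : g u ≠ 0 := by
      intro h2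
      apply hu
      simp only [hg']
      rw [h2, ite_self]
    exact (le_abs_self u).trans (hR u h1)) E3 u
  simp only [hg'] at hf
  rwa [if_pos hu] at hf

end APd
end

section

/-!
# AP R4a: the equation for the periodised function

`PP f z = ∑ᶠ k : ℤ × ℤ, f (z.1 + k.1, z.2 + k.2)`.

PROOF. `f` has bounded support, so all sums are finite. For `g ∈ SP` the map `k ↦ g⁻¹ • k` is a bijection of
`ℤ × ℤ` (`SP` acts on `ℤ × ℤ`), compatible with the inclusion into `ℝ × ℝ`. So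
`PP f (g⁻¹ • (z - v)) = ∑ᶠ k : ℤ × ℤ, f (g⁻¹ • (z + k - v))`. Exchange the finite sums: the left hand side is
`∑ᶠ k, ∑ i, f ((ρ i)⁻¹ • (z + k - co (t i))) = ∑ᶠ k, Lf (z + k)` (`S.eq` at `z + k ∈ Ω ×ˢ Ω`; `1 ∈ Γ`). As
`z.1, z.2 ∉ ℤ`: with `x = Int.fract z.1`, `y = Int.fract z.2` in `(0,1)` exactly the points `(x,y), (x+1,y), (x,y+1)` of
`z + ℤ²` are in `Ltr`, so the sum is `3`.
-/

open Set Topology Finset

namespace APd

/-- The sum over all integer translates. -/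
noncomputable def PP (f : ℝ × ℝ → ℤ) (z : ℝ × ℝ) : ℤ := ∑ᶠ k : ℤ × ℤ, f (z.1 + k.1, z.2 + k.2)

/-- The inclusion of `ℤ × ℤ` into the plane. -/
private def inclZ (k : ℤ × ℤ) : ℝ × ℝ := ((k.1 : ℝ), (k.2 : ℝ))

private lemma inclZ_smul (g : SP) (k : ℤ × ℤ) : inclZ (g • k) = g • inclZ k := by
  obtain ⟨s, a, b⟩ := g
  cases s <;> simp [inclZ, SP.smul_def, Units.smul_def]

private lemma PP_smul (f : ℝ × ℝ → ℤ) (g : SP) (w : ℝ × ℝ) :
    PP f (g • w) = ∑ᶠ k : ℤ × ℤ, f (g • (w + inclZ k)) := by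
  have h1 : PP f (g • w) = ∑ᶠ k : ℤ × ℤ, f (g • w + inclZ k) := rfl
  rw [h1, ← finsum_comp_equiv (MulAction.toPerm g : Equiv.Perm (ℤ × ℤ))]
  apply finsum_congr
  intro k
  rw [smul_add, ← inclZ_smul]
  rfl

private lemma abs_units (a : ℤˣ) (x : ℝ) : |a • x| = |x| := by
  rcases Int.units_eq_one_or a with rfl | rfl <;> simp

private lemma bd_smul (g : SP) (w : ℝ × ℝ) (R : ℝ) (h : |(g • w).1| ≤ R ∧ |(g • w).2| ≤ R) :
    |w.1| ≤ R ∧ |w.2| ≤ R := by
  obtain ⟨s, a, b⟩ := g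
  cases s <;> simp only [SP.smul_def, abs_units, cond_true, cond_false] at h
  · exact h
  · exact ⟨h.2, h.1⟩

private lemma fin_supp {f : ℝ × ℝ → ℤ} (hb : ∃ R : ℝ, ∀ z, f z ≠ 0 → |z.1| ≤ R ∧ |z.2| ≤ R)
    (g : SP) (w : ℝ × ℝ) : (Function.support fun k : ℤ × ℤ => f (g • (w + inclZ k))).Finite := by
  obtain ⟨R, hR⟩ := hb
  apply ((Set.finite_Icc (⌊-R - w.1⌋) (⌈R - w.1⌉)).prod
    (Set.finite_Icc (⌊-R - w.2⌋) (⌈R - w.2⌉))).subset
  intro k hk
  obtain ⟨h1, h2⟩ := bd_smul g _ R (hR _ hk)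
  rw [abs_le] at h1 h2
  simp only [Prod.fst_add, Prod.snd_add, inclZ] at h1 h2
  have a1 := Int.floor_le (-R - w.1)
  have a2 := Int.le_ceil (R - w.1)
  have a3 := Int.floor_le (-R - w.2)
  have a4 := Int.le_ceil (R - w.2)
  refine ⟨⟨?_, ?_⟩, ?_, ?_⟩
  · exact_mod_cast (by linarith [h1.1] : ((⌊-R - w.1⌋ : ℤ) : ℝ) ≤ k.1)
  · exact_mod_cast (by linarith [h1.2] : (k.1 : ℝ) ≤ ((⌈R - w.1⌉ : ℤ) : ℝ))
  · exact_mod_cast (by linarith [h2.1] : ((⌊-R - w.2⌋ : ℤ) : ℝ) ≤ k.2)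
  · exact_mod_cast (by linarith [h2.2] : (k.2 : ℝ) ≤ ((⌈R - w.2⌉ : ℤ) : ℝ))

private lemma sum_Lf (z : ℝ × ℝ) (h1 : ∀ k : ℤ, z.1 ≠ k) (h2 : ∀ k : ℤ, z.2 ≠ k) :
    ∑ᶠ k : ℤ × ℤ, Lf (z + inclZ k) = 3 := by
  obtain ⟨X, Y⟩ := z
  simp only at h1 h2
  set a : ℤ := ⌊X⌋ with ha
  set b : ℤ := ⌊Y⌋ with hb
  have hx0 : (a : ℝ) < X := lt_of_le_of_ne (Int.floor_le X) (fun h => h1 a h.symm)
  have hx1 : X < a + 1 := Int.lt_floor_add_one X
  have hy0 : (b : ℝ) < Y := lt_of_le_of_ne (Int.floor_le Y) (fun h => h2 b h.symm)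
  have hy1 : Y < b + 1 := Int.lt_floor_add_one Y
  have key : ∀ (u : ℝ) (c m : ℤ), (c : ℝ) < u → u < c + 1 →
      ((0 ≤ u + m ↔ -c ≤ m) ∧ (u + m ≤ 1 ↔ m ≤ -c) ∧ (u + m ≤ 2 ↔ m ≤ -c + 1)) := by
    intro u c m hu hu'
    refine ⟨⟨fun h => ?_, fun h => ?_⟩, ⟨fun h => ?_, fun h => ?_⟩, ⟨fun h => ?_, fun h => ?_⟩⟩
    · have : (-c - 1 : ℝ) < m := by linarith
      have h' : (-c - 1 : ℤ) < m := by exact_mod_cast this
      omega
    · have : (-c : ℝ) ≤ m := by exact_mod_cast h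
      linarith
    · have : (m : ℝ) < -c + 1 := by linarith
      have h' : m < -c + 1 := by exact_mod_cast this
      omega
    · have : (m : ℝ) ≤ -c := by exact_mod_cast h
      linarith
    · have : (m : ℝ) < -c + 2 := by linarith
      have h' : m < -c + 2 := by exact_mod_cast this
      omega
    · have : (m : ℝ) ≤ -c + 1 := by exact_mod_cast h
      linarith
  have hval : ∀ k : ℤ × ℤ, Lf ((X, Y) + inclZ k) =
      if k ∈ ({(-a, -b), (-a + 1, -b), (-a, -b + 1)} : Finset (ℤ × ℤ)) then 1 else 0 := by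
    rintro ⟨m, n⟩
    obtain ⟨k1, k2, k3⟩ := key X a m hx0 hx1
    obtain ⟨l1, l2, l3⟩ := key Y b n hy0 hy1
    unfold Lf
    have : ((X, Y) + inclZ (m, n) ∈ Ltr) ↔
        (m, n) ∈ ({(-a, -b), (-a + 1, -b), (-a, -b + 1)} : Finset (ℤ × ℤ)) := by
      simp only [Ltr, inclZ, Set.mem_union, Set.mem_prod, Set.mem_Icc, Prod.mk_add_mk,
        Finset.mem_insert, Finset.mem_singleton, Prod.mk.injEq, k1, k2, k3, l1, l2, l3]
      omega
    by_cases hh : (X, Y) + inclZ (m, n) ∈ Ltr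
    · rw [if_pos hh, if_pos (this.1 hh)]
    · rw [if_neg hh, if_neg (fun h => hh (this.2 h))]
  rw [finsum_eq_sum_of_support_subset (s := ({(-a, -b), (-a + 1, -b), (-a, -b + 1)} : Finset (ℤ × ℤ)))]
  · rw [Finset.sum_congr rfl (fun k hk => by rw [hval k, if_pos hk])]
    rw [Finset.sum_const, Finset.card_insert_of_notMem, Finset.card_insert_of_notMem,
      Finset.card_singleton]
    · rfl
    · simp
    · simp
  · intro k hk
    by_contra hn
    apply hk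
    show Lf _ = 0
    rw [hval k, if_neg (fun h => hn (Finset.mem_coe.2 h))]

theorem R4a {ι : Type} [Fintype ι] {Γ : AddSubgroup ℝ} {Ω : Set ℝ} {f : ℝ × ℝ → ℤ} {ρ : ι → SP}
    {t : ι → Γ × Γ} (S : Sys ι Γ Ω f ρ t) :
    ∀ z ∈ Ω ×ˢ Ω, ∑ i, PP f ((ρ i)⁻¹ • (z - co Γ (t i))) = 3 := by
  intro z hz
  have hint : ∀ m : ℤ, ((m : ℝ)) ∈ Γ := by
    intro m
    have := Γ.zsmul_mem S.adm.one_mem m
    simpa using this
  have hshift : ∀ k : ℤ × ℤ, z + inclZ k ∈ Ω ×ˢ Ω := fun k =>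
    ⟨S.adm.add _ hz.1 _ (hint k.1), S.adm.add _ hz.2 _ (hint k.2)⟩
  calc ∑ i, PP f ((ρ i)⁻¹ • (z - co Γ (t i)))
      = ∑ i, ∑ᶠ k : ℤ × ℤ, f ((ρ i)⁻¹ • (z - co Γ (t i) + inclZ k)) :=
        Finset.sum_congr rfl fun i _ => PP_smul f _ _
    _ = ∑ᶠ k : ℤ × ℤ, ∑ i, f ((ρ i)⁻¹ • (z - co Γ (t i) + inclZ k)) :=
        (finsum_sum_comm _ _ (fun i _ => fin_supp S.bdd _ _)).symm
    _ = ∑ᶠ k : ℤ × ℤ, Lf (z + inclZ k) := by
        apply finsum_congr
        intro k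
        rw [← S.eq _ (hshift k)]
        apply Finset.sum_congr rfl
        intro i _
        congr 2
        abel
    _ = 3 := sum_Lf z (fun k => S.adm.int _ hz.1 k) (fun k => S.adm.int _ hz.2 k)

end APd
end

section

/-!
# AP G2: diagonal linear parts, equal heights: the rows are constant

PROOF. `(ρ i)⁻¹ • ((x, y) - co (t i)) = (a_i • (x - x_i), b_i • (y - y_i))` (`a_i, b_i` the signs of `ρ i`,
`(x_i, y_i) = t i`). Let `I = {i | b_i = 1}`, `J = {i | b_i = -1}`, `yI` the common value of `y_i` on `I`, `yJ` on `J` (0 if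
the class is empty), `β y x := f (x, y - yI)`, `γ y x := f (x, yJ - y)`. `S.eq` at `(x, y)`, `x, y ∈ Ω`:
(E) `∑_{i ∈ I} β y (a_i • (x - x_i)) + ∑_{i ∈ J} γ y (a_i • (x - x_i)) = Lf (x, y)`.
For `x, y ∈ Ω`: `Lf (x, y) = 1` iff (`0 < y < 1` and `0 < x < 2`) or (`1 < y < 2` and `0 < x < 1`).
Case `J = ∅`: for `y, y' ∈ Ω` in `(0,1)` (or both in `(1,2)`) the function `β y - β y'` satisfies the hypothesis of `G1`
with `e = 1`; so `β y = β y'` on `Ω`, and `a_i • (x - x_i) ∈ Ω`. Case `I = ∅`: the same with `γ`.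
Case `I, J ≠ ∅`: let `s := yI + yJ`, so `γ y = β (s - y)` and `β y = γ (s - y)`.
(Z) If `y ∈ Ω`, `y < 0` or `y > 2`, then `Lf (x, y) = 0`, all terms are `≥ 0`, so `β y = 0 = γ y` on `Ω`.
`s = 2`: if `s < 2` take `y ∈ Ω` with `max s 0 < y < 2` (`Ω` is dense); `s - y < 0` and `s - y ∈ Ω` (`s ∈ Γ`), so by (Z)
`β y = γ (s - y) = 0`, `γ y = β (s - y) = 0` on `Ω`; but for `x ∈ Ω`, `0 < x < 1` the right side of (E) is `1`.
If `s > 2` take `y ∈ Ω` with `0 < y < min (s - 2) 2`; then `s - y > 2` and the same contradiction.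
Now `γ y = β (2 - y)`. For `y, y' ∈ Ω ∩ (0,1)`: `u := β y - β y'`, `v := β (2 - y) - β (2 - y')`; (E) at `y, y'` and at
`2 - y, 2 - y' ∈ Ω ∩ (1,2)` give on `Ω`: `∑_I u(..) + ∑_J v(..) = 0`, `∑_I v(..) + ∑_J u(..) = 0`. By `G1` with `e = 1`,
`g = u + v`, and with `e = b`, `g = u - v`: `u + v = 0 = u - v` on `Ω`, so `u = v = 0` on `Ω`. So `β` is constant for
`y ∈ Ω ∩ (0,1)` and for `y ∈ Ω ∩ (1,2)` (`y = 2 - (2 - y)`), and `γ y = β (2 - y)` as well.
-/

open Set Topology Finset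

namespace APd

private theorem G2_val {Γ : AddSubgroup ℝ} (r : SP) (hs : r.s = false) (t : Γ × Γ) (x y : ℝ) :
    r⁻¹ • ((x, y) - co Γ t) = (r.a • (x - (t.1 : ℝ)), r.b • (y - (t.2 : ℝ))) := by
  obtain ⟨s, a, b⟩ := r
  simp only at hs
  subst hs
  simp [SP.inv_def, SP.smul_def, co_apply]

private theorem G2_inv {Γ : AddSubgroup ℝ} {Ω : Set ℝ} (h : Adm Γ Ω) (c : ℤˣ) (u : ℝ) (y : Γ)
    (hu : u ∈ Ω) : c • (u - (y : ℝ)) ∈ Ω := by
  have h2 : u - (y : ℝ) ∈ Ω := by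
    have := h.add _ hu (-y : ℝ) (Γ.neg_mem y.2)
    simpa [sub_eq_add_neg] using this
  rcases Int.units_eq_one_or c with hc | hc
  · rwa [hc, one_smul]
  · rw [hc, Units.neg_smul, one_smul]
    exact h.neg _ h2

/-- every point of `Ω` is of the form `c • (x - y)`, `x ∈ Ω`. -/
private theorem G2_surj {Γ : AddSubgroup ℝ} {Ω : Set ℝ} (h : Adm Γ Ω) (c : ℤˣ) (u : ℝ) (y : Γ)
    (hu : u ∈ Ω) : ∃ x ∈ Ω, c • (x - (y : ℝ)) = u := by
  rcases Int.units_eq_one_or c with hc | hc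
  · refine ⟨u + y, h.add _ hu _ y.2, ?_⟩
    rw [hc, one_smul]
    ring
  · refine ⟨-u + y, h.add _ (h.neg _ hu) _ y.2, ?_⟩
    rw [hc, Units.neg_smul, one_smul]
    ring

private theorem G2_Lf (x y y' : ℝ)
    (h : (0 < y ∧ y < 1 ∧ 0 < y' ∧ y' < 1) ∨ (1 < y ∧ y < 2 ∧ 1 < y' ∧ y' < 2)) :
    Lf (x, y) = Lf (x, y') := by
  have key : ∀ y y' : ℝ, ((0 < y ∧ y < 1 ∧ 0 < y' ∧ y' < 1) ∨ (1 < y ∧ y < 2 ∧ 1 < y' ∧ y' < 2)) →
      (x, y) ∈ Ltr → (x, y') ∈ Ltr := by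
    intro y y' h h1
    unfold Ltr at h1 ⊢
    simp only [Set.mem_union, Set.mem_prod, Set.mem_Icc] at h1 ⊢
    rcases h with h | h
    · left
      rcases h1 with h1 | h1
      · exact ⟨h1.1, h.2.2.1.le, h.2.2.2.le⟩
      · exact ⟨⟨h1.1.1, by linarith [h1.1.2]⟩, h.2.2.1.le, h.2.2.2.le⟩
    · right
      rcases h1 with h1 | h1
      · linarith [h1.2.2, h.1]
      · exact ⟨h1.1, by linarith [h.2.2.1], h.2.2.2.le⟩
  have h' : (0 < y' ∧ y' < 1 ∧ 0 < y ∧ y < 1) ∨ (1 < y' ∧ y' < 2 ∧ 1 < y ∧ y < 2) := by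
    rcases h with h | h
    · exact Or.inl ⟨h.2.2.1, h.2.2.2, h.1, h.2.1⟩
    · exact Or.inr ⟨h.2.2.1, h.2.2.2, h.1, h.2.1⟩
  have hiff : (x, y) ∈ Ltr ↔ (x, y') ∈ Ltr := ⟨key y y' h, key y' y h'⟩
  unfold Lf
  by_cases h1 : (x, y) ∈ Ltr
  · rw [if_pos h1, if_pos (hiff.1 h1)]
  · rw [if_neg h1, if_neg (fun h2 => h1 (hiff.2 h2))]

private theorem G2_Lf0 (x y : ℝ) (h : y < 0 ∨ 2 < y) : Lf (x, y) = 0 := by
  unfold Lf
  refine if_neg fun h1 => ?_
  unfold Ltr at h1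
  simp only [Set.mem_union, Set.mem_prod, Set.mem_Icc] at h1
  rcases h with h | h <;> rcases h1 with h1 | h1
  · linarith [h1.2.1]
  · linarith [h1.2.1]
  · linarith [h1.2.2]
  · linarith [h1.2.2]

private theorem G2_Lf1 (x y : ℝ) (hx : 0 < x) (hx1 : x < 1) (hy : 0 < y) (hy2 : y < 2) :
    Lf (x, y) = 1 := by
  unfold Lf
  refine if_pos ?_
  unfold Ltr
  simp only [Set.mem_union, Set.mem_prod, Set.mem_Icc]
  exact Or.inr ⟨⟨hx.le, hx1.le⟩, hy.le, hy2.le⟩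

private theorem G2_bdd {f : ℝ × ℝ → ℤ} (hb : ∃ R : ℝ, ∀ z, f z ≠ 0 → |z.1| ≤ R ∧ |z.2| ≤ R)
    (c c' : ℤ) (y y' : ℝ) (w w' : ℝ) (d d' : ℤ) :
    ∃ R : ℝ, ∀ u : ℝ, c * f (u, y) + c' * f (u, y') + d * f (u, w) + d' * f (u, w') ≠ 0 →
      |u| ≤ R := by
  obtain ⟨R, hR⟩ := hb
  refine ⟨R, fun u hu => ?_⟩
  by_contra h
  apply hu
  have h0 : ∀ v, f (u, v) = 0 := fun v => by
    by_contra h1
    exact h (hR _ h1).1
  rw [h0, h0, h0, h0]
  ring

theorem G2 {ι : Type} [Fintype ι] (hodd : Odd (Fintype.card ι)) {Γ : AddSubgroup ℝ} {Ω : Set ℝ}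
    {f : ℝ × ℝ → ℤ} {ρ : ι → SP} {t : ι → Γ × Γ} (S : Sys ι Γ Ω f ρ t) (hf : ∀ z, 0 ≤ f z)
    (hs : ∀ i, (ρ i).s = false) (hy : ∀ i i', (ρ i).b = (ρ i').b → (t i).2 = (t i').2) :
    (∀ i, ∀ x ∈ Ω, ∀ y ∈ Ω, ∀ y' ∈ Ω,
      ((0 < y ∧ y < 1 ∧ 0 < y' ∧ y' < 1) ∨ (1 < y ∧ y < 2 ∧ 1 < y' ∧ y' < 2)) →
      f ((ρ i)⁻¹ • ((x, y) - co Γ (t i))) = f ((ρ i)⁻¹ • ((x, y') - co Γ (t i)))) ∧
    ∀ i i', (ρ i).b = 1 → (ρ i').b = -1 → ((t i).2 : ℝ) + (t i').2 = 2 := by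
  classical
  have hA := S.adm
  have hE : ∀ x ∈ Ω, ∀ y ∈ Ω, ∑ i, f ((ρ i).a • (x - ((t i).1 : ℝ)), (ρ i).b • (y - ((t i).2 : ℝ))) =
      Lf (x, y) := by
    intro x hx y hy
    rw [← S.eq (x, y) ⟨hx, hy⟩]
    exact sum_congr rfl fun i _ => by rw [G2_val _ (hs i)]
  simp only [fun i x y => G2_val (ρ i) (hs i) (t i) x y]
  by_cases hIJ : (∃ i, (ρ i).b = 1) ∧ ∃ i, (ρ i).b = -1
  · -- both classes are nonempty
    obtain ⟨⟨i0, hi0⟩, j0, hj0⟩ := hIJ
    set yI : Γ := (t i0).2 with hyI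
    set yJ : Γ := (t j0).2 with hyJ
    have hI : ∀ i, (ρ i).b = 1 → (t i).2 = yI := fun i hi => hy i i0 (by rw [hi, hi0])
    have hJ : ∀ i, (ρ i).b = -1 → (t i).2 = yJ := fun i hi => hy i j0 (by rw [hi, hj0])
    have hbI : ∀ i, (ρ i).b = 1 → ∀ y : ℝ, (ρ i).b • (y - ((t i).2 : ℝ)) = y - yI := by
      intro i hi y
      rw [hI i hi, hi, one_smul]
    have hbJ : ∀ i, (ρ i).b = -1 → ∀ y : ℝ, (ρ i).b • (y - ((t i).2 : ℝ)) = yJ - y := by
      intro i hi y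
      rw [hJ i hi, hi, Units.neg_smul, one_smul]
      ring
    -- vanishing rows
    have hZ : ∀ y ∈ Ω, (y < 0 ∨ 2 < y) → ∀ u ∈ Ω, f (u, y - yI) = 0 ∧ f (u, yJ - y) = 0 := by
      intro y hyΩ hy0
      have h1 : ∀ x ∈ Ω, ∀ i, f ((ρ i).a • (x - ((t i).1 : ℝ)), (ρ i).b • (y - ((t i).2 : ℝ))) = 0 := by
        intro x hx i
        have h2 := hE x hx y hyΩ
        rw [G2_Lf0 x y hy0] at h2
        exact (sum_eq_zero_iff_of_nonneg fun i _ => hf _).1 h2 i (mem_univ i)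
      intro u hu
      refine ⟨?_, ?_⟩
      · obtain ⟨x, hx, hxu⟩ := G2_surj hA (ρ i0).a u (t i0).1 hu
        have h3 := h1 x hx i0
        rwa [hbI i0 hi0, hxu] at h3
      · obtain ⟨x, hx, hxu⟩ := G2_surj hA (ρ j0).a u (t j0).1 hu
        have h3 := h1 x hx j0
        rwa [hbJ j0 hj0, hxu] at h3
    have hneg : ∀ i, ¬ (ρ i).b = 1 → (ρ i).b = -1 :=
      fun i hi => (Int.units_eq_one_or (ρ i).b).resolve_left hi
    have hs2 : (yI : ℝ) + yJ = 2 := by
      by_contra hne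
      obtain ⟨y, hyΩ, hy0, hy2, hys⟩ : ∃ y ∈ Ω, 0 < y ∧ y < 2 ∧
          ((yI : ℝ) + yJ - y < 0 ∨ 2 < (yI : ℝ) + yJ - y) := by
        rcases lt_or_gt_of_ne hne with hlt | hgt
        · obtain ⟨y, hyΩ, h1, h2⟩ := hA.dense.exists_between
            (show max ((yI : ℝ) + yJ) 0 < 2 from max_lt hlt two_pos)
          exact ⟨y, hyΩ, (le_max_right _ _).trans_lt h1, h2,
            Or.inl (by linarith [(le_max_left ((yI : ℝ) + yJ) 0).trans_lt h1])⟩
        · obtain ⟨y, hyΩ, h1, h2⟩ := hA.dense.exists_between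
            (show (0 : ℝ) < min ((yI : ℝ) + yJ - 2) 2 from lt_min (by linarith) two_pos)
          exact ⟨y, hyΩ, h1, h2.trans_le (min_le_right _ _),
            Or.inr (by linarith [h2.trans_le (min_le_left ((yI : ℝ) + yJ - 2) 2)])⟩
      have hsy : (yI : ℝ) + yJ - y ∈ Ω := by
        have h1 := G2_inv hA (-1) y (yI + yJ) hyΩ
        rw [Units.neg_smul, one_smul] at h1
        have h2 : -(y - ((yI + yJ : Γ) : ℝ)) = (yI : ℝ) + yJ - y := by
          push_cast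
          ring
        rwa [h2] at h1
      obtain ⟨x, hxΩ, hx0, hx1⟩ := hA.dense.exists_between (show (0 : ℝ) < 1 from one_pos)
      have h1 := hE x hxΩ y hyΩ
      rw [G2_Lf1 x y hx0 hx1 hy0 hy2] at h1
      have h2 : ∑ i, f ((ρ i).a • (x - ((t i).1 : ℝ)), (ρ i).b • (y - ((t i).2 : ℝ))) = 0 := by
        refine sum_eq_zero fun i _ => ?_
        have h3 := hZ _ hsy hys _ (G2_inv hA (ρ i).a x (t i).1 hxΩ)
        by_cases hi : (ρ i).b = 1
        · rw [hbI i hi]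
          have h4 := h3.2
          rwa [show (yJ : ℝ) - ((yI : ℝ) + yJ - y) = y - yI by ring] at h4
        · rw [hbJ i (hneg i hi)]
          have h4 := h3.1
          rwa [show (yI : ℝ) + yJ - y - yI = yJ - y by ring] at h4
      rw [h1] at h2
      exact one_ne_zero h2
    have key : ∀ y ∈ Ω, ∀ y' ∈ Ω, (∀ x, Lf (x, y) = Lf (x, y')) →
        (∀ x, Lf (x, 2 - y) = Lf (x, 2 - y')) →
        ∀ u ∈ Ω, f (u, y - yI) = f (u, y' - yI) ∧ f (u, yJ - y) = f (u, yJ - y') := by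
      intro y hyΩ y' hyΩ' hL1 hL2
      have h2mem : ∀ y ∈ Ω, (2 : ℝ) - y ∈ Ω := by
        intro y hy
        have h1 := hA.add _ (hA.neg _ hy) 2 (by
          have := Γ.add_mem hA.one_mem hA.one_mem
          norm_num at this
          exact this)
        rwa [show -y + 2 = 2 - y by ring] at h1
      have hsum : ∀ x ∈ Ω, ∀ w ∈ Ω, ∑ i, (if (ρ i).b = 1 then
          f ((ρ i).a • (x - ((t i).1 : ℝ)), w - yI) else
          f ((ρ i).a • (x - ((t i).1 : ℝ)), yJ - w)) = Lf (x, w) := by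
        intro x hx w hw
        rw [← hE x hx w hw]
        refine sum_congr rfl fun i _ => ?_
        by_cases hi : (ρ i).b = 1
        · rw [if_pos hi, hbI i hi]
        · rw [if_neg hi, hbJ i (hneg i hi)]
      have e1 : ∀ w : ℝ, 2 - w - (yI : ℝ) = yJ - w := fun w => by linarith
      have e2 : ∀ w : ℝ, (yJ : ℝ) - (2 - w) = w - yI := fun w => by linarith
      have hp : ∀ u ∈ Ω, 1 * f (u, y - yI) + (-1) * f (u, y' - yI) + 1 * f (u, yJ - y) +
          (-1) * f (u, yJ - y') = 0 := by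
        refine G1 hodd hA (fun _ => 1) (fun i => (ρ i).a) (fun i => (t i).1) _
          (G2_bdd S.bdd 1 (-1) _ _ _ _ 1 (-1)) fun x hx => ?_
        have a1 := hsum x hx y hyΩ
        have a2 := hsum x hx y' hyΩ'
        have a3 := hsum x hx _ (h2mem y hyΩ)
        have a4 := hsum x hx _ (h2mem y' hyΩ')
        rw [hL1, ← a2] at a1
        rw [hL2, ← a4] at a3
        simp only [e1, e2] at a3
        rw [← sub_eq_zero, ← sum_sub_distrib] at a1 a3
        rw [← add_zero (0 : ℤ)]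
        nth_rewrite 1 [← a1]
        rw [← a3, ← sum_add_distrib]
        refine sum_congr rfl fun i _ => ?_
        by_cases hi : (ρ i).b = 1
        · simp only [if_pos hi, Units.val_one]
          ring
        · simp only [if_neg hi, Units.val_one]
          ring
      have hm : ∀ u ∈ Ω, 1 * f (u, y - yI) + (-1) * f (u, y' - yI) + (-1) * f (u, yJ - y) +
          1 * f (u, yJ - y') = 0 := by
        refine G1 hodd hA (fun i => (ρ i).b) (fun i => (ρ i).a) (fun i => (t i).1) _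
          (G2_bdd S.bdd 1 (-1) _ _ _ _ (-1) 1) fun x hx => ?_
        have a1 := hsum x hx y hyΩ
        have a2 := hsum x hx y' hyΩ'
        have a3 := hsum x hx _ (h2mem y hyΩ)
        have a4 := hsum x hx _ (h2mem y' hyΩ')
        rw [hL1, ← a2] at a1
        rw [hL2, ← a4] at a3
        simp only [e1, e2] at a3
        rw [← sub_eq_zero, ← sum_sub_distrib] at a1 a3
        rw [← sub_zero (0 : ℤ)]
        nth_rewrite 1 [← a1]
        rw [← a3, ← sum_sub_distrib]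
        refine sum_congr rfl fun i _ => ?_
        by_cases hi : (ρ i).b = 1
        · simp only [if_pos hi]
          rw [hi]
          simp only [Units.val_one]
          ring
        · simp only [if_neg hi]
          rw [hneg i hi]
          simp only [Units.val_neg, Units.val_one]
          ring
      intro u hu
      have b1 := hp u hu
      have b2 := hm u hu
      constructor <;> omega
    refine ⟨?_, ?_⟩
    · intro i x hx y hyΩ y' hyΩ' hyy
      have hyy2 : (0 < 2 - y ∧ 2 - y < 1 ∧ 0 < 2 - y' ∧ 2 - y' < 1) ∨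
          (1 < 2 - y ∧ 2 - y < 2 ∧ 1 < 2 - y' ∧ 2 - y' < 2) := by
        rcases hyy with h | h
        · right
          exact ⟨by linarith, by linarith, by linarith, by linarith⟩
        · left
          exact ⟨by linarith, by linarith, by linarith, by linarith⟩
      have h1 := key y hyΩ y' hyΩ' (fun x => G2_Lf x y y' hyy) (fun x => G2_Lf x _ _ hyy2) _
        (G2_inv hA (ρ i).a x (t i).1 hx)
      by_cases hi : (ρ i).b = 1
      · rw [hbI i hi, hbI i hi]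
        exact h1.1
      · rw [hbJ i (hneg i hi), hbJ i (hneg i hi)]
        exact h1.2
    · intro i i' hi hi'
      rw [hI i hi, hJ i' hi']
      exact hs2
  · -- all `b` are equal
    have hbb : ∀ i i', (ρ i).b = (ρ i').b := by
      intro i i'
      rcases Int.units_eq_one_or (ρ i).b with h1 | h1 <;>
        rcases Int.units_eq_one_or (ρ i').b with h2 | h2
      · rw [h1, h2]
      · exact absurd ⟨⟨i, h1⟩, i', h2⟩ hIJ
      · exact absurd ⟨⟨i', h2⟩, i, h1⟩ hIJ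
      · rw [h1, h2]
    refine ⟨?_, ?_⟩
    · intro i x hx y hyΩ y' hyΩ' hyy
      have h1 : ∀ u ∈ Ω, 1 * f (u, (ρ i).b • (y - ((t i).2 : ℝ))) +
          (-1) * f (u, (ρ i).b • (y' - ((t i).2 : ℝ))) + 0 * f (u, 0) + 0 * f (u, 0) = 0 := by
        refine G1 hodd hA (fun _ => 1) (fun i => (ρ i).a) (fun i => (t i).1) _
          (G2_bdd S.bdd 1 (-1) _ _ _ _ 0 0) fun x hx => ?_
        have a1 := hE x hx y hyΩ
        have a2 := hE x hx y' hyΩ'
        rw [G2_Lf x y y' hyy, ← a2, ← sub_eq_zero, ← sum_sub_distrib] at a1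
        refine Eq.trans (sum_congr rfl fun j _ => ?_) a1
        rw [hbb i j, hy i j (hbb i j)]
        simp only [Units.val_one]
        ring
      have h2 := h1 _ (G2_inv hA (ρ i).a x (t i).1 hx)
      omega
    · intro i i' hi hi'
      exact absurd ⟨⟨i, hi⟩, i', hi'⟩ hIJ

end APd
end

section

/-!
# AP R4b: killed rows of the periodised function

PROOF. `f` has bounded support, all sums are finite. `PP f (x, y) = ∑ᶠ l : ℤ, rs f x (y + l)`. Let `c(y)` be the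
constant of `hs` for `y ∈ Ω`: `∑_u s_u rs f (x - u) y = c(y)` for `x ∈ Ω`. For `x, y ∈ Ω`:
`∑_u (a * s)_u rs f (x - u) y = ∑_w a_w ∑_u s_u rs f (x - w - u) y = (∑_w a_w) c(y)` (the left side is
`act Γ.subtype (a * s) (rs f · y) x`, and `act` is multiplicative; `x - w ∈ Ω`). Sum over the finitely many relevant `l` with
`y + l` instead of `y` (`y + l ∈ Ω`): `A y := ∑ᶠ l, (aug a) * c (y + l)`, or simply take
`A y := ` the value at one fixed point `x₀ ∈ Ω` (if `Ω` is empty there is nothing to prove).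
-/

open Set Topology Finset

namespace APd

private lemma PP_eq_finsum {f : ℝ × ℝ → ℤ} {R : ℝ} (hf : ∀ z, f z ≠ 0 → |z.1| ≤ R ∧ |z.2| ≤ R)
    (x y : ℝ) : PP f (x, y) = ∑ᶠ l : ℤ, rs f x (y + l) := by
  unfold PP
  rw [← finsum_comp_equiv (Equiv.prodComm ℤ ℤ)]
  have hfin : (Function.support fun p : ℤ × ℤ =>
      f ((x, y).1 + (((Equiv.prodComm ℤ ℤ) p).1 : ℝ), (x, y).2 + (((Equiv.prodComm ℤ ℤ) p).2 : ℝ))).Finite := by
    refine Set.Finite.subset ((Set.finite_Icc (⌈-R - y⌉) (⌊R - y⌋)).prod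
      (Set.finite_Icc (⌈-R - x⌉) (⌊R - x⌋))) ?_
    rintro ⟨l, k⟩ hp
    have h1 := hf _ hp
    simp only [Equiv.prodComm_apply, Prod.swap_prod_mk] at h1
    rw [abs_le, abs_le] at h1
    simp only [Set.mem_prod, Set.mem_Icc, Int.ceil_le, Int.le_floor]
    refine ⟨⟨?_, ?_⟩, ?_, ?_⟩ <;> linarith [h1.1.1, h1.1.2, h1.2.1, h1.2.2]
  rw [finsum_curry _ hfin]
  rfl

private lemma rs_zero {f : ℝ × ℝ → ℤ} {R : ℝ} (hf : ∀ z, f z ≠ 0 → |z.1| ≤ R ∧ |z.2| ≤ R)
    (x y : ℝ) (hy : ¬ |y| ≤ R) : rs f x y = 0 := by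
  unfold rs
  refine finsum_eq_zero_of_forall_eq_zero fun k => ?_
  by_contra h
  exact hy (hf _ h).2

private lemma PP_eq_sum {f : ℝ × ℝ → ℤ} {R : ℝ} (hf : ∀ z, f z ≠ 0 → |z.1| ≤ R ∧ |z.2| ≤ R)
    (x y : ℝ) : PP f (x, y) = ∑ l ∈ Finset.Icc (⌈-R - y⌉) (⌊R - y⌋), rs f x (y + l) := by
  rw [PP_eq_finsum hf]
  refine finsum_eq_sum_of_support_subset _ ?_
  intro l hl
  rw [Function.mem_support] at hl
  rw [Finset.coe_Icc, Set.mem_Icc, Int.ceil_le, Int.le_floor]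
  by_contra h
  apply hl
  apply rs_zero hf
  intro h2
  rw [abs_le] at h2
  apply h
  constructor <;> linarith [h2.1, h2.2]

private lemma int_mem {Γ : AddSubgroup ℝ} {Ω : Set ℝ} (h : Adm Γ Ω) (l : ℤ) : (l : ℝ) ∈ Γ := by
  have := Γ.zsmul_mem h.one_mem l
  simpa using this

theorem R4b {Γ : AddSubgroup ℝ} {Ω : Set ℝ} (h : Adm Γ Ω) {f : ℝ × ℝ → ℤ}
    (hf : ∃ R : ℝ, ∀ z, f z ≠ 0 → |z.1| ≤ R ∧ |z.2| ≤ R) (s : AddMonoidAlgebra ℤ Γ)
    (hs : KillsRows Ω s f) (a : AddMonoidAlgebra ℤ Γ) :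
    ∃ A : ℝ → ℤ, ∀ x ∈ Ω, ∀ y ∈ Ω,
      ((a * s).coeff.sum fun u c => c * PP f (x - u, y)) = A y := by
  classical
  obtain ⟨R, hR⟩ := hf
  choose c hc using hs
  refine ⟨fun y => if hy : y ∈ Ω then
    ∑ l ∈ Finset.Icc (⌈-R - y⌉) (⌊R - y⌋), a.coeff.sum fun _ b => b * c (y + l) (h.add y hy l (int_mem h l))
    else 0, fun x hx y hy => ?_⟩
  show _ = dite (y ∈ Ω) _ _
  rw [dif_pos hy]
  have h1 : ((a * s).coeff.sum fun u b => b * PP f (x - u, y)) =
      act Γ.subtype (a * s) (fun x' => PP f (x', y)) x := by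
    rw [act_apply]
    rfl
  have h2 : (fun x' => PP f (x', y)) =
      ∑ l ∈ Finset.Icc (⌈-R - y⌉) (⌊R - y⌋), fun x' => rs f x' (y + l) := by
    ext x'
    rw [PP_eq_sum hR, Finset.sum_apply]
  rw [h1, h2, map_sum, Finset.sum_apply]
  refine Finset.sum_congr rfl fun l _ => ?_
  rw [map_mul, Module.End.mul_apply, act_apply]
  refine Finsupp.sum_congr fun w _ => ?_
  rw [smul_eq_mul]
  congr 1
  rw [act_apply]
  have hxw : x - Γ.subtype w ∈ Ω := by
    rw [sub_eq_add_neg]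
    exact h.add x hx _ (Γ.neg_mem w.2)
  have h3 := hc (y + l) (h.add y hy l (int_mem h l)) _ hxw
  rw [← h3]
  rfl

end APd
end

section

/-!
# AP R4: rows and columns cannot both be killed

PROOF. Notation: `u ↦ -u` induces the involution `*` of `ℤ[Γ]` (`AddMonoidAlgebra.mapDomain` of negation);
`σ := (s * s*) * (s' * s'*)`, so `σ* = σ`, i.e. `σ.coeff (-u) = σ.coeff u`, and `aug σ = (aug s)^2 (aug s')^2`.
(1) By `R4b`: `∑_u σ_u PP f (x - u, y) = A(y)` for all `x, y ∈ Ω`.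
(2) `R4b` for `fun z => f z.swap` and `s'` (`PP (fun z => f z.swap) z = PP f z.swap`): `∑_v σ_v PP f (x, y - v) = B(x)` for
`x, y ∈ Ω`.
(3) `T(x,y) := ∑_u ∑_v σ_u σ_v PP f (x - u, y - v)`. By (1) `T(x,y) = ∑_v σ_v A(y - v)` depends only on `y ∈ Ω`, by (2) only
on `x ∈ Ω`, so `T = c` is constant on `Ω ×ˢ Ω` (`Ω` is not empty: its complement is countable).
(4) `R4a`: for `z ∈ Ω ×ˢ Ω`: `∑ i, PP f ((ρ i)⁻¹ • (z - co (t i))) = 3`.
(5) The function `w ↦ σ_{w.1} σ_{w.2}` on `Γ × Γ` is invariant under `SP` (`σ* = σ`). Hence for `g ∈ SP`, `z - v ∈ Ω ×ˢ Ω`: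
`∑_w σ_{w.1} σ_{w.2} PP f (g⁻¹ • (z - co w - v)) = ∑_{w'} σ_{w'.1} σ_{w'.2} PP f (g⁻¹ • (z - v) - co w') = T (g⁻¹ • (z - v)) = c`
(`w' = g⁻¹ • w`).
(6) Fix `z ∈ Ω ×ˢ Ω`. Apply `∑_w σ_{w.1} σ_{w.2} (..)(z - co w)` to (4): `card ι * c = 3 * (aug σ)^2
= 3 (aug s)^4 (aug s')^4`.
-/

open Set Topology Finset

namespace APd

private noncomputable def R4st (Γ : AddSubgroup ℝ) : AddMonoidAlgebra ℤ Γ →+* AddMonoidAlgebra ℤ Γ :=
  AddMonoidAlgebra.mapDomainRingHom ℤ (negAddMonoidHom : Γ →+ Γ)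

private lemma R4st_coeff (Γ : AddSubgroup ℝ) (x : AddMonoidAlgebra ℤ Γ) (u : Γ) :
    (R4st Γ x).coeff (-u) = x.coeff u := by
  have h1 : (R4st Γ x).coeff = Finsupp.mapDomain (fun u : Γ => -u) x.coeff := rfl
  rw [h1]
  exact Finsupp.mapDomain_apply (f := fun u : Γ => -u) neg_injective x.coeff u

private lemma R4st_st (Γ : AddSubgroup ℝ) (x : AddMonoidAlgebra ℤ Γ) : R4st Γ (R4st Γ x) = x := by
  apply AddMonoidAlgebra.coeff_injective
  ext u
  have h1 := R4st_coeff Γ (R4st Γ x) (-u)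
  rw [neg_neg] at h1
  rw [h1]
  exact R4st_coeff Γ x u

private lemma R4aug (Γ : AddSubgroup ℝ) (x : AddMonoidAlgebra ℤ Γ) :
    aug ℤ Γ (R4st Γ x) = aug ℤ Γ x := by
  rw [aug_apply, aug_apply]
  have h1 : (R4st Γ x).coeff = Finsupp.mapDomain (fun u : Γ => -u) x.coeff := rfl
  rw [h1, Finsupp.sum_mapDomain_index (fun _ => rfl) (fun _ _ _ => rfl)]

private lemma R4swap (f : ℝ × ℝ → ℤ) (x y : ℝ) : PP (fun z => f z.swap) (x, y) = PP f (y, x) := by
  unfold PP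
  rw [← finsum_comp_equiv (Equiv.prodComm ℤ ℤ)]
  rfl

private lemma R4units (Γ : AddSubgroup ℝ) (σ : Γ → ℤ) (hσ : ∀ u, σ (-u) = σ u) (a : ℤˣ) (u : Γ) :
    σ (a • u) = σ u := by
  rcases Int.units_eq_one_or a with rfl | rfl
  · rw [one_smul]
  · rw [Units.smul_def, Units.val_neg, Units.val_one, neg_smul, one_smul]
    exact hσ u

theorem R4 {ι : Type} [Fintype ι] {Γ : AddSubgroup ℝ} {Ω : Set ℝ} {f : ℝ × ℝ → ℤ} {ρ : ι → SP}
    {t : ι → Γ × Γ} (S : Sys ι Γ Ω f ρ t) (s s' : AddMonoidAlgebra ℤ Γ) (hs : KillsRows Ω s f)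
    (hs' : KillsRows Ω s' fun z => f z.swap) :
    (Fintype.card ι : ℤ) ∣ 3 * (aug ℤ Γ s) ^ 4 * (aug ℤ Γ s') ^ 4 := by
  classical
  obtain ⟨σ, hσ⟩ : ∃ σ, σ = (s * R4st Γ s) * (s' * R4st Γ s') := ⟨_, rfl⟩
  have hst : R4st Γ σ = σ := by
    rw [hσ, map_mul, map_mul, map_mul, R4st_st, R4st_st]
    ring
  have hneg : ∀ u, σ.coeff (-u) = σ.coeff u := fun u => by
    conv_lhs => rw [← hst]
    exact R4st_coeff Γ σ u
  have haug : aug ℤ Γ σ = (aug ℤ Γ s) ^ 2 * (aug ℤ Γ s') ^ 2 := by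
    rw [hσ, map_mul, map_mul, map_mul, R4aug, R4aug]
    ring
  have hbs : ∃ R : ℝ, ∀ z : ℝ × ℝ, f z.swap ≠ 0 → |z.1| ≤ R ∧ |z.2| ≤ R := by
    obtain ⟨R, hR⟩ := S.bdd
    exact ⟨R, fun z hz => ⟨(hR _ hz).2, (hR _ hz).1⟩⟩
  obtain ⟨A, hA⟩ := R4b S.adm S.bdd s hs (R4st Γ s * (s' * R4st Γ s'))
  obtain ⟨B, hB⟩ := R4b S.adm hbs s' hs' ((s * R4st Γ s) * R4st Γ s')
  have e1 : R4st Γ s * (s' * R4st Γ s') * s = σ := by rw [hσ]; ring
  have e2 : (s * R4st Γ s) * R4st Γ s' * s' = σ := by rw [hσ]; ring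
  rw [e1] at hA
  rw [e2] at hB
  obtain ⟨U, hU⟩ : ∃ U : Finset Γ, U = σ.coeff.support := ⟨_, rfl⟩
  have hA' : ∀ x ∈ Ω, ∀ y ∈ Ω, ∑ u ∈ U, σ.coeff u * PP f (x - u, y) = A y := by
    intro x hx y hy
    rw [hU]
    exact hA x hx y hy
  have hB' : ∀ x ∈ Ω, ∀ y ∈ Ω, ∑ v ∈ U, σ.coeff v * PP f (x, y - v) = B x := by
    intro x hx y hy
    have h1 := hB y hy x hx
    rw [← h1, hU]
    refine Finset.sum_congr rfl fun v _ => ?_
    show _ = σ.coeff v * PP (fun z => f z.swap) (y - v, x)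
    rw [R4swap]
  have hsub : ∀ x ∈ Ω, ∀ u : Γ, x - (u : ℝ) ∈ Ω := by
    intro x hx u
    rw [sub_eq_add_neg]
    exact S.adm.add x hx _ (Γ.neg_mem u.2)
  obtain ⟨T, hT⟩ : ∃ T : ℝ × ℝ → ℤ, ∀ z, T z =
      ∑ w ∈ U ×ˢ U, σ.coeff w.1 * σ.coeff w.2 * PP f (z - co Γ w) := ⟨_, fun _ => rfl⟩
  have hco : ∀ (x y : ℝ) (u v : Γ), ((x, y) : ℝ × ℝ) - co Γ (u, v) = (x - u, y - v) := by
    intro x y u v
    rfl
  have hT1 : ∀ x ∈ Ω, ∀ y ∈ Ω, T (x, y) = ∑ v ∈ U, σ.coeff v * A (y - v) := by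
    intro x hx y hy
    rw [hT, Finset.sum_product_right]
    refine Finset.sum_congr rfl fun v _ => ?_
    rw [← hA' x hx (y - v) (hsub y hy v), Finset.mul_sum]
    refine Finset.sum_congr rfl fun u _ => ?_
    rw [hco]
    ring
  have hT2 : ∀ x ∈ Ω, ∀ y ∈ Ω, T (x, y) = ∑ u ∈ U, σ.coeff u * B (x - u) := by
    intro x hx y hy
    rw [hT, Finset.sum_product]
    refine Finset.sum_congr rfl fun u _ => ?_
    rw [← hB' (x - u) (hsub x hx u) y hy, Finset.mul_sum]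
    refine Finset.sum_congr rfl fun v _ => ?_
    rw [hco]
    ring
  obtain ⟨x0, hx0⟩ := S.adm.dense.nonempty
  obtain ⟨c, hc⟩ : ∃ c, c = T (x0, x0) := ⟨_, rfl⟩
  have hTc : ∀ z ∈ Ω ×ˢ Ω, T z = c := by
    rintro ⟨x, y⟩ ⟨hx, hy⟩
    rw [hT1 x hx y hy, ← hT1 x0 hx0 y hy, hT2 x0 hx0 y hy, ← hT2 x0 hx0 x0 hx0, hc]
  -- invariance of `Ω × Ω`
  have hΩneg : ∀ (a : ℤˣ), ∀ x ∈ Ω, a • x ∈ Ω := by
    intro a x hx
    rcases Int.units_eq_one_or a with rfl | rfl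
    · rwa [one_smul]
    · rw [Units.smul_def, Units.val_neg, Units.val_one, neg_smul, one_smul]
      exact S.adm.neg x hx
  have hΩsm : ∀ (g : SP), ∀ z ∈ Ω ×ˢ Ω, g • z ∈ Ω ×ˢ Ω := by
    rintro ⟨gs, a, b⟩ ⟨x, y⟩ ⟨hx, hy⟩
    cases gs
    · exact ⟨hΩneg a x hx, hΩneg b y hy⟩
    · exact ⟨hΩneg a y hy, hΩneg b x hx⟩
  have hΩco : ∀ z ∈ Ω ×ˢ Ω, ∀ v : Γ × Γ, z - co Γ v ∈ Ω ×ˢ Ω := by
    rintro ⟨x, y⟩ ⟨hx, hy⟩ ⟨u, v⟩
    exact ⟨hsub x hx u, hsub y hy v⟩
  -- the weight and its invariance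
  have hW : ∀ (g : SP) (w : Γ × Γ),
      σ.coeff (g • w).1 * σ.coeff (g • w).2 = σ.coeff w.1 * σ.coeff w.2 := by
    rintro ⟨gs, a, b⟩ ⟨u, v⟩
    cases gs
    · simp only [SP.smul_def, cond_false]
      rw [R4units Γ (fun u => σ.coeff u) hneg, R4units Γ (fun u => σ.coeff u) hneg]
    · simp only [SP.smul_def, cond_true]
      rw [R4units Γ (fun u => σ.coeff u) hneg, R4units Γ (fun u => σ.coeff u) hneg, mul_comm]
  have hmem : ∀ w : Γ × Γ, w ∈ U ×ˢ U ↔ σ.coeff w.1 * σ.coeff w.2 ≠ 0 := by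
    intro w
    rw [Finset.mem_product, hU, Finsupp.mem_support_iff, Finsupp.mem_support_iff, mul_ne_zero_iff]
  have h5 : ∀ (g : SP) (v : Γ × Γ), ∀ z ∈ Ω ×ˢ Ω,
      ∑ w ∈ U ×ˢ U, σ.coeff w.1 * σ.coeff w.2 * PP f (g⁻¹ • (z - co Γ w - co Γ v)) = c := by
    intro g v z hz
    have hz' : g⁻¹ • (z - co Γ v) ∈ Ω ×ˢ Ω := hΩsm _ _ (hΩco z hz v)
    rw [← hTc _ hz', hT]
    refine Finset.sum_bij' (fun w _ => g⁻¹ • w) (fun w _ => g • w) ?_ ?_ ?_ ?_ ?_
    · intro w hw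
      rw [hmem] at hw ⊢
      rwa [hW]
    · intro w hw
      rw [hmem] at hw ⊢
      rwa [hW]
    · intro w _
      exact smul_inv_smul g w
    · intro w _
      exact inv_smul_smul g w
    · intro w _
      rw [hW, co_smul, ← smul_sub]
      congr 3
      abel
  -- conclusion
  have hz0 : ((x0, x0) : ℝ × ℝ) ∈ Ω ×ˢ Ω := ⟨hx0, hx0⟩
  have h6 : ∑ w ∈ U ×ˢ U, σ.coeff w.1 * σ.coeff w.2 *
      ∑ i, PP f ((ρ i)⁻¹ • ((x0, x0) - co Γ w - co Γ (t i))) = (Fintype.card ι : ℤ) * c := by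
    simp_rw [Finset.mul_sum]
    rw [Finset.sum_comm]
    rw [Finset.sum_congr rfl fun i _ => h5 (ρ i) (t i) _ hz0]
    rw [Finset.sum_const, Finset.card_univ, nsmul_eq_mul]
  have h7 : ∑ w ∈ U ×ˢ U, σ.coeff w.1 * σ.coeff w.2 *
      ∑ i, PP f ((ρ i)⁻¹ • ((x0, x0) - co Γ w - co Γ (t i))) = 3 * (aug ℤ Γ σ) ^ 2 := by
    have h8 : aug ℤ Γ σ = ∑ u ∈ U, σ.coeff u := by
      rw [aug_apply, hU]
      rfl
    rw [Finset.sum_congr rfl fun w _ => by rw [R4a S _ (hΩco _ hz0 w)], ← Finset.sum_mul,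
      Finset.sum_product, h8, sq, Finset.sum_mul_sum, mul_comm]
  refine ⟨c, ?_⟩
  rw [← h6, h7, haug]
  ring

end APd
end

section

/-!
# AP R1a: the prime of a degenerate module

PROOF. Let `W` be the submodule of `N` spanned by all values `G k y` (`k : κ`, `y : ℝ`); it is finitely
generated (the set of values is finite), hence a noetherian module.
For `m : N` let `K(m) := {a | ∃ s ∉ M, s • a • m = 0}`, an ideal (product of the two `s`; `M` is prime).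
`K(m) = ⊤` iff `∃ s ∉ M, s • m = 0`. If `K(m) ≠ ⊤` then `K(m) ≤ M` (if `a ∈ K(m)`, `a ∉ M`, then `s a ∉ M` kills `m`).
Some value `m = G k y` has `K(m) ≠ ⊤`: otherwise choose `s_m ∉ M` killing `m` for each of the finitely many values;
the product is not in `M` and kills all values, against `hnk`.
`A` is noetherian: choose `m' ∈ W` with `K(m') ≠ ⊤` and `K(m')` maximal among the proper ideals
`K(m)`, `m ∈ W`. Let `q := K(m')`.
(1) `q` is prime: if `a b ∈ q`, `b ∉ q`, then `K(b m') ≥ K(m')` and `K(b m') ≠ ⊤` (as `s • b • m' = 0`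
would give `b ∈ q`), so `K(b m') = K(m')`, and `a ∈ K(b m')`.
(2) `q ≤ M`. (3) `π ∉ q`: `s • π • m' = 0` gives `π • (s • m') = 0`, `s • m' = 0`, `K(m') = ⊤`.
(4) Let `M1 := {m ∈ W | ∃ s ∉ q, s • m ∈ q • W}`, a submodule (`q` prime), containing `q • W`, and
`s • m ∈ M1`, `m ∈ W`, `s ∉ q` imply `m ∈ M1`. Claim: some value `G k y` is not in `M1`. Otherwise
there is `s ∉ q` (a finite product over the values) with `s • W ≤ q • W`. By the Cayley-Hamilton trick (for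
the endomorphism `s` of the finitely generated module `W` with range in `q • W`:
`LinearMap.exists_monic_and_coeff_mem_pow_and_aeval_eq_zero_of_range_le_smul`, Mathlib file
`LinearAlgebra/Matrix/Charpoly/LinearMap`) there are `n` and `a_1, ..., a_n ∈ q` such that
`e := s^n + a_1 s^(n-1) + ... + a_n` kills `W`; `e ∉ q` since `s^n ∉ q`; but `e • m' = 0` gives
`e ∈ K(m') = q` (with `s = 1`), contradiction. (Alternative: localise at `q` and use Nakayama.)
-/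

open Set Topology Finset

namespace APd

/-- the ideal `K(m)` -/
private def R1aK {A : Type} [CommRing A] (M : Ideal A) [hM : M.IsPrime]
    {N : Type} [AddCommGroup N] [Module A N] (m : N) : Ideal A where
  carrier := {a | ∃ s : A, s ∉ M ∧ s • a • m = 0}
  zero_mem' := ⟨1, fun h => hM.ne_top ((Ideal.eq_top_iff_one M).2 h), by simp⟩
  add_mem' := by
    rintro a b ⟨s, hs, hsa⟩ ⟨t, ht, htb⟩
    refine ⟨s * t, fun h => (hM.mem_or_mem h).elim hs ht, ?_⟩
    rw [add_smul, smul_add]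
    have h1 : (s * t) • a • m = t • (s • a • m) := by
      rw [smul_smul, smul_smul, smul_smul]
      ring_nf
    have h2 : (s * t) • b • m = s • (t • b • m) := by
      rw [smul_smul, smul_smul, smul_smul]
    rw [h1, h2, hsa, htb, smul_zero, smul_zero, add_zero]
  smul_mem' := by
    rintro c a ⟨s, hs, hsa⟩
    refine ⟨s, hs, ?_⟩
    have : s • (c • a) • m = c • (s • a • m) := by
      rw [smul_eq_mul, smul_smul, smul_smul, smul_smul]
      ring_nf
    rw [this, hsa, smul_zero]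

private lemma R1aK_mem {A : Type} [CommRing A] (M : Ideal A) [hM : M.IsPrime]
    {N : Type} [AddCommGroup N] [Module A N] (m : N) (a : A) :
    a ∈ R1aK M m ↔ ∃ s : A, s ∉ M ∧ s • a • m = 0 := Iff.rfl

private lemma R1aK_top {A : Type} [CommRing A] (M : Ideal A) [hM : M.IsPrime]
    {N : Type} [AddCommGroup N] [Module A N] (m : N) :
    R1aK M m = ⊤ ↔ ∃ s : A, s ∉ M ∧ s • m = 0 := by
  rw [Ideal.eq_top_iff_one, R1aK_mem]
  simp

private lemma R1a_prod {A : Type} [CommRing A] (M : Ideal A) [hM : M.IsPrime] {V : Type}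
    (T : Finset V) (c : V → A) (hc : ∀ v ∈ T, c v ∉ M) : ∏ v ∈ T, c v ∉ M := by
  classical
  intro h
  obtain ⟨v, hv, hv2⟩ := (Ideal.IsPrime.prod_mem_iff (hp := hM)).1 h
  exact hc v hv hv2

/-- the saturation of `q • W` -/
private def R1aM {A : Type} [CommRing A] (q : Ideal A) [hq : q.IsPrime]
    {N : Type} [AddCommGroup N] [Module A N] (W : Submodule A N) : Submodule A N where
  carrier := {m | ∃ s : A, s ∉ q ∧ s • m ∈ q • W}
  zero_mem' := ⟨1, fun h => hq.ne_top ((Ideal.eq_top_iff_one q).2 h), by simp⟩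
  add_mem' := by
    rintro a b ⟨s, hs, hsa⟩ ⟨t, ht, htb⟩
    refine ⟨s * t, fun h => (hq.mem_or_mem h).elim hs ht, ?_⟩
    rw [smul_add]
    have h1 : (s * t) • a = t • (s • a) := by
      rw [smul_smul]
      ring_nf
    have h2 : (s * t) • b = s • (t • b) := by
      rw [smul_smul]
    rw [h1, h2]
    exact Submodule.add_mem _ (Submodule.smul_mem _ _ hsa) (Submodule.smul_mem _ _ htb)
  smul_mem' := by
    rintro c a ⟨s, hs, hsa⟩
    refine ⟨s, hs, ?_⟩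
    rw [smul_comm]
    exact Submodule.smul_mem _ _ hsa

/-- Cayley-Hamilton trick -/
private lemma R1a_CH {A : Type} [CommRing A] (q : Ideal A) [hq : q.IsPrime]
    {N : Type} [AddCommGroup N] [Module A N] (W : Submodule A N) (hW : W.FG) (s : A) (hs : s ∉ q)
    (h : ∀ w ∈ W, s • w ∈ q • W) : ∃ e : A, e ∉ q ∧ ∀ w ∈ W, e • w = 0 := by
  classical
  have : Module.Finite A W := Module.Finite.iff_fg.2 hW
  have hrange : LinearMap.range (algebraMap A (Module.End A W) s) ≤ q • (⊤ : Submodule A W) := by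
    rintro _ ⟨w, rfl⟩
    have h1 : W.subtype (s • w) ∈ (q • (⊤ : Submodule A W)).map W.subtype := by
      rw [Submodule.map_smul'', Submodule.map_top, Submodule.range_subtype]
      simpa using h w w.2
    obtain ⟨w', hw', he⟩ := h1
    have : w' = s • w := Subtype.ext he
    rw [Module.algebraMap_end_apply]
    rwa [← this]
  obtain ⟨p, hp, -, hc, h0⟩ :=
    LinearMap.exists_monic_and_natDegree_eq_and_coeff_mem_pow_and_aeval_eq_zero A
      (algebraMap A (Module.End A W) s) q hrange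
  refine ⟨p.eval s, ?_, ?_⟩
  · intro he
    have h1 : p.map (Ideal.Quotient.mk q) = Polynomial.X ^ p.natDegree := by
      ext k
      rw [Polynomial.coeff_map, Polynomial.coeff_X_pow]
      rcases lt_trichotomy k p.natDegree with hk | hk | hk
      · rw [if_neg hk.ne, Ideal.Quotient.eq_zero_iff_mem]
        exact Ideal.pow_le_self (Nat.sub_ne_zero_of_lt hk) (hc k)
      · rw [if_pos hk, hk, Polynomial.Monic.coeff_natDegree hp, map_one]
      · rw [if_neg hk.ne', Polynomial.coeff_eq_zero_of_natDegree_lt hk, map_zero]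
    have h2 : Ideal.Quotient.mk q (p.eval s) = (Ideal.Quotient.mk q s) ^ p.natDegree := by
      rw [← Polynomial.eval_map_apply, h1]
      simp
    rw [Ideal.Quotient.eq_zero_iff_mem.2 he, ← map_pow] at h2
    exact hs (hq.mem_of_pow_mem _ (Ideal.Quotient.eq_zero_iff_mem.1 h2.symm))
  · intro w hw
    rw [Polynomial.aeval_algebraMap_apply] at h0
    have h1 := congrArg (fun f : Module.End A W => ((f ⟨w, hw⟩ : W) : N)) h0
    simpa [Module.algebraMap_end_apply, Polynomial.coe_aeval_eq_eval] using h1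

theorem R1a {A : Type} [CommRing A] [IsNoetherianRing A] (M : Ideal A) [M.IsPrime] (π : A)
    {N : Type} [AddCommGroup N] [Module A N] (tf : ∀ m : N, π • m = 0 → m = 0)
    {κ : Type} [Finite κ] (G : κ → ℝ → N) (hfin : ∀ k, (Set.range (G k)).Finite)
    (hnk : ∀ s : A, s ∉ M → ∃ k y, s • G k y ≠ 0) :
    ∃ q : Ideal A, q.IsPrime ∧ q ≤ M ∧ π ∉ q ∧ ∃ M1 : Submodule A N,
      (∀ a ∈ q, ∀ k y, a • G k y ∈ M1) ∧ (∀ s ∉ q, ∀ k y, s • G k y ∈ M1 → G k y ∈ M1) ∧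
      ∃ k y, G k y ∉ M1 := by
  classical
  have hfinV : (⋃ k, Set.range (G k)).Finite := Set.finite_iUnion hfin
  set T : Finset N := hfinV.toFinset with hT
  have hTmem : ∀ k y, G k y ∈ T := fun k y => by
    rw [hT, Set.Finite.mem_toFinset]
    exact Set.mem_iUnion.2 ⟨k, ⟨y, rfl⟩⟩
  have hTmem' : ∀ m ∈ T, ∃ k y, G k y = m := fun m hm => by
    rw [hT, Set.Finite.mem_toFinset] at hm
    obtain ⟨k, y, h⟩ := Set.mem_iUnion.1 hm
    exact ⟨k, y, h⟩
  set W : Submodule A N := Submodule.span A (T : Set N) with hWdef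
  have hWfg : W.FG := ⟨T, rfl⟩
  -- some value has a proper ideal
  have hex : ∃ m ∈ W, R1aK M m ≠ ⊤ := by
    by_contra hcon
    push Not at hcon
    have h1 : ∀ m : N, ∃ s : A, m ∈ T → (s ∉ M ∧ s • m = 0) := by
      intro m
      by_cases hm : m ∈ T
      · obtain ⟨s, hs⟩ := (R1aK_top M m).1 (hcon m (Submodule.subset_span hm))
        exact ⟨s, fun _ => hs⟩
      · exact ⟨0, fun h => absurd h hm⟩
    choose c hc using h1
    obtain ⟨k, y, hky⟩ := hnk (∏ m ∈ T, c m) (R1a_prod M T c fun m hm => (hc m hm).1)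
    apply hky
    rw [← Finset.prod_erase_mul T c (hTmem k y), mul_smul, (hc _ (hTmem k y)).2, smul_zero]
  obtain ⟨q, hqmem, hqmax⟩ := set_has_maximal_iff_noetherian.2
    (inferInstance : IsNoetherian A A) {I : Ideal A | ∃ m ∈ W, R1aK M m ≠ ⊤ ∧ I = R1aK M m}
    (by
      obtain ⟨m, hm, hm2⟩ := hex
      exact ⟨_, m, hm, hm2, rfl⟩)
  obtain ⟨m', hm'W, hm'top, hqeq⟩ := hqmem
  have hqprime : Ideal.IsPrime q := by
    refine ⟨hqeq ▸ hm'top, ?_⟩
    intro a b hab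
    by_contra hcon
    push Not at hcon
    obtain ⟨ha, hb⟩ := hcon
    have hle : q ≤ R1aK M (b • m') := by
      intro x hx
      rw [hqeq] at hx
      obtain ⟨s, hs, hsx⟩ := hx
      refine ⟨s, hs, ?_⟩
      have : s • x • b • m' = b • (s • x • m') := by
        rw [smul_smul, smul_smul, smul_smul, smul_smul]
        ring_nf
      rw [this, hsx, smul_zero]
    have hne : R1aK M (b • m') ≠ ⊤ := by
      intro h
      obtain ⟨s, hs, hsb⟩ := (R1aK_top M _).1 h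
      apply hb
      rw [hqeq]
      exact ⟨s, hs, hsb⟩
    have hnlt := hqmax _ ⟨b • m', W.smul_mem b hm'W, hne, rfl⟩
    have heq : R1aK M (b • m') = q := by
      by_contra hne2
      exact hnlt (lt_of_le_of_ne hle (Ne.symm hne2))
    apply ha
    rw [← heq]
    rw [hqeq] at hab
    obtain ⟨s, hs, hsab⟩ := hab
    refine ⟨s, hs, ?_⟩
    rw [smul_smul a b]
    exact hsab
  have hqM : q ≤ M := by
    intro a ha
    by_contra haM
    apply hm'top
    rw [R1aK_top]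
    rw [hqeq] at ha
    obtain ⟨s, hs, hsa⟩ := ha
    refine ⟨s * a, fun h => (Ideal.IsPrime.mem_or_mem inferInstance h).elim hs haM, ?_⟩
    rw [mul_smul]
    exact hsa
  have hπ : π ∉ q := by
    intro h
    rw [hqeq] at h
    obtain ⟨s, hs, hsa⟩ := h
    apply hm'top
    rw [R1aK_top]
    refine ⟨s, hs, tf _ ?_⟩
    rw [smul_comm]
    exact hsa
  have := hqprime
  refine ⟨q, hqprime, hqM, hπ, R1aM q W, ?_, ?_, ?_⟩
  · intro a ha k y
    refine ⟨1, fun h => hqprime.ne_top ((Ideal.eq_top_iff_one q).2 h), ?_⟩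
    rw [one_smul]
    exact Submodule.smul_mem_smul ha (Submodule.subset_span (hTmem k y))
  · rintro s hs k y ⟨t, ht, hts⟩
    refine ⟨t * s, fun h => (hqprime.mem_or_mem h).elim ht hs, ?_⟩
    rw [mul_smul]
    exact hts
  · by_contra hcon
    push Not at hcon
    have h1 : ∀ m : N, ∃ s : A, m ∈ T → (s ∉ q ∧ s • m ∈ q • W) := by
      intro m
      by_cases hm : m ∈ T
      · obtain ⟨k, y, rfl⟩ := hTmem' m hm
        obtain ⟨s, hs⟩ := hcon k y
        exact ⟨s, fun _ => hs⟩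
      · exact ⟨0, fun h => absurd h hm⟩
    choose c hc using h1
    obtain ⟨e, he, heW⟩ := R1a_CH q W hWfg (∏ m ∈ T, c m)
      (R1a_prod q T c fun m hm => (hc m hm).1) (by
        intro w hw
        have hle : W ≤ (q • W).comap (LinearMap.lsmul A N (∏ m ∈ T, c m)) := by
          rw [hWdef, Submodule.span_le]
          intro m hm
          rw [SetLike.mem_coe, Submodule.mem_comap, LinearMap.lsmul_apply,
            ← Finset.prod_erase_mul T c hm, mul_smul]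
          exact Submodule.smul_mem _ _ (hc m hm).2
        exact hle hw)
    apply he
    rw [hqeq]
    refine ⟨1, fun h => (Ideal.IsPrime.ne_top inferInstance) ((Ideal.eq_top_iff_one M).2 h), ?_⟩
    rw [heW m' hm'W, smul_zero]

end APd
end
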